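import Pool.Agent.Lib.MP_c7858e_gt.Cube

/-! The lower bound on one bulb. -/

namespace Pool.Agent.Lib.MP_c7858e_gt

open MeasureTheory Set Filter Topology
open scoped ENNReal

lemma upd_eq {d : ℕ} (r : Fin d → ℝ) (k : Fin d) (τ : ℝ) :
    Function.update r k 0 + τ • Pi.single k 1 = Function.update r k τ := by
  funext j
  by_cases hj : j = k <;> simp [hj]

lemma half_le {Ω : Type*} [MeasurableSpace Ω] (μ μ' : Measure Ω) [IsProbabilityMeasure μ]
    [IsProbabilityMeasure μ'] {A : Set Ω} (hA : MeasurableSet A) (h : μ.real A + μ'.real A = 1) :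
    1 ≤ ∫⁻ z, 2 * ‖A.indicator (1 : Ω → ℝ) z.2 - A.indicator 1 z.1‖ₑ ∂μ.prod μ' := by
  have h1 : ∫⁻ z, (A ×ˢ Aᶜ).indicator 1 z + (Aᶜ ×ˢ A).indicator 1 z ∂μ.prod μ' ≤
      ∫⁻ z, ‖A.indicator (1 : Ω → ℝ) z.2 - A.indicator 1 z.1‖ₑ ∂μ.prod μ' :=
    lintegral_mono fun z => by
      by_cases h1 : z.1 ∈ A <;> by_cases h2 : z.2 ∈ A <;> simp [indicator, h1, h2]
  rw [lintegral_add_left (measurable_one.indicator (hA.prod hA.compl)),
    lintegral_indicator_one (hA.prod hA.compl), lintegral_indicator_one (hA.compl.prod hA),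
    Measure.prod_prod, Measure.prod_prod, ← ofReal_measureReal (s := A),
    ← ofReal_measureReal (s := Aᶜ), ← ofReal_measureReal (s := Aᶜ), ← ofReal_measureReal (μ := μ') (s := A),
    ← ENNReal.ofReal_mul measureReal_nonneg, ← ENNReal.ofReal_mul measureReal_nonneg,
    ← ENNReal.ofReal_add (by positivity) (by positivity), probReal_compl_eq_one_sub hA,
    probReal_compl_eq_one_sub hA] at h1
  rw [lintegral_const_mul' _ _ (by finiteness)]
  refine le_trans ?_ (mul_le_mul_right h1 2)
  rw [← ENNReal.ofReal_ofNat 2, ← ENNReal.ofReal_mul zero_le_two, ENNReal.one_le_ofReal,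
    show μ'.real A = 1 - μ.real A by linarith]
  nlinarith [sq_nonneg (2 * μ.real A - 1)]

theorem bulb {d : ℕ} (z : Fin d) {u : (Fin d → ℝ) → ℝ} (hu : ContDiff ℝ 1 u)
    (hp : ∀ x, u (x + Pi.single z 1) = u x) {a a' l : Fin d → ℝ} (hl : ∀ j, 0 < l j) (ha : 0 ≤ a)
    (h1 : a + l ≤ 1) (ha' : 0 ≤ a') (h1' : a' + l ≤ 1) (he : ∀ j, j ≠ z → a' j = a j)
    {A : Set (Fin d → ℝ)} (hA : MeasurableSet A)
    (hb : (cube d).real (A ∩ Icc a (a + l)) + (cube d).real (A ∩ Icc a' (a' + l)) = ∏ j, l j)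
    {e : ℝ≥0∞} (hγ : ∫⁻ x, ‖u x - A.indicator 1 x‖ₑ ∂cube d ≤ e)
    (hE : ∀ k, z < k → ∫⁻ x in Icc a (a + l), ‖pd u k x‖ₑ ∂cube d ≤ e)
    (hE' : ∀ k, k < z → ∫⁻ x in Icc a' (a' + l), ‖pd u k x‖ₑ ∂cube d ≤ e) :
    1 ≤ (4 + 2 * d) * ((ENNReal.ofReal (∏ j, l j))⁻¹ * e) +
      (ENNReal.ofReal (∏ j, Function.update l z 1 j))⁻¹ *
        ∫⁻ x in Icc (Function.update a z 0) (Function.update a z 0 + Function.update l z 1),
          ‖pd u z x‖ₑ ∂cube d := by
  have i1 := fun j => bx_prob (a j) (hl j)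
  have i2 := fun j => bx_prob (a' j) (hl j)
  have hP : 0 < ∏ j, l j := Finset.prod_pos fun j _ => hl j
  have hl1 : ∀ j, l j ≤ 1 := fun j => by
    have := ha j; have := h1 j
    simp only [Pi.zero_apply, Pi.add_apply, Pi.one_apply] at *
    linarith
  have hr : ∀ b : Fin d → ℝ, 0 ≤ b → b + l ≤ 1 → (Measure.pi fun j => bx (b j) (l j)).real A =
      (∏ j, l j)⁻¹ * (cube d).real (A ∩ Icc b (b + l)) := fun b hb hb' => by
    rw [pi_bx hl hb hb', measureReal_ennreal_smul_apply, measureReal_restrict_apply hA,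
      ENNReal.toReal_inv, ENNReal.toReal_ofReal hP.le]
  have h0 := half_le (Measure.pi fun j => bx (a j) (l j)) (Measure.pi fun j => bx (a' j) (l j)) hA
    (by rw [hr a ha h1, hr a' ha' h1', ← mul_add, hb, inv_mul_cancel₀ hP.ne'])
  have hm : Measurable fun x => ‖u x - A.indicator 1 x‖ₑ :=
    (hu.continuous.measurable.sub (measurable_one.indicator hA)).enorm
  have hg : ∀ b : Fin d → ℝ, 0 ≤ b → b + l ≤ 1 → ∫⁻ x, ‖u x - A.indicator 1 x‖ₑ
      ∂(Measure.pi fun j => bx (b j) (l j)) ≤ (ENNReal.ofReal (∏ j, l j))⁻¹ * e := fun b hb hb' => by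
    rw [pi_bx hl hb hb', lintegral_smul_measure, smul_eq_mul]
    exact mul_le_mul_right ((setLIntegral_le_lintegral _ _).trans hγ) _
  have hmix : ∀ k : ℕ, Measurable fun w : (Fin d → ℝ) × (Fin d → ℝ) =>
      u (mix (fun j => k ≤ j.1) w) := fun k => hu.continuous.measurable.comp
        (mp_mix _ (fun j => bx (a j) (l j)) fun j => bx (a' j) (l j)).measurable
  have hs : ∀ k : Fin d, ∫⁻ w, 2 * ‖u (mix (fun j => k.1 ≤ j.1) w) -
      u (mix (fun j => k.1 + 1 ≤ j.1) w)‖ₑ ∂(Measure.pi fun j => bx (a j) (l j)).prod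
        (Measure.pi fun j => bx (a' j) (l j)) ≤ 2 * ((ENNReal.ofReal (∏ j, l j))⁻¹ * e) +
      if k = z then (ENNReal.ofReal (∏ j, Function.update l z 1 j))⁻¹ *
        ∫⁻ x in Icc (Function.update a z 0) (Function.update a z 0 + Function.update l z 1),
          ‖pd u z x‖ₑ ∂cube d else 0 := by
    intro k
    split_ifs with hk
    · subst hk
      refine le_trans ?_ le_add_self
      refine (step hu k _ _ nu 2 (I := Icc 0 1)
        ((bx_ae _ _).mono fun x hx => ⟨(ha k).trans hx.1, hx.2.trans (h1 k)⟩)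
        ((bx_ae _ _).mono fun x hx => ⟨(ha' k).trans hx.1, hx.2.trans (h1' k)⟩)
        fun r s hs t ht hst => ?_).trans_eq ?_
      · simpa only [upd_eq] using per_tv hu (Function.update r k 0) _ (hp _) hs.1 hst ht.2
      · rw [← smul_eq_mul, ← lintegral_smul_measure, ← pi_bx]
        · congr 2
          funext j
          by_cases hj : j = k
          · simp [hj, bx, nu]
          · simp [hj, he j hj]
        · intro j
          by_cases hj : j = k <;> simp [hj, hl]
        · intro j
          by_cases hj : j = k <;> simp [hj, show 0 ≤ a j from ha j]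
        · intro j
          by_cases hj : j = k <;> simp [hj, show a j + l j ≤ 1 from h1 j]
    · rw [add_zero, lintegral_const_mul' _ _ (by finiteness)]
      refine mul_le_mul_right ?_ 2
      have := step hu k (fun j => bx (a j) (l j)) (fun j => bx (a' j) (l j)) (bx (a k) (l k)) 1
        (I := Icc (a k) (a k + l k)) (bx_ae _ _) (he k hk ▸ bx_ae _ _) fun r s hs t ht hst => by
          have := seg hu (Function.update r k 0) (Pi.single k 1) hst
          simp only [upd_eq] at this
          rw [one_mul, bx, lintegral_smul_measure, smul_eq_mul]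
          refine (this.trans (lintegral_mono_set (Icc_subset_Icc hs.1 ht.2))).trans
            (le_mul_of_one_le_left' ?_)
          rw [ENNReal.one_le_inv, ENNReal.ofReal_le_one]
          exact hl1 k
      simp only [one_mul] at this
      refine this.trans ?_
      rcases lt_or_gt_of_ne hk with h | h
      · rw [show (fun j => if j = k then bx (a k) (l k) else if k.1 + 1 ≤ j.1 then bx (a' j) (l j)
            else bx (a j) (l j)) = fun j => bx (a' j) (l j) from funext fun j => ?_,
          pi_bx hl ha' h1', lintegral_smul_measure, smul_eq_mul]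
        · exact mul_le_mul_right (hE' k h) _
        · split_ifs with h2 h3
          · rw [h2, he k hk]
          · rfl
          · rw [he j fun e => h3 (e ▸ h)]
      · rw [show (fun j => if j = k then bx (a k) (l k) else if k.1 + 1 ≤ j.1 then bx (a' j) (l j)
            else bx (a j) (l j)) = fun j => bx (a j) (l j) from funext fun j => ?_,
          pi_bx hl ha h1, lintegral_smul_measure, smul_eq_mul]
        · exact mul_le_mul_right (hE k h) _
        · split_ifs with h2 h3
          · rw [h2]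
          · rw [he j fun e => by rw [e] at h3; exact absurd (Fin.lt_def.1 h) (by omega)]
          · rfl
  refine h0.trans ((lintegral_mono (g := fun w => 2 * ‖u w.1 - A.indicator 1 w.1‖ₑ +
    (2 * ‖u w.2 - A.indicator 1 w.2‖ₑ + ∑ k : Fin d, 2 * ‖u (mix (fun j => k.1 ≤ j.1) w) -
      u (mix (fun j => k.1 + 1 ≤ j.1) w)‖ₑ)) fun w => ?_).trans ?_)
  · have t := Finset.sum_range_sub' (fun k => u (mix (fun j => k ≤ j.1) w)) d
    have e0 : mix (fun j : Fin d => 0 ≤ j.1) w = w.2 := funext fun j => if_pos (Nat.zero_le _)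
    have e1 : mix (fun j : Fin d => d ≤ j.1) w = w.1 := funext fun j => if_neg j.2.not_ge
    rw [e0, e1, ← Fin.sum_univ_eq_sum_range (fun k => u (mix (fun j => k ≤ j.1) w) -
      u (mix (fun j => k + 1 ≤ j.1) w))] at t
    dsimp only
    rw [← Finset.mul_sum, ← mul_add, ← mul_add]
    refine mul_le_mul_right ?_ 2
    rw [show A.indicator (1 : (Fin d → ℝ) → ℝ) w.2 - A.indicator 1 w.1 = (u w.1 - A.indicator 1 w.1)
      + (-(u w.2 - A.indicator 1 w.2) + (u w.2 - u w.1)) by ring, ← t]
    refine (enorm_add_le _ _).trans (add_le_add le_rfl ((enorm_add_le _ _).trans ?_))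
    rw [enorm_neg]
    exact add_le_add le_rfl (enorm_sum_le _ _)
  · rw [lintegral_add_left (f := fun w : (Fin d → ℝ) × (Fin d → ℝ) =>
        2 * ‖u w.1 - A.indicator 1 w.1‖ₑ) ((hm.comp measurable_fst).const_mul 2),
      lintegral_add_left (f := fun w : (Fin d → ℝ) × (Fin d → ℝ) =>
        2 * ‖u w.2 - A.indicator 1 w.2‖ₑ) ((hm.comp measurable_snd).const_mul 2),
      lintegral_finsetSum (f := fun (k : Fin d) w => 2 * ‖u (mix (fun j => k.1 ≤ j.1) w) -
        u (mix (fun j => k.1 + 1 ≤ j.1) w)‖ₑ) _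
        fun k _ => (((hmix _).sub (hmix _)).enorm.const_mul 2),
      lintegral_const_mul' _ _ (by finiteness), lintegral_const_mul' _ _ (by finiteness),
      measurePreserving_fst.lintegral_comp hm, measurePreserving_snd.lintegral_comp hm]
    refine (add_le_add (mul_le_mul_right (hg a ha h1) 2) (add_le_add
      (mul_le_mul_right (hg a' ha' h1') 2) (Finset.sum_le_sum fun k _ => hs k))).trans_eq ?_
    rw [Finset.sum_add_distrib, Finset.sum_ite_eq', if_pos (Finset.mem_univ _), Finset.sum_const,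
      Finset.card_univ, Fintype.card_fin, nsmul_eq_mul]
    ring

end Pool.Agent.Lib.MP_c7858e_gt
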