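import Pool.Agent.Lib.MP_c7858e_gt.Lift

/-! Integrals on the cube, Poincare inequality, and the lower bound on one wheel. -/

namespace Pool.Agent.Lib.MP_c7858e_gt

open MeasureTheory Set Filter Topology
open scoped ENNReal

/-- Lebesgue measure on the unit interval -/
noncomputable def nu : Measure ℝ := volume.restrict (Icc 0 1)

instance nuProb : IsProbabilityMeasure nu := ⟨by simp [nu]⟩

lemma cube_pi (d : ℕ) : cube d = Measure.pi fun _ => nu := by
  rw [cube, ← pi_univ_Icc, volume_pi, Measure.restrict_pi_pi]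
  rfl

lemma mp_eval {d : ℕ} (i : Fin d) : MeasurePreserving (fun x => x i) (cube d) nu := by
  rw [cube_pi]
  exact measurePreserving_eval (fun _ => nu) i

/-- a directional derivative -/
noncomputable abbrev pd {d : ℕ} (u : (Fin d → ℝ) → ℝ) (i : Fin d) (x : Fin d → ℝ) : ℝ :=
  fderiv ℝ u x (Pi.single i 1)

lemma cont_pd {d : ℕ} {u : (Fin d → ℝ) → ℝ} (hu : ContDiff ℝ 1 u) (i : Fin d) :
    Continuous (pd u i) :=
  (hu.continuous_fderiv one_ne_zero).clm_apply continuous_const

lemma seg {d : ℕ} {u : (Fin d → ℝ) → ℝ} (hu : ContDiff ℝ 1 u) (x w : Fin d → ℝ) {a b : ℝ}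
    (hab : a ≤ b) : ‖u (x + b • w) - u (x + a • w)‖ₑ ≤
      ∫⁻ τ in Icc a b, ‖fderiv ℝ u (x + τ • w) w‖ₑ := by
  have h1 : ContDiff ℝ 1 fun τ : ℝ => u (x + τ • w) := hu.comp (by fun_prop)
  refine (enorm_sub_le_lintegral_deriv_of_contDiffOn_Icc h1.contDiffOn hab).trans_eq
    (lintegral_congr fun τ => ?_)
  have h2 : HasDerivAt (fun τ : ℝ => x + τ • w) w τ := by
    simpa using ((hasDerivAt_id τ).smul_const w).const_add x
  rw [((hu.differentiable one_ne_zero _).hasFDerivAt.comp_hasDerivAt τ h2).deriv.symm]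
  rfl

lemma per_tv {d : ℕ} {u : (Fin d → ℝ) → ℝ} (hu : ContDiff ℝ 1 u) (x w : Fin d → ℝ)
    (hp : u (x + w) = u x) {a b : ℝ} (ha : 0 ≤ a) (hab : a ≤ b) (hb : b ≤ 1) :
    2 * ‖u (x + b • w) - u (x + a • w)‖ₑ ≤ ∫⁻ τ, ‖fderiv ℝ u (x + τ • w) w‖ₑ ∂nu := by
  have h1 := seg hu x w ha
  have h2 := seg hu x w hab
  have h3 := seg hu x w hb
  rw [zero_smul, add_zero] at h1
  rw [one_smul, hp] at h3
  rw [← restrict_Ioc_eq_restrict_Icc] at h1 h2 h3
  rw [nu, ← restrict_Ioc_eq_restrict_Icc, ← Ioc_union_Ioc_eq_Ioc ha (hab.trans hb),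
    lintegral_union measurableSet_Ioc (Ioc_disjoint_Ioc_of_le le_rfl),
    ← Ioc_union_Ioc_eq_Ioc hab hb,
    lintegral_union measurableSet_Ioc (Ioc_disjoint_Ioc_of_le le_rfl), two_mul, add_left_comm]
  refine add_le_add h2 (le_trans ?_ (add_le_add h1 h3))
  rw [show u (x + b • w) - u (x + a • w) = -(u (x + a • w) - u x + (u x - u (x + b • w))) by ring,
    enorm_neg]
  exact enorm_add_le _ _

/-- take the coordinates in `S` from the second point -/
def mix {d : ℕ} (S : Fin d → Prop) [DecidablePred S] (z : (Fin d → ℝ) × (Fin d → ℝ)) :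
    Fin d → ℝ := fun j => if S j then z.2 j else z.1 j

lemma mp_mix {d : ℕ} (S : Fin d → Prop) [DecidablePred S] (μ μ' : Fin d → Measure ℝ)
    [∀ j, IsProbabilityMeasure (μ j)] [∀ j, IsProbabilityMeasure (μ' j)] :
    MeasurePreserving (mix S) ((Measure.pi μ).prod (Measure.pi μ'))
      (Measure.pi fun j => if S j then μ' j else μ j) := by
  have hm : Measurable (mix S) := measurable_pi_lambda _ fun j => by
    unfold mix
    split_ifs <;> fun_prop
  have : ∀ j, SigmaFinite (if S j then μ' j else μ j) := fun j => by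
    split_ifs <;> infer_instance
  refine ⟨hm, (Measure.pi_eq fun s hs => ?_).symm⟩
  have e : mix S ⁻¹' univ.pi s = (univ.pi fun j => if S j then univ else s j) ×ˢ
      (univ.pi fun j => if S j then s j else univ) := by
    ext z
    simp only [mix, mem_preimage, mem_prod, mem_univ_pi, ← forall_and]
    refine forall_congr' fun j => ?_
    split_ifs <;> simp
  rw [Measure.map_apply hm (MeasurableSet.univ_pi hs), e, Measure.prod_prod, Measure.pi_pi,
    Measure.pi_pi, ← Finset.prod_mul_distrib]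
  refine Finset.prod_congr rfl fun j _ => ?_
  split_ifs <;> simp

lemma lint_upd {d : ℕ} (i : Fin d) (μ : Fin d → Measure ℝ) [∀ j, IsProbabilityMeasure (μ j)]
    (l : Measure ℝ) [IsProbabilityMeasure l] {F : (Fin d → ℝ) → ℝ≥0∞} (hF : Measurable F) :
    ∫⁻ r, ∫⁻ τ, F (Function.update r i τ) ∂l ∂Measure.pi μ =
      ∫⁻ x, F x ∂Measure.pi fun j => if j = i then l else μ j := by
  have h := mp_mix (· = i) μ fun _ => l
  rw [← h.lintegral_comp hF, lintegral_prod (fun a => F (mix (· = i) a))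
    (hF.comp h.measurable).aemeasurable]
  refine lintegral_congr fun r => ?_
  rw [← (measurePreserving_eval (fun _ : Fin d => l) i).lintegral_comp
    (f := fun τ => F (Function.update r i τ)) (hF.comp (measurable_update r))]
  refine lintegral_congr fun q => congrArg F (funext fun j => ?_)
  by_cases hj : j = i <;> simp [mix, hj]

lemma mul_indep {d : ℕ} (i : Fin d) {f : ℝ → ℝ≥0∞} (hf : Measurable f) {G : (Fin d → ℝ) → ℝ≥0∞}
    (hG : Measurable G) (h : ∀ r τ, G (Function.update r i τ) = G r) :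
    ∫⁻ x, f (x i) * G x ∂cube d = (∫⁻ τ, f τ ∂nu) * ∫⁻ x, G x ∂cube d := by
  have := lint_upd i (fun _ => nu) nu (F := fun x => f (x i) * G x)
    ((hf.comp (measurable_pi_apply i)).mul hG)
  simp only [ite_self, Function.update_self, h, lintegral_mul_const _ hf,
    lintegral_const_mul _ hG] at this
  rw [cube_pi, this]

lemma step {d : ℕ} {u : (Fin d → ℝ) → ℝ} (hu : ContDiff ℝ 1 u) (k : Fin d)
    (μ μ' : Fin d → Measure ℝ) [∀ j, IsProbabilityMeasure (μ j)] [∀ j, IsProbabilityMeasure (μ' j)]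
    (l : Measure ℝ) [IsProbabilityMeasure l] (c : ℝ≥0∞) {I : Set ℝ} (h1 : ∀ᵐ a ∂μ k, a ∈ I)
    (h2 : ∀ᵐ a ∂μ' k, a ∈ I) (h : ∀ r, ∀ a ∈ I, ∀ b ∈ I, a ≤ b →
      c * ‖u (Function.update r k b) - u (Function.update r k a)‖ₑ ≤
        ∫⁻ τ, ‖pd u k (Function.update r k τ)‖ₑ ∂l) :
    ∫⁻ z, c * ‖u (mix (fun j => k.1 ≤ j.1) z) - u (mix (fun j => k.1 + 1 ≤ j.1) z)‖ₑ
      ∂(Measure.pi μ).prod (Measure.pi μ') ≤
      ∫⁻ x, ‖pd u k x‖ₑ ∂Measure.pi fun j => if j = k then l else
        if k.1 + 1 ≤ j.1 then μ' j else μ j := by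
  have : ∀ j : Fin d, IsProbabilityMeasure (if k.1 + 1 ≤ j.1 then μ' j else μ j) := fun j => by
    split_ifs <;> infer_instance
  have hF := (cont_pd hu k).measurable.enorm
  rw [← lint_upd k _ l hF, ← (mp_mix (fun j => k.1 + 1 ≤ j.1) μ μ').lintegral_comp
    (Measurable.lintegral_prod_right' (f := fun q : (Fin d → ℝ) × ℝ =>
      ‖pd u k (Function.update q.1 k q.2)‖ₑ) (hF.comp measurable_update'))]
  refine lintegral_mono_ae ?_
  filter_upwards [((measurePreserving_eval μ k).comp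
      measurePreserving_fst).quasiMeasurePreserving.ae h1,
    ((measurePreserving_eval μ' k).comp measurePreserving_snd).quasiMeasurePreserving.ae h2]
    with z hz1 hz2
  set r := mix (fun j => k.1 + 1 ≤ j.1) z with hr
  have e1 : mix (fun j => k.1 ≤ j.1) z = Function.update r k (z.2 k) := funext fun j => by
    by_cases hj : j = k
    · simp [mix, hj]
    · have : j.1 ≠ k.1 := fun e => hj (Fin.ext e)
      rw [Function.update_of_ne hj]
      exact if_congr (by omega) rfl rfl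
  have e2 : r = Function.update r k (z.1 k) := by
    rw [eq_comm, Function.update_eq_self_iff]
    simp [hr, mix]
  rw [e1]
  nth_rewrite 2 [e2]
  rcases le_total (z.1 k) (z.2 k) with hle | hle
  · exact h r _ hz1 _ hz2 hle
  · rw [enorm_sub_rev]
    exact h r _ hz2 _ hz1 hle

/-- the uniform measure on an interval -/
noncomputable def bx (a l : ℝ) : Measure ℝ :=
  (ENNReal.ofReal l)⁻¹ • volume.restrict (Icc a (a + l))

lemma bx_prob (a : ℝ) {l : ℝ} (hl : 0 < l) : IsProbabilityMeasure (bx a l) :=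
  ⟨by simp [bx, ENNReal.inv_mul_cancel, hl]⟩

lemma bx_ae (a l : ℝ) : ∀ᵐ x ∂bx a l, x ∈ Icc a (a + l) :=
  Measure.ae_smul_measure (ae_restrict_mem measurableSet_Icc) _

lemma pi_bx {d : ℕ} {a l : Fin d → ℝ} (hl : ∀ j, 0 < l j) (ha : 0 ≤ a) (h1 : a + l ≤ 1) :
    Measure.pi (fun j => bx (a j) (l j)) =
      (ENNReal.ofReal (∏ j, l j))⁻¹ • (cube d).restrict (Icc a (a + l)) := by
  have := fun j => bx_prob (a j) (hl j)
  refine Measure.pi_eq fun s hs => ?_
  rw [cube, Measure.restrict_restrict_of_subset (Icc_subset_Icc ha h1), Measure.smul_apply,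
    Measure.restrict_apply (MeasurableSet.univ_pi hs), ← pi_univ_Icc, ← pi_inter_distrib,
    volume_pi_pi, ENNReal.ofReal_prod_of_nonneg fun j _ => (hl j).le,
    ENNReal.prod_inv_distrib, smul_eq_mul, ← Finset.prod_mul_distrib]
  · exact Finset.prod_congr rfl fun j _ => by simp [bx, Measure.restrict_apply (hs j)]
  · exact fun i _ j _ _ => Or.inr ENNReal.ofReal_ne_top

end Pool.Agent.Lib.MP_c7858e_gt
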