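import Pool.Agent.Shared.Sing.Defs

/-! The p-widths of a Riemannian metric on the torus `R^d / Z^d`. -/

namespace Pool.Agent.Lib.MP_c7858e_gt

open MeasureTheory Set Filter Topology Matrix Pool.Agent.Sing
open scoped ENNReal symmDiff ContDiff

/-- Lebesgue measure on the unit cube, the fundamental domain of the torus. -/
noncomputable def cube (d : ℕ) : Measure (Fin d → ℝ) := volume.restrict (Icc 0 1)

/-- A smooth Riemannian metric on `R^d / Z^d`. -/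
structure Met (d : ℕ) where
  g : (Fin d → ℝ) → Matrix (Fin d) (Fin d) ℝ
  smooth : ∀ i j, ContDiff ℝ ∞ fun x => g x i j
  pos : ∀ x, (g x).PosDef
  per : ∀ x i, g (x + Pi.single i 1) = g x

variable {d : ℕ}

/-- The Riemannian volume. -/
noncomputable def vol (g : Met d) : ℝ≥0∞ := ∫⁻ x, ENNReal.ofReal √(g.g x).det ∂cube d

/-- `|du|_g dvol_g` integrated over `U`. -/
noncomputable def energy (g : Met d) (u : (Fin d → ℝ) → ℝ) (U : Set (Fin d → ℝ)) : ℝ≥0∞ :=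
  ∫⁻ x in U, ENNReal.ofReal √((g.g x).det *
    ((fun i => fderiv ℝ u x (Pi.single i 1)) ⬝ᵥ
      (g.g x)⁻¹ *ᵥ fun i => fderiv ℝ u x (Pi.single i 1))) ∂cube d

/-- The mass in `U` of the boundary of `A`: the perimeter of `A`, by relaxation. -/
noncomputable def mass (g : Met d) (A U : Set (Fin d → ℝ)) : ℝ≥0∞ :=
  ⨅ (u : ℕ → (Fin d → ℝ) → ℝ)
    (_ : ∀ k, ContDiff ℝ 1 (u k) ∧ ∀ x i, u k (x + Pi.single i 1) = u k x)
    (_ : Tendsto (fun k => ∫⁻ x, ‖u k x - A.indicator 1 x‖ₑ ∂cube d) atTop (𝓝 0)),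
    liminf (fun k => energy g (u k) U) atTop

variable {X : Type} [TopologicalSpace X]

open Classical in
/-- The monodromy, along a singular edge, of the double cover `A ↦ ∂ A`. -/
noncomputable def lam (A : X → Set (Fin d → ℝ)) (σ : C(Std 1, X)) : ZMod 2 :=
  if ∃ B : Std 1 → Set (Fin d → ℝ),
      (∀ t, Tendsto (fun s => cube d (B s ∆ B t)) (𝓝 t) (𝓝 0)) ∧
      (∀ t, B t = A (σ t) ∨ B t = (A (σ t))ᶜ) ∧
      B (stdSimplex.vertex 0) = A (σ (stdSimplex.vertex 0)) ∧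
      B (stdSimplex.vertex 1) = (A (σ (stdSimplex.vertex 1)))ᶜ then 1 else 0

/-- The `p`-th cup power of `lam A`. -/
noncomputable def lamPow (A : X → Set (Fin d → ℝ)) (p : ℕ) : Co (ZMod 2) X p :=
  Finsupp.linearCombination (ZMod 2) fun σ : C(Std p, X) =>
    ∏ i : Fin p, lam A (σ.comp (vmap ![i.castSucc, i.succ]))

/-- `x ↦ ∂ (A x)` is a `p`-sweepout. -/
def Sweep (p : ℕ) (A : X → Set (Fin d → ℝ)) : Prop :=
  (∀ x, MeasurableSet (A x)) ∧
  (∀ x, Tendsto (fun y => min (cube d (A y ∆ A x)) (cube d (A y ∆ (A x)ᶜ))) (𝓝 x) (𝓝 0)) ∧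
  lamPow A p ∉ cobdry (ZMod 2) X p

/-- No concentration of mass. -/
def NoConc {X : Type} (g : Met d) (A : X → Set (Fin d → ℝ)) : Prop :=
  Tendsto (fun r : ℝ => ⨆ (x : X) (q : Fin d → ℝ),
    mass g (A x) {y | ∃ z : Fin d → ℤ, dist (y + fun i => (z i : ℝ)) q < r}) (𝓝[>] 0) (𝓝 0)

/-- The `p`-width. -/
noncomputable def width (g : Met d) (p : ℕ) : ℝ≥0∞ :=
  ⨅ (X : Type) (_ : TopologicalSpace X) (A : X → Set (Fin d → ℝ)) (_ : Sweep p A ∧ NoConc g A),
    ⨆ x, mass g (A x) univ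

end Pool.Agent.Lib.MP_c7858e_gt
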