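import Pool.Agent.Lib.MP_c7858e_gt.Lower

/-! Diagonal metrics. -/

namespace Pool.Agent.Lib.MP_c7858e_gt

open MeasureTheory Set Filter Topology Matrix
open scoped ENNReal ContDiff

lemma ex_met {d : ℕ} {W : (Fin d → ℝ) → Fin d → ℝ} {v : (Fin d → ℝ) → ℝ}
    (hW : ∀ j, ContDiff ℝ ∞ fun x => W x j) (hv : ContDiff ℝ ∞ v) (pW : ∀ x j, 0 < W x j)
    (pv : ∀ x, 0 < v x) (qW : ∀ x i, W (x + Pi.single i 1) = W x)
    (qv : ∀ x i, v (x + Pi.single i 1) = v x) (h : ∀ x, ∏ j, v x / W x j = v x) :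
    ∃ g : Met d, vol g = ∫⁻ x, ENNReal.ofReal (v x) ∂cube d ∧
      ∀ x ξ, dens g x ξ = √(∑ j, (W x j * ξ j) ^ 2) := by
  have hd : ∀ x, (diagonal fun j => (v x / W x j) ^ 2).det = v x ^ 2 := fun x => by
    rw [det_diagonal, Finset.prod_pow, h]
  refine ⟨⟨fun x => diagonal fun j => (v x / W x j) ^ 2, fun i j => ?_,
    fun x => PosDef.diagonal fun j => pow_pos (div_pos (pv x) (pW x j)) 2,
    fun x i => by rw [qW, qv]⟩, ?_, fun x ξ => ?_⟩
  · simp only [diagonal_apply]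
    split_ifs
    · exact (hv.div (hW i) fun x => (pW x i).ne').pow 2
    · exact contDiff_const
  · simp only [vol, hd, Real.sqrt_sq (pv _).le]
  · have hi : (diagonal fun j => (v x / W x j) ^ 2)⁻¹ = diagonal fun j => (W x j / v x) ^ 2 := by
      refine inv_eq_right_inv ?_
      rw [diagonal_mul_diagonal, ← diagonal_one]
      congr 1
      funext j
      have := pv x
      have := pW x j
      field_simp
    simp only [dens, hd, hi, dotProduct, mulVec_diagonal, Finset.mul_sum]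
    congr 1
    refine Finset.sum_congr rfl fun j _ => ?_
    have := pv x
    field_simp

lemma le_rt {d : ℕ} {W ξ : Fin d → ℝ} {K : ℝ} {k : Fin d} (h : K ≤ W k) :
    K * |ξ k| ≤ √(∑ j, (W j * ξ j) ^ 2) := by
  refine (mul_le_mul_of_nonneg_right (h.trans (le_abs_self _)) (abs_nonneg _)).trans ?_
  rw [← abs_mul]
  exact Real.abs_le_sqrt (Finset.single_le_sum (f := fun j => (W j * ξ j) ^ 2)
    (fun _ _ => sq_nonneg _) (Finset.mem_univ k))

lemma rt_le {d : ℕ} {W : Fin d → ℝ} (h : ∀ j, 0 ≤ W j) (ξ : Fin d → ℝ) :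
    √(∑ j, (W j * ξ j) ^ 2) ≤ ∑ j, W j * |ξ j| := by
  have h0 : ∀ j ∈ Finset.univ, 0 ≤ W j * |ξ j| := fun j _ => mul_nonneg (h j) (abs_nonneg _)
  refine Real.sqrt_le_iff.2 ⟨Finset.sum_nonneg h0, le_trans (le_of_eq ?_)
    (Finset.sum_sq_le_sq_sum_of_nonneg h0)⟩
  simp only [mul_pow, sq_abs]

lemma rt_cmp {d : ℕ} {W W' : Fin d → ℝ} {c : ℝ} (hc : 0 ≤ c) (h0 : ∀ j, 0 ≤ W j)
    (h : ∀ j, W j ≤ c * W' j) (ξ : Fin d → ℝ) :
    √(∑ j, (W j * ξ j) ^ 2) ≤ c * √(∑ j, (W' j * ξ j) ^ 2) := by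
  rw [← Real.sqrt_sq hc, ← Real.sqrt_mul (sq_nonneg c), Finset.mul_sum]
  refine Real.sqrt_le_sqrt (Finset.sum_le_sum fun j _ => ?_)
  rw [mul_pow, mul_pow, ← mul_assoc, ← mul_pow c]
  exact mul_le_mul_of_nonneg_right (pow_le_pow_left₀ (h0 j) (h j) 2) (sq_nonneg _)

variable {n : ℕ}

/-- a point with three distinguished coordinates -/
def pt (y z s w : ℝ) : Fin (n + 3) → ℝ := vecCons y (vecCons z (vecCons s fun _ => w))

lemma fin3 {Q : Fin (n + 3) → Prop} (h0 : Q 0) (h1 : Q 1) (h2 : Q 2)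
    (h : ∀ j : Fin n, Q j.succ.succ.succ) (j : Fin (n + 3)) : Q j :=
  Fin.cases h0 (fun j => Fin.cases h1 (fun j => Fin.cases h2 h j) j) j

lemma pt_all {Q : ℝ → Prop} {y z s w : ℝ} (h0 : Q y) (h1 : Q z) (h2 : Q s) (h : Q w)
    (j : Fin (n + 3)) : Q (pt y z s w j) :=
  fin3 (n := n) (Q := fun j => Q (pt y z s w j)) h0 h1 h2 (fun _ => h) j

lemma pt_rel {Q : ℝ → ℝ → Prop} {y z s w y' z' s' w' : ℝ} (h0 : Q y y') (h1 : Q z z') (h2 : Q s s')
    (h : Q w w') (j : Fin (n + 3)) : Q (pt y z s w j) (pt y' z' s' w' j) :=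
  fin3 (n := n) (Q := fun j => Q (pt y z s w j) (pt y' z' s' w' j)) h0 h1 h2 (fun _ => h) j

lemma pt_upd (y z s w z' : ℝ) : Function.update (pt (n := n) y z s w) 1 z' = pt y z' s w :=
  funext (fin3 rfl rfl rfl fun _ => rfl)

lemma pt_prod (y z s : ℝ) : ∏ j, pt (n := n) y z s 1 j = y * z * s := by
  simp [pt, Fin.prod_univ_succ, mul_assoc]

lemma pt_vol {κ σ v k : ℝ} (hκ : 0 < κ) (hσ : 0 < σ) (hv : 0 < v) (hk : 0 < k) :
    ∏ j, v / pt (n := n) (v / κ) σ (v * (v * k) ^ n * κ / σ) k⁻¹ j = v := by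
  simp [pt, Fin.prod_univ_succ]
  field_simp
  ring

lemma pt_sum (y z s w : ℝ) {ξ : Fin (n + 3) → ℝ} (h : ∀ i, i ≠ 0 → i ≠ 1 → i ≠ 2 → ξ i = 0) :
    ∑ j, pt y z s w j * |ξ j| = y * |ξ 0| + z * |ξ 1| + s * |ξ 2| := by
  have : ∀ j : Fin n, ξ j.succ.succ.succ = 0 := fun j => h _ (Fin.succ_ne_zero _)
    (fun e => Fin.succ_ne_zero _ (Fin.succ_injective _ e))
    fun e => Fin.succ_ne_zero _ (Fin.succ_injective _ (Fin.succ_injective _ e))
  simp [pt, Fin.sum_univ_succ, this, add_assoc]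

lemma pt_gt {y z s w K : ℝ} (h2 : K ≤ s) (h : K ≤ w) : ∀ k : Fin (n + 3), 1 < k → K ≤ pt y z s w k :=
  fin3 (by simp) (by simp) (fun _ => h2) fun _ _ => h

lemma pt_lt {y z s w K : ℝ} (h : K ≤ y) : ∀ k : Fin (n + 3), k < 1 → K ≤ pt y z s w k :=
  fin3 (fun _ => h) (by simp) (fun e => absurd e (Nat.not_lt.2 one_le_two)) fun _ e =>
    absurd e (Nat.not_lt.2 (Nat.le_add_left _ _))

lemma small (C : ℝ) {δ : ℝ} (hδ : 0 < δ) : ∀ᶠ r in 𝓝[>] (0 : ℝ), r * C ≤ δ :=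
  ((continuous_mul_const C).continuousAt.eventually
    (ge_mem_nhds (by simpa))).filter_mono nhdsWithin_le_nhds

lemma th_at {P j : ℕ} {θ s : ℝ} (hθ : 0 < θ) (hj : j < P) (h0 : 0 ≤ s) (h1 : s < 1)
    (h : θ ≤ Int.fract (P * s)) : th P (2 * P / θ) j s = if ⌊P * s⌋₊ = j then 1 else 0 := by
  have hP : (0 : ℝ) < P := by exact_mod_cast (Nat.zero_le j).trans_lt hj
  refine th_eq (by positivity) hj h0 h1 (lt_of_lt_of_le ?_ (mul_le_mul_of_nonneg_left h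
    (by positivity)))
  rw [div_mul_cancel₀ _ hθ.ne']
  linarith

lemma core {P i : ℕ} {θ s : ℝ} (hθ : 0 < θ) (hi : i < P) (h1 : (i + 2 * θ) / P ≤ s)
    (h2 : s ≤ (i + 2 * θ) / P + (1 - 5 * θ) / P) :
    ph θ (P * s) = 1 ∧ ∀ j < P, th P (2 * P / θ) j s = if i = j then 1 else 0 := by
  have hP : (0 : ℝ) < P := by exact_mod_cast (Nat.zero_le i).trans_lt hi
  have hi' : (i : ℝ) + 1 ≤ P := by exact_mod_cast hi
  have i0 : (0 : ℝ) ≤ i := i.cast_nonneg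
  rw [div_le_iff₀' hP] at h1
  rw [← add_div, le_div_iff₀' hP] at h2
  have e : ⌊P * s⌋₊ = i := (Nat.floor_eq_iff (by linarith)).2 ⟨by linarith, by linarith⟩
  have f : Int.fract (P * s) = P * s - i := by
    rw [Int.fract, (Int.floor_eq_iff (z := i)).2 ⟨by push_cast; linarith, by push_cast; linarith⟩,
      Int.cast_natCast]
  refine ⟨ph_one hθ (by linarith) (by linarith), fun j hj => ?_⟩
  rw [th_at hθ hj (by nlinarith) (by nlinarith) (by linarith), e]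

lemma box_le {P i : ℕ} {θ : ℝ} (hθ : 0 < θ) (hi : i < P) :
    (i + 2 * θ) / P + (1 - 5 * θ) / P ≤ 1 := by
  have hi' : (i : ℝ) + 1 ≤ P := by exact_mod_cast hi
  rw [← add_div, div_le_one (by linarith [i.cast_nonneg (α := ℝ)])]
  linarith

end Pool.Agent.Lib.MP_c7858e_gt
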