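import Pool.Agent.Lib.MP_c7858e_gt.Diag

/-! The family of metrics with many bulbs. -/

namespace Pool.Agent.Lib.MP_c7858e_gt

open MeasureTheory Set Filter Topology Matrix
open scoped ENNReal ContDiff

/-- the area of the necks -/
noncomputable def sgm (P : ℕ) (θ η : ℝ) (a : ℕ → ℝ) (s : ℝ) : ℝ :=
  η + ∑ i ∈ Finset.range P, P * |a i| * (ph θ (P * s) * th P (2 * P / θ) i s)

/-- the anisotropy -/
noncomputable def kp (θ r t : ℝ) : ℝ :=
  r⁻¹ * (1 - th 2 (2 * (2 : ℕ) / θ) 1 t) + r * th 2 (2 * (2 : ℕ) / θ) 1 t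

/-- the bulbs -/
noncomputable def bp {n : ℕ} (P : ℕ) (θ : ℝ) (x : Fin (n + 3) → ℝ) : ℝ :=
  ph θ (P * x 2) * ph θ ((2 : ℕ) * x 1)

variable {n P : ℕ} {θ η r s c A : ℝ} {a a' : ℕ → ℝ}

lemma two_le (h0 : 0 < θ) (h1 : θ ≤ 1 / 8) (hP : 0 < P) : 2 ≤ 2 * P / θ := by
  have : (1 : ℝ) ≤ P := by exact_mod_cast hP
  rw [le_div_iff₀ h0]
  linarith

lemma ph_per (θ : ℝ) (P : ℕ) (s : ℝ) : ph θ (P * (s + 1)) = ph θ (P * s) := by
  rw [← ph_int θ (P * s) P, mul_add, mul_one, Int.cast_natCast]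

lemma tm_mem (h0 : 0 < θ) (h1 : θ ≤ 1 / 8) (hP : 0 < P) (i : ℕ) (s : ℝ) :
    0 ≤ ph θ (P * s) * th P (2 * P / θ) i s ∧ ph θ (P * s) * th P (2 * P / θ) i s ≤ 1 :=
  ⟨mul_nonneg (ph_mem h0 h1).1 (th_nonneg (by positivity)),
    mul_le_one₀ (ph_mem h0 h1).2 (th_nonneg (by positivity)) (th_le_one (by positivity) hP)⟩

lemma sgm_ge (h0 : 0 < θ) (h1 : θ ≤ 1 / 8) (hP : 0 < P) : η ≤ sgm P θ η a s :=
  le_add_of_nonneg_right (Finset.sum_nonneg fun i _ =>
    mul_nonneg (by positivity) (tm_mem h0 h1 hP i s).1)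

lemma sgm_le (h0 : 0 < θ) (h1 : θ ≤ 1 / 8) (hP : 0 < P) (h : ∀ i < P, |a i| ≤ A) (s : ℝ) :
    sgm P θ η a s ≤ η + P * (P * A) := by
  refine add_le_add le_rfl ((Finset.sum_le_card_nsmul _ _ (P * A) fun i hi => ?_).trans (by simp))
  exact (mul_le_of_le_one_right (by positivity) (tm_mem h0 h1 hP i s).2).trans
    (mul_le_mul_of_nonneg_left (h i (Finset.mem_range.1 hi)) P.cast_nonneg)

lemma sgm_top (h0 : 0 < θ) (h1 : θ ≤ 1 / 8) (hs : s ∈ Ioo (0 : ℝ) 1) :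
    sgm P θ η a s ≤ η + P * |a ⌊P * s⌋₊| := by
  refine add_le_add le_rfl ?_
  rcases lt_or_ge (Int.fract (P * s)) θ with h | h
  · simp only [ph_zero h0 h1 h, zero_mul, mul_zero, Finset.sum_const_zero]
    positivity
  · rw [Finset.sum_congr rfl fun i hi => by rw [th_at h0 (Finset.mem_range.1 hi) hs.1.le hs.2 h]]
    simp only [mul_ite, mul_one, mul_zero, Finset.sum_ite_eq]
    split_ifs
    · exact mul_le_of_le_one_right (by positivity) (ph_mem h0 h1).2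
    · positivity

lemma sgm_cmp (h0 : 0 < θ) (h1 : θ ≤ 1 / 8) (hP : 0 < P) (hη : 0 ≤ η) (hc : 1 ≤ c)
    (h : ∀ i < P, |a i| ≤ c * |a' i|) : sgm P θ η a s ≤ c * sgm P θ η a' s := by
  rw [sgm, sgm, mul_add, Finset.mul_sum]
  refine add_le_add (le_mul_of_one_le_left hη hc) (Finset.sum_le_sum fun i hi => ?_)
  have := mul_le_mul_of_nonneg_right (mul_le_mul_of_nonneg_left (h i (Finset.mem_range.1 hi))
    P.cast_nonneg) (tm_mem h0 h1 hP i s).1
  linarith

lemma sgm_smooth (h0 : 0 < θ) (h1 : θ ≤ 1 / 8) (hP : 0 < P) : ContDiff ℝ ∞ (sgm P θ η a) :=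
  contDiff_const.add (ContDiff.sum fun i _ => contDiff_const.mul
    (((ph_smooth h0 h1).comp (by fun_prop)).mul (th_smooth (two_le h0 h1 hP) P i)))

lemma sgm_per (s : ℝ) : sgm P θ η a (s + 1) = sgm P θ η a s := by
  simp only [sgm, ph_per, th_per]

lemma kp_mem (h0 : 0 < θ) (hr : 0 < r) (hr1 : r ≤ 1) (t : ℝ) :
    r ≤ kp θ r t ∧ kp θ r t ≤ r⁻¹ := by
  have a : 0 ≤ th 2 (2 * (2 : ℕ) / θ) 1 t := th_nonneg (by positivity)
  have b : th 2 (2 * (2 : ℕ) / θ) 1 t ≤ 1 := th_le_one (by positivity) two_pos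
  have : r ≤ r⁻¹ := hr1.trans ((one_le_inv₀ hr).2 hr1)
  rw [kp]
  constructor <;> nlinarith

lemma kp_smooth (h0 : 0 < θ) (h1 : θ ≤ 1 / 8) : ContDiff ℝ ∞ (kp θ r) :=
  (contDiff_const.mul (contDiff_const.sub (th_smooth (two_le h0 h1 two_pos) 2 1))).add
    (contDiff_const.mul (th_smooth (two_le h0 h1 two_pos) 2 1))

lemma kp_per (t : ℝ) : kp θ r (t + 1) = kp θ r t := by simp only [kp, th_per]

lemma bp_mem (h0 : 0 < θ) (h1 : θ ≤ 1 / 8) (x : Fin (n + 3) → ℝ) :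
    0 ≤ bp P θ x ∧ bp P θ x ≤ 1 :=
  ⟨mul_nonneg (ph_mem h0 h1).1 (ph_mem h0 h1).1,
    mul_le_one₀ (ph_mem h0 h1).2 (ph_mem h0 h1).1 (ph_mem h0 h1).2⟩

lemma bp_smooth (h0 : 0 < θ) (h1 : θ ≤ 1 / 8) : ContDiff ℝ ∞ (bp (n := n) P θ) :=
  ((ph_smooth h0 h1).comp (by fun_prop)).mul ((ph_smooth h0 h1).comp (by fun_prop))

lemma bp_per (x : Fin (n + 3) → ℝ) (i : Fin (n + 3)) : bp P θ (x + Pi.single i 1) = bp P θ x := by
  rw [bp, bp, per_coord (f := fun s => ph θ (P * s)) (ph_per θ P),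
    per_coord (f := fun s => ph θ ((2 : ℕ) * s)) (ph_per θ 2)]

lemma bp_int (h0 : 0 < θ) (h1 : θ ≤ 1 / 8) : Integrable (bp (n := n) P θ) (cube (n + 3)) :=
  (bp_smooth h0 h1).continuous.integrableOn_Icc

/-- the corner of a core -/
noncomputable def cn (P : ℕ) (θ : ℝ) (i j : ℕ) : Fin (n + 3) → ℝ :=
  pt 0 ((j + 2 * θ) / (2 : ℕ)) ((i + 2 * θ) / P) 0

/-- the sides of a core -/
noncomputable def sd (P : ℕ) (θ : ℝ) : Fin (n + 3) → ℝ :=
  pt 1 ((1 - 5 * θ) / (2 : ℕ)) ((1 - 5 * θ) / P) 1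

lemma sd_pos (h1 : θ ≤ 1 / 8) (hP : 0 < P) (j : Fin (n + 3)) : 0 < sd P θ j :=
  have : 0 < 1 - 5 * θ := by linarith
  pt_all (Q := (0 < ·)) one_pos (by positivity) (by positivity) one_pos j

lemma cn_ge (h0 : 0 < θ) (i j : ℕ) : 0 ≤ cn (n := n) P θ i j :=
  pt_all (Q := (0 ≤ ·)) le_rfl (by positivity) (by positivity) le_rfl

lemma cn_le (h0 : 0 < θ) {i j : ℕ} (hi : i < P) (hj : j < 2) :
    cn (n := n) P θ i j + sd P θ ≤ 1 :=
  pt_rel (Q := fun u w => u + w ≤ 1) (by simp) (box_le h0 hj) (box_le h0 hi) (by simp)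

lemma cn_core (h0 : 0 < θ) {i j : ℕ} (hi : i < P) (hj : j < 2) {x : Fin (n + 3) → ℝ}
    (h : x ∈ Icc (cn P θ i j) (cn P θ i j + sd P θ)) :
    bp P θ x = 1 ∧ kp θ r (x 1) = if j = 1 then r else r⁻¹ := by
  have a := core h0 hj (h.1 1) (h.2 1)
  refine ⟨by rw [bp, a.1, (core h0 hi (h.1 2) (h.2 2)).1, mul_one], ?_⟩
  rw [kp, a.2 1 one_lt_two]
  split_ifs <;> simp

lemma bp_pos (h0 : 0 < θ) (h1 : θ ≤ 1 / 8) (hP : 0 < P) : 0 < ∫ x, bp P θ x ∂cube (n + 3) := by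
  rw [integral_pos_iff_support_of_nonneg (fun x => (bp_mem h0 h1 x).1) (bp_int h0 h1)]
  refine lt_of_lt_of_le ?_ (measure_mono (s := Icc (cn P θ 0 0) (cn P θ 0 0 + sd P θ)) fun x hx =>
    (cn_core (r := 1) h0 hP two_pos hx).1.trans_ne one_ne_zero)
  rw [cube, Measure.restrict_apply measurableSet_Icc,
    inter_eq_left.2 (Icc_subset_Icc (cn_ge h0 0 0) (cn_le h0 hP two_pos)), Real.volume_Icc_pi,
    pos_iff_ne_zero, Finset.prod_ne_zero_iff]
  intro j _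
  simpa using sd_pos h1 hP j

theorem family (n : ℕ) (hP : 0 < P) {δ V : ℝ} (hA : 0 ≤ A) (hδ : 0 < δ) (hV : 0 < V) :
    ∃ g : (ℕ → ℝ) → Met (n + 3), (∀ a, vol (g a) = ENNReal.ofReal V) ∧
      (∀ a a' c, 1 ≤ c → (∀ i < P, |a i| ≤ c * |a' i| ∧ |a' i| ≤ c * |a i|) → ∀ p,
        width (g a) p ≤ ENNReal.ofReal c * width (g a') p) ∧
      ∀ a, (∀ i < P, 0 ≤ a i ∧ a i ≤ A) → (∀ i j, i ≤ j → j < P → a j ≤ a i) → ∀ p ≤ P,
        ENNReal.ofReal (∑ i ∈ Finset.range p, a i - δ) ≤ width (g a) p ∧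
          width (g a) p ≤ ENNReal.ofReal (∑ i ∈ Finset.range p, a i + δ) := by
  obtain ⟨θ, ⟨h1, hθ⟩, h0 : 0 < θ⟩ := (((small 1 (δ := 1 / 8) (by positivity)).and
    (small (6 * (P * A)) hδ)).and self_mem_nhdsWithin).exists
  obtain ⟨η, ⟨hη1, hηδ⟩, hη : 0 < η⟩ := (((small 1 one_pos).and
    (small (1 + 4 * P * (P + 1)) hδ)).and self_mem_nhdsWithin).exists
  rw [mul_one] at h1 hη1
  obtain ⟨k, ⟨hk1, hkθ⟩, hk : 0 < k⟩ := (((small 1 one_pos).and (small ((4 + 2 * (n + 3 : ℕ)) *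
    (∏ j, sd (n := n) P θ j)⁻¹ * (P * A)) h0)).and self_mem_nhdsWithin).exists
  have hΛ : 0 < ∏ j, sd (n := n) P θ j := Finset.prod_pos fun j _ => sd_pos h1 hP j
  have hI := bp_pos (n := n) h0 h1 hP
  set I := ∫ x, bp P θ x ∂cube (n + 3) with eI
  obtain ⟨r, ⟨⟨⟨hr1, r1⟩, r2, r3⟩, r4, r5⟩, hr : 0 < r⟩ := (((((small 1 one_pos).and
    (small 1 (half_pos hV))).and ((small (1 + V / I) (pow_pos hη 2)).and
    (small ((1 + V / I) * ((1 + V / I) * k) ^ n) (pow_pos hη 2)))).and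
    ((small k⁻¹ (δ := V / 2 / I) (by positivity)).and (small (k⁻¹ * (η + P * (P * A)))
    (δ := V / 2 / I * (V / 2 / I * k) ^ n) (by positivity)))).and self_mem_nhdsWithin).exists
  rw [mul_one] at hk1 hr1 r1
  have η2 : η ^ 2 ≤ η := by nlinarith
  have e1 : η ^ 2 * r ≤ r := mul_le_of_le_one_left hr.le (η2.trans hη1)
  obtain ⟨L, hL⟩ : ∃ L, L = (V - η ^ 2 * r) / I := ⟨_, rfl⟩
  have kL : V / 2 / I ≤ L := by rw [hL]; gcongr; linarith
  have L0 : 0 < L := lt_of_lt_of_le (by positivity) kL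
  obtain ⟨v, hv⟩ : ∃ v : (Fin (n + 3) → ℝ) → ℝ, v = fun x => η ^ 2 * r + L * bp P θ x := ⟨_, rfl⟩
  have v0 : ∀ x, 0 < v x := fun x => by
    have := (bp_mem (P := P) h0 h1 x).1
    rw [hv]
    positivity
  have v1 : ∀ x, v x ≤ 1 + V / I := fun x => by
    have a := mul_le_of_le_one_right L0.le (bp_mem (P := P) h0 h1 x).2
    have b : L ≤ V / I := by rw [hL]; gcongr; exact sub_le_self _ (by positivity)
    rw [hv]
    linarith
  have κ0 : ∀ t, 0 < kp θ r t := fun t => hr.trans_le (kp_mem h0 hr hr1 t).1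
  have σ0 : ∀ a s, 0 < sgm P θ η a s := fun a s => hη.trans_le (sgm_ge h0 h1 hP)
  have vs : ContDiff ℝ ∞ v := hv ▸ contDiff_const.add (contDiff_const.mul (bp_smooth h0 h1))
  have κs : ContDiff ℝ ∞ fun x : Fin (n + 3) → ℝ => kp θ r (x 1) :=
    (kp_smooth h0 h1).comp (contDiff_apply ℝ ℝ 1)
  have σs : ∀ a, ContDiff ℝ ∞ fun x : Fin (n + 3) → ℝ => sgm P θ η a (x 2) := fun a =>
    (sgm_smooth h0 h1 hP).comp (contDiff_apply ℝ ℝ 2)
  have vp : ∀ x i, v (x + Pi.single i 1) = v x := fun x i => by simp only [hv, bp_per]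
  have u0 : ∀ x, 0 < v x * (v x * k) ^ n := fun x => mul_pos (v0 x) (pow_pos (mul_pos (v0 x) hk) n)
  have W0 : ∀ a x (j : Fin (n + 3)), 0 < pt (v x / kp θ r (x 1)) (sgm P θ η a (x 2))
      (v x * (v x * k) ^ n * kp θ r (x 1) / sgm P θ η a (x 2)) k⁻¹ j := fun a x =>
    pt_all (Q := (0 < ·)) (div_pos (v0 x) (κ0 _)) (σ0 _ _)
      (div_pos (mul_pos (u0 x) (κ0 _)) (σ0 _ _)) (inv_pos.2 hk)
  choose g hg1 hg using fun a => ex_met (v := v) (W := fun x => pt (v x / kp θ r (x 1))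
      (sgm P θ η a (x 2)) (v x * (v x * k) ^ n * kp θ r (x 1) / sgm P θ η a (x 2)) k⁻¹)
    (fin3 (vs.div κs fun _ => (κ0 _).ne') (σs a) (((vs.mul ((vs.mul contDiff_const).pow n)).mul
      κs).div (σs a) fun _ => (σ0 _ _).ne') fun _ => contDiff_const (c := k⁻¹)) vs (W0 a) v0
    (fun x i => by simp only [vp, per_coord kp_per, per_coord sgm_per]) vp
    fun x => pt_vol (κ0 _) (σ0 _ _) (v0 x) hk
  refine ⟨g, fun a => ?_, fun a a' c hc h p => ?_, fun a ha hm p hp => ⟨?_, ?_⟩⟩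
  · rw [hg1, ← ofReal_integral_eq_lintegral_ofReal (μ := cube _) vs.continuous.integrableOn_Icc
      (Eventually.of_forall fun x => (v0 x).le), hv,
      integral_add (integrable_const _) ((bp_int h0 h1).const_mul _), integral_const_mul L, ← eI, hL,
      div_mul_cancel₀ _ hI.ne']
    simp
  · refine width_cmp (one_pos.trans_le hc) (fun x ξ => ?_) p
    rw [hg, hg]
    refine rt_cmp (zero_le_one.trans hc) (fun j => (W0 a x j).le) (pt_rel (Q := fun u w => u ≤ c * w)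
      (le_mul_of_one_le_left (W0 a x 0).le hc) (sgm_cmp h0 h1 hP hη.le hc fun i hi => (h i hi).1)
      ?_ (le_mul_of_one_le_left (inv_pos.2 hk).le hc)) ξ
    rw [← mul_div_assoc, div_le_div_iff₀ (σ0 _ _) (σ0 _ _)]
    have := mul_le_mul_of_nonneg_left (sgm_cmp (s := x 2) h0 h1 hP hη.le hc
      fun i hi => (h i hi).2) (mul_pos (u0 x) (κ0 (x 1))).le
    linarith
  · have hA' : ∀ i < P, |a i| ≤ A := fun i hi => (abs_of_nonneg (ha i hi).1).trans_le (ha i hi).2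
    have lt : ∀ i : Fin p, (i : ℕ) < P := fun i => i.2.trans_le hp
    have S0 : 0 ≤ ∑ i ∈ Finset.range p, a i :=
      Finset.sum_nonneg fun i hi => (ha i ((Finset.mem_range.1 hi).trans_le hp)).1
    have S1 : ∑ i ∈ Finset.range p, a i ≤ P * A :=
      (Finset.sum_le_card_nsmul _ _ A fun i hi =>
        (ha i ((Finset.mem_range.1 hi).trans_le hp)).2).trans (by simp; gcongr)
    have vK : ∀ (i : Fin p) j, j < 2 → ∀ x ∈ Icc (cn P θ i j) (cn P θ i j + sd P θ),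
        V / 2 / I ≤ v x := fun i j hj x hx => by
      rw [hv]
      simp only [(cn_core (r := r) h0 (lt i) hj hx).1]
      linarith [show 0 ≤ η ^ 2 * r by positivity]
    refine le_trans (ENNReal.ofReal_le_ofReal ?_) (le_width (p := p) 1 (a := fun i => cn P θ i 0)
      (a' := fun i => cn P θ i 1) (sd_pos h1 hP) (fun i => cn_ge h0 _ _)
      (fun i => cn_le h0 (lt i) two_pos) (fun i => cn_ge h0 _ _)
      (fun i => cn_le h0 (lt i) one_lt_two)
      (fun i => fin3 (fun _ => rfl) (fun h => absurd rfl h) (fun _ => rfl) fun _ _ => rfl)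
      (fun i => ?_) (c := fun i => P * a i) (fun i => mul_nonneg P.cast_nonneg (ha _ (lt i)).1)
      (inv_pos.2 hk) (h1.trans (by norm_num)) (fun i x hx ξ j hj => ?_) (fun i x hx ξ j hj => ?_)
      (fun x ξ => ?_) (M := (∑ i ∈ Finset.range p, a i) * ((1 - 5 * θ) * (1 - θ))) ?_ ?_)
    · nlinarith [mul_nonneg S0 (sq_nonneg θ), mul_le_mul_of_nonneg_left S1 h0.le]
    · show (((0 : ℕ) : ℝ) + 2 * θ) / (2 : ℕ) + (1 - 5 * θ) / (2 : ℕ) < ((1 : ℕ) + 2 * θ) / (2 : ℕ)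
      push_cast
      linarith
    · rw [hg]
      refine le_rt (pt_gt ?_ le_rfl j hj)
      have := vK i 0 two_pos x hx
      rw [(cn_core h0 (lt i) two_pos hx).2, if_neg zero_ne_one, le_div_iff₀ (σ0 _ _),
        ← div_eq_mul_inv, le_div_iff₀' hr]
      refine le_trans ?_ (r5.trans (by gcongr; exact (v0 x).le))
      gcongr
      exact sgm_le h0 h1 hP hA' _
    · rw [hg]
      refine le_rt (pt_lt ?_ j hj)
      rw [(cn_core h0 (lt i) one_lt_two hx).2, if_pos rfl, le_div_iff₀' hr]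
      exact r4.trans (vK i 1 one_lt_two x hx)
    · rw [hg]
      refine le_rt (k := 1) (le_trans (Finset.sum_le_sum (g := fun i : Fin p =>
        P * |a i| * (ph θ (P * x 2) * th P (2 * P / θ) i (x 2))) fun i _ => ?_) ?_)
      · refine indicator_apply_le' (fun hx => ?_) fun _ =>
          mul_nonneg (by positivity) (tm_mem h0 h1 hP _ _).1
        have := core h0 (lt i) (hx.1 2) (hx.2 2)
        rw [this.1, this.2 i (lt i), if_pos rfl, abs_of_nonneg (ha _ (lt i)).1, mul_one, mul_one]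
      · rw [Fin.sum_univ_eq_sum_range fun i => P * |a i| * (ph θ (P * x 2) *
          th P (2 * P / θ) i (x 2))]
        exact (Finset.sum_le_sum_of_subset_of_nonneg (Finset.range_mono hp) fun i _ _ =>
          mul_nonneg (by positivity) (tm_mem h0 h1 hP _ _).1).trans (le_add_of_nonneg_left hη.le)
    · rw [sd, pt_upd, pt_prod, ← Fin.sum_univ_eq_sum_range, Finset.sum_mul]
      refine Finset.sum_congr rfl fun i _ => ?_
      field_simp
    · have : (∑ i ∈ Finset.range p, a i) * ((1 - 5 * θ) * (1 - θ)) ≤ P * A :=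
        (mul_le_of_le_one_right S0 (by nlinarith)).trans S1
      rw [inv_inv]
      refine le_trans ?_ hkθ
      have := mul_le_mul_of_nonneg_left this (show 0 ≤ k * ((4 + 2 * (n + 3 : ℕ)) *
        (∏ j, sd (n := n) P θ j)⁻¹) by positivity)
      linarith
  · refine (width_le (θ := θ) (σ := sgm P θ η a) (fun z ξ h2 h3 h4 hz => ?_) h0 hη.le
      (fun s => (σ0 a s).le) (sgm_le h0 h1 hP fun i hi =>
        (abs_of_nonneg (ha i hi).1).trans_le (ha i hi).2)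
      (sgm_smooth h0 h1 hP).continuous.measurable hP hp hm (fun i hi => (ha i hi).1)
      fun s hs => (sgm_top h0 h1 hs).trans_eq ?_).trans
      (ENNReal.ofReal_le_ofReal (add_le_add le_rfl hηδ))
    · rw [hg]
      refine (rt_le (fun j => (W0 a z j).le) ξ).trans ?_
      rw [pt_sum _ _ _ _ h2, mul_comm (sgm _ _ _ _ _)]
      have b1 := sgm_ge (η := η) (a := a) (s := z 2) h0 h1 hP
      have b2 := kp_mem h0 hr hr1 (z 1)
      suffices v z / kp θ r (z 1) * |ξ 0| ≤ η * |ξ 0| ∧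
          v z * (v z * k) ^ n * kp θ r (z 1) / sgm P θ η a (z 2) * |ξ 2| ≤ η * |ξ 2| by
        linarith [this.1, this.2]
      by_cases hb : θ ≤ Int.fract ((2 : ℕ) * z 1) ∧ θ ≤ Int.fract (P * z 2)
      · have := v1 z
        have := v0 z
        rw [kp, th_at h0 one_lt_two hz.1.le hz.2 hb.1]
        split_ifs with h5
        · refine ⟨by simp [h3 hb.1 h5], mul_le_mul_of_nonneg_right ?_ (abs_nonneg _)⟩
          rw [div_le_iff₀ (σ0 _ _), sub_self, mul_zero, zero_add, mul_one, mul_comm]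
          exact le_trans (by gcongr) (r3.trans (by nlinarith))
        · refine ⟨mul_le_mul_of_nonneg_right ?_ (abs_nonneg _), by simp [h4 hb.1 h5 hb.2]⟩
          rw [sub_zero, mul_one, mul_zero, add_zero, div_inv_eq_mul, mul_comm]
          exact le_trans (by gcongr) (r2.trans η2)
      · have : v z = η ^ 2 * r := by
          rcases not_and_or.1 hb with h | h <;>
            simp [hv, bp, -Nat.cast_ofNat, ph_zero h0 h1 (not_le.1 h)]
        rw [this]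
        refine ⟨mul_le_mul_of_nonneg_right ?_ (abs_nonneg _),
          mul_le_mul_of_nonneg_right ?_ (abs_nonneg _)⟩
        · rw [div_le_iff₀ (κ0 _)]
          exact mul_le_mul η2 b2.1 hr.le hη.le
        · have c1 := mul_le_mul_of_nonneg_left b2.2 hr.le
          have c2 : (η ^ 2 * r * k) ^ n ≤ 1 :=
            pow_le_one₀ (by positivity) (mul_le_one₀ (e1.trans hr1) hk.le hk1)
          rw [mul_inv_cancel₀ hr.ne'] at c1
          have := mul_le_of_le_one_right (sq_nonneg η) (mul_le_one₀ c1 (by positivity) c2)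
          rw [div_le_iff₀ (σ0 _ _)]
          nlinarith
    · have hP' : (0 : ℝ) < P := by positivity
      rw [abs_of_nonneg (ha _ ((Nat.floor_lt (mul_pos hP' hs.1).le).2
        (mul_lt_of_lt_one_right hP' hs.2))).1]

end Pool.Agent.Lib.MP_c7858e_gt
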