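import Pool.Agent.Lib.MP_c7858e_gt.Top

/-! An odd family on the sphere gives a sweepout with domain the projective space. -/

namespace Pool.Agent.Lib.MP_c7858e_gt

open MeasureTheory Set Filter Topology Pool.Agent.Sing
open scoped ENNReal symmDiff

variable {d : ℕ}

/-- the sphere of the sum norm -/
abbrev Sph (p : ℕ) : Type := {x : Fin (p + 1) → ℝ // ∑ i, |x i| = 1}

/-- antipodal points -/
def anti (p : ℕ) : Setoid (Sph p) where
  r x y := x.1 = y.1 ∨ x.1 = -y.1
  iseqv := ⟨fun _ => Or.inl rfl, fun h => by rcases h with h | h <;> simp [h],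
    fun h h' => by rcases h with h | h <;> rcases h' with h' | h' <;> simp [h, h']⟩

/-- a sign -/
noncomputable def sn (b : ZMod 2) : ℝ := if b = 0 then 1 else -1

lemma abs_sn (b : ZMod 2) : |sn b| = 1 := by unfold sn; split_ifs <;> simp

lemma z2 (b : ZMod 2) : b = 0 ∨ b = 1 := by revert b; decide

lemma sn_add (a b : ZMod 2) : sn (a + b) = sn a * sn b := by
  have h : (1 + 1 : ZMod 2) = 0 := rfl
  rcases z2 a with rfl | rfl <;> rcases z2 b with rfl | rfl <;> simp [sn, h]

/-- a facet of the cross-polytope -/
noncomputable def vec {p : ℕ} (s : Fin (p + 1) → ZMod 2) : C(Std p, Sph p) :=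
  ⟨fun t => ⟨fun i => sn (s i) * t.1 i, by
      simp only [abs_mul, abs_sn, one_mul]
      exact (Finset.sum_congr rfl fun i _ => abs_of_nonneg (t.2.1 i)).trans t.2.2⟩,
    Continuous.subtype_mk (continuous_pi fun i => by
      have : Continuous fun t : Std p => t.1 i := (continuous_apply i).comp continuous_subtype_val
      exact continuous_const.mul this) _⟩

/-- its image in projective space -/
noncomputable def sx {p : ℕ} (s : Fin (p + 1) → ZMod 2) : C(Std p, Quotient (anti p)) :=
  ContinuousMap.comp ⟨Quotient.mk _, continuous_quotient_mk'⟩ (vec s)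

lemma fund_cyc (p : ℕ) : (∑ s ∈ Finset.univ.filter fun s : Fin (p + 1) → ZMod 2 => s 0 = 0,
    Finsupp.single (sx s) (1 : ZMod 2)) ∈ cyc (ZMod 2) (Quotient (anti p)) p := by
  rcases p with _ | p
  · trivial
  have n1 : (-1 : ZMod 2) = 1 := rfl
  have h2 : (1 + 1 : ZMod 2) = 0 := rfl
  rw [mem_cyc_succ, map_sum]
  simp only [bd_single, n1, one_pow, one_smul]
  rw [Finset.sum_comm]
  refine Finset.sum_eq_zero fun i _ => Finset.sum_involution
    (fun s _ j => s j + (if j = i then 1 else 0) + if i = 0 then 1 else 0) (fun s _ => ?_)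
    (fun s _ _ h => ?_) (fun s hs => ?_) fun s _ => ?_
  · have : (sx fun j => s j + (if j = i then 1 else 0) + if i = 0 then 1 else 0).comp
        (vmap i.succAbove) = (sx s).comp (vmap i.succAbove) := by
      ext t
      have h0 : (vmap i.succAbove t).1 i = 0 := by
        change FunOnFinite.linearMap ℝ ℝ i.succAbove t.1 i = 0
        rw [FunOnFinite.linearMap_apply_apply]
        simp
      have h1 : ∀ j, sn (s j + (if j = i then 1 else 0) + if i = 0 then 1 else 0) *
          (vmap i.succAbove t).1 j = sn (if i = 0 then 1 else 0) *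
            (sn (s j) * (vmap i.succAbove t).1 j) := fun j => by
        by_cases hj : j = i
        · rw [hj, h0]; simp
        · rw [if_neg hj, add_zero, sn_add]; ring
      refine Quotient.sound ?_
      by_cases hi : i = 0
      · refine Or.inr (funext fun j => (h1 j).trans ?_)
        rw [if_pos hi, sn, if_neg one_ne_zero, neg_one_mul]
        rfl
      · refine Or.inl (funext fun j => (h1 j).trans ?_)
        simp [hi, sn, vec]
    rw [this, ← Finsupp.single_add, h2, Finsupp.single_zero]
  · by_cases hi : i = 0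
    · have := congrFun h (Fin.succ 0)
      simp [hi] at this
    · have := congrFun h i
      simp [hi] at this
  · rw [Finset.mem_filter] at hs ⊢
    refine ⟨Finset.mem_univ _, ?_⟩
    by_cases hi : i = 0
    · simp [hi, hs.2, h2]
    · simp [hi, hs.2, Ne.symm hi]
  · funext j
    have : ∀ a b c : ZMod 2, a + b + c + b + c = a := by decide
    exact this _ _ _

lemma sum_signs {p : ℕ} (η : Fin (p + 1) → ZMod 2) :
    ∑ s ∈ Finset.univ.filter fun s : Fin (p + 1) → ZMod 2 => s 0 = 0,
      ∏ i : Fin p, (η i.castSucc + s i.castSucc + (η i.succ + s i.succ)) = 1 := by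
  have k : ∀ a b c e : ZMod 2, a + (a + c + e) + (b + (b + c + (e + 1))) = 1 := by decide
  rw [Finset.sum_eq_single (fun j => η j + η 0 + ((j : ℕ) : ZMod 2))]
  · refine Finset.prod_eq_one fun i _ => ?_
    simp only [Fin.val_succ, Fin.val_castSucc, Nat.cast_succ]
    exact k _ _ _ _
  · intro s hs hne
    by_contra h
    refine hne (funext fun j => ?_)
    induction j using Fin.induction with
    | zero =>
      have : ∀ a : ZMod 2, 0 = a + a := by decide
      simpa [(Finset.mem_filter.1 hs).2] using this _
    | succ j ih =>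
      have h1 := (z2 _).resolve_left (Finset.prod_ne_zero_iff.1 h j (Finset.mem_univ j))
      rw [ih] at h1
      simp only [Fin.val_succ, Fin.val_castSucc, Nat.cast_succ] at h1 ⊢
      have : ∀ a b c e x : ZMod 2, a + (a + c + e) + (b + x) = 1 → x = b + c + (e + 1) := by decide
      exact this _ _ _ _ _ h1
  · intro h
    refine absurd (Finset.mem_filter.2 ⟨Finset.mem_univ _, ?_⟩) h
    have : ∀ a : ZMod 2, a + a = 0 := by decide
    simpa using this _

theorem sweep_of_odd (p : ℕ) (H : (Fin (p + 1) → ℝ) → Set (Fin d → ℝ))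
    (hm : ∀ x, MeasurableSet (H x)) (hc : Cont fun x : Sph p => H x.1)
    (hodd : ∀ x : Sph p, H (-x.1) = (H x.1)ᶜ) :
    ∃ (X : Type) (_ : TopologicalSpace X) (A : X → Set (Fin d → ℝ)), Sweep p A ∧
      ∀ y, ∃ x : Sph p, A y = H x.1 := by
  let A : Quotient (anti p) → Set (Fin d → ℝ) := fun y => H y.out.1
  have hA : ∀ x : Sph p, H x.1 = A (Quotient.mk _ x) ∨ H x.1 = (A (Quotient.mk _ x))ᶜ := fun x => by
    rcases Quotient.mk_out (s := anti p) x with h | h
    · exact Or.inl (congrArg H h.symm)
    · exact Or.inr (by simp only [A]; rw [h, hodd, compl_compl])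
  refine ⟨Quotient (anti p), inferInstance, A, ⟨fun _ => hm _, contZ_iff.2 ?_, fun h => ?_⟩,
    fun y => ⟨_, rfl⟩⟩
  · intro y0 ε hε
    have ho : IsOpen {y | D (A y) (A y0) < ε ∨ D (A y) (A y0)ᶜ < ε} := by
      rw [← isQuotientMap_quotient_mk'.isOpen_preimage, isOpen_iff_mem_nhds]
      intro x hx
      have key : ∀ x : Sph p, (D (A (Quotient.mk _ x)) (A y0) < ε ∨
          D (A (Quotient.mk _ x)) (A y0)ᶜ < ε) ↔ (D (H x.1) (A y0) < ε ∨ D (H x.1) (A y0)ᶜ < ε) :=
        fun x => by
          rcases hA x with h | h <;> rw [h]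
          rw [D_cc, D_cl, or_comm]
      rcases (key x).1 hx with h | h
      · filter_upwards [hc x _ (sub_pos.2 h)] with z hz
        exact (key z).2 (Or.inl (by linarith [D_tri (H z.1) (H x.1) (A y0)]))
      · filter_upwards [hc x _ (sub_pos.2 h)] with z hz
        exact (key z).2 (Or.inr (by linarith [D_tri (H z.1) (H x.1) (A y0)ᶜ]))
    exact ho.mem_nhds (Or.inl (by rwa [D_self]))
  · have h0 := cobdry_apply_cyc h (fund_cyc p)
    let η : Fin (p + 1) → ZMod 2 := fun j =>
      sg (H (vec 0 (stdSimplex.vertex j)).1) (A (sx 0 (stdSimplex.vertex j)))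
    have e : ∀ (s : Fin (p + 1) → ZMod 2) j, sg (H (vec s (stdSimplex.vertex j)).1)
        (A (sx s (stdSimplex.vertex j))) = η j + s j := fun s j => by
      have h1 : (vec s (stdSimplex.vertex j)).1 = sn (s j) • (vec 0 (stdSimplex.vertex j)).1 := by
        funext i
        by_cases hi : i = j <;> simp [vec, hi, sn]
      rcases z2 (s j) with h2 | h2
      · have : vec s (stdSimplex.vertex j) = vec 0 (stdSimplex.vertex j) :=
          Subtype.ext (by rw [h1, h2]; simp [sn])
        simp only [η, sx, ContinuousMap.comp_apply, this, h2, add_zero]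
      · have h3 : (vec s (stdSimplex.vertex j)).1 = -(vec 0 (stdSimplex.vertex j)).1 := by
          rw [h1, h2]; simp [sn]
        have h4 : sx s (stdSimplex.vertex j) = sx 0 (stdSimplex.vertex j) :=
          Quotient.sound (Or.inr h3)
        rw [h4, h3, hodd, h2]
        rcases hA (vec 0 (stdSimplex.vertex j)) with h5 | h5
        · have h6 : H (vec 0 (stdSimplex.vertex j)).1 = A (sx 0 (stdSimplex.vertex j)) := h5
          simp only [η, h6, sg, if_neg (compl_ne _), if_true, zero_add]
        · have h6 : H (vec 0 (stdSimplex.vertex j)).1 = (A (sx 0 (stdSimplex.vertex j)))ᶜ := h5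
          simp only [η, h6, sg, if_neg (compl_ne _), compl_compl, if_true]
          rfl
    rw [map_sum, Finset.sum_congr rfl (g := fun s => ∏ i : Fin p,
      (η i.castSucc + s i.castSucc + (η i.succ + s i.succ))), sum_signs] at h0
    · exact one_ne_zero h0
    · intro s _
      simp only [lamPow, Finsupp.linearCombination_single, one_smul]
      refine Finset.prod_congr rfl fun i _ => ?_
      rw [lam_eq A _ (hc.comp ((vec s).comp (vmap ![i.castSucc, i.succ])).continuous)
        fun t => hA _]
      simp only [ContinuousMap.comp_apply, vmap_vertex, e]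
      rfl

end Pool.Agent.Lib.MP_c7858e_gt
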