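import Pool.Agent.Lib.MP_c7858e_gt.Stair
import Pool.Agent.Lib.MP_c7858e_gt.RP

/-! The family of sign patterns on the unit interval with `p` cuts, and its smooth approximation. -/

namespace Pool.Agent.Lib.MP_c7858e_gt

open MeasureTheory Set Filter Topology
open scoped ENNReal ContDiff symmDiff

variable {p : ℕ}

/-- extension by zero -/
def xe (x : Fin (p + 1) → ℝ) (j : ℕ) : ℝ := if h : j < p + 1 then x ⟨j, h⟩ else 0

/-- the cut points -/
def cc (x : Fin (p + 1) → ℝ) (k : ℕ) : ℝ := ∑ j ∈ Finset.range k, |xe x j|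

/-- the signs -/
noncomputable def yy (x : Fin (p + 1) → ℝ) (j : ℕ) : ℝ := if 0 < xe x j then 1 else 0

/-- the pattern -/
noncomputable def val (x : Fin (p + 1) → ℝ) (τ : ℝ) : ℝ :=
  yy x 0 + ∑ j ∈ Finset.range p, (yy x (j + 1) - yy x j) * if cc x (j + 1) ≤ τ then 1 else 0

variable {x : Fin (p + 1) → ℝ} {τ : ℝ}

lemma cc_mono (x : Fin (p + 1) → ℝ) : Monotone (cc x) :=
  monotone_nat_of_le_succ fun n => by
    rw [cc, cc, Finset.sum_range_succ]
    exact le_add_of_nonneg_right (abs_nonneg _)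

lemma cc_top (h : ∑ i, |x i| = 1) : cc x (p + 1) = 1 := by
  rw [cc, ← Fin.sum_univ_eq_sum_range (fun j => |xe x j|), ← h]
  exact Finset.sum_congr rfl fun i _ => by rw [xe, dif_pos i.2]

lemma val_eq {j : ℕ} (hj : j ≤ p) (h1 : cc x j ≤ τ) (h2 : j = p ∨ τ < cc x (j + 1)) :
    val x τ = yy x j := by
  rw [val, ← Finset.sum_subset (Finset.range_mono hj), Finset.sum_congr rfl
    (g := fun i => yy x (i + 1) - yy x i), Finset.sum_range_sub (yy x), add_sub_cancel]
  · intro i hi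
    rw [if_pos ((cc_mono x (Finset.mem_range.1 hi)).trans h1), mul_one]
  · intro i hi hi'
    rw [Finset.mem_range] at hi hi'
    rw [if_neg ((h2.resolve_left (by omega)).trans_le (cc_mono x (by omega))).not_ge, mul_zero]

lemma exists_j (x : Fin (p + 1) → ℝ) (h : 0 ≤ τ) :
    ∃ j ≤ p, cc x j ≤ τ ∧ (j = p ∨ τ < cc x (j + 1)) := by
  classical
  refine ⟨Nat.findGreatest (fun j => cc x j ≤ τ) p, Nat.findGreatest_le p,
    Nat.findGreatest_spec (P := fun j => cc x j ≤ τ) (Nat.zero_le p) (by simpa [cc] using h), ?_⟩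
  refine (Nat.findGreatest_le (P := fun j => cc x j ≤ τ) p).eq_or_lt.imp_right fun h1 => ?_
  exact not_le.1 (Nat.findGreatest_is_greatest (P := fun j => cc x j ≤ τ) (Nat.lt_succ_self _) h1)

lemma exists_j' (hx : ∑ i, |x i| = 1) (h : 0 ≤ τ) (h' : τ < 1) :
    ∃ j ≤ p, cc x j ≤ τ ∧ τ < cc x (j + 1) ∧ xe x j ≠ 0 := by
  obtain ⟨j, h1, h2, h3⟩ := exists_j x h
  have h4 : τ < cc x (j + 1) := h3.elim (fun e => by rw [e, cc_top hx]; exact h') id
  refine ⟨j, h1, h2, h4, fun e => ?_⟩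
  rw [cc, Finset.sum_range_succ, e, abs_zero, add_zero] at h4
  exact h4.not_ge h2

lemma val01 (x : Fin (p + 1) → ℝ) (h : 0 ≤ τ) : val x τ = 0 ∨ val x τ = 1 := by
  obtain ⟨j, h1, h2, h3⟩ := exists_j x h
  rw [val_eq h1 h2 h3, yy]
  split_ifs <;> simp

lemma val_meas (x : Fin (p + 1) → ℝ) : Measurable (val x) :=
  measurable_const.add (Finset.measurable_sum _ fun _ _ => measurable_const.mul
    (Measurable.ite measurableSet_Ici measurable_const measurable_const))

lemma val_neg (hx : ∑ i, |x i| = 1) (h : 0 ≤ τ) (h' : τ < 1) :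
    val (-x) τ = 1 ↔ ¬val x τ = 1 := by
  obtain ⟨j, h1, h2, h3, h4⟩ := exists_j' hx h h'
  have e : ∀ i, xe (-x) i = -xe x i := fun i => by unfold xe; split_ifs <;> simp
  have e' : ∀ i, cc (-x) i = cc x i := fun i => by simp [cc, e]
  rw [val_eq h1 h2 (Or.inr h3), val_eq h1 (e' _ ▸ h2) (Or.inr (e' _ ▸ h3)), yy, yy, e]
  rcases lt_or_gt_of_ne h4 with h5 | h5 <;> simp [h5, h5.le]

lemma val_cont (hx : ∑ i, |x i| = 1) (h : 0 ≤ τ) (h' : τ < 1) (hn : ∀ j, τ ≠ cc x j) :
    ∀ᶠ x' in 𝓝 x, val x' τ = val x τ := by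
  obtain ⟨j, h1, h2, h3, h4⟩ := exists_j' hx h h'
  have c1 : ∀ i, Continuous fun x' : Fin (p + 1) → ℝ => xe x' i := fun i => by
    unfold xe; split_ifs <;> fun_prop
  have c2 : ∀ i, Continuous fun x' : Fin (p + 1) → ℝ => cc x' i := fun i =>
    continuous_finsetSum _ fun i _ => (c1 i).abs
  have c3 : ∀ᶠ x' in 𝓝 x, yy x' j = yy x j := by
    rcases lt_or_gt_of_ne h4 with h5 | h5
    · filter_upwards [(c1 j).continuousAt.eventually (gt_mem_nhds h5)] with x' h6
      rw [yy, yy, if_neg h5.not_gt, if_neg h6.not_gt]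
    · filter_upwards [(c1 j).continuousAt.eventually (lt_mem_nhds h5)] with x' h6
      rw [yy, yy, if_pos h5, if_pos h6]
  filter_upwards [(c2 j).continuousAt.eventually (gt_mem_nhds (h2.lt_of_ne (hn j).symm)),
    (c2 (j + 1)).continuousAt.eventually (lt_mem_nhds h3), c3] with x' a b c
  rw [val_eq h1 h2 (Or.inr h3), val_eq h1 a.le (Or.inr b), c]

/-- the smooth pattern on the window `i` -/
noncomputable def hh (x : Fin (p + 1) → ℝ) (P i : ℕ) (k t : ℝ) : ℝ :=
  yy x 0 + ∑ j ∈ Finset.range p, (yy x (j + 1) - yy x j) *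
    (G k (t - max 0 (min 1 (P * cc x (j + 1) - i))) - G k t + 1)

variable {P i : ℕ} {k t : ℝ}

lemma hh_smooth (hk : 2 ≤ k) : ContDiff ℝ ∞ (hh x P i k) :=
  contDiff_const.add (ContDiff.sum fun _ _ => contDiff_const.mul
    ((((G_smooth hk).comp (by fun_prop)).sub (G_smooth hk)).add contDiff_const))

lemma hh_per (t : ℝ) : hh x P i k (t + 1) = hh x P i k t := by
  simp only [hh, add_sub_right_comm t, G_add_one, add_sub_add_right_eq_sub]

lemma yy_le (x : Fin (p + 1) → ℝ) (j : ℕ) : |yy x (j + 1) - yy x j| ≤ 1 := by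
  unfold yy; split_ifs <;> simp

lemma hh_le (hk : 0 ≤ k) : |hh x P i k t| ≤ p + 1 := by
  refine (abs_add_le _ _).trans ?_
  rw [add_comm]
  refine add_le_add ((Finset.abs_sum_le_sum_abs _ _).trans ?_) (by unfold yy; split_ifs <;> simp)
  refine (Finset.sum_le_card_nsmul _ _ 1 fun j _ => ?_).trans (by simp)
  rw [abs_mul]
  refine mul_le_one₀ (yy_le x j) (abs_nonneg _) ?_
  set c := max 0 (min 1 (P * cc x (j + 1) - i))
  have a := G_mono hk (show t - c ≤ t from sub_le_self _ (le_max_left _ _))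
  have b := G_mono hk (show t ≤ t - c + 1 by
    linarith [show c ≤ 1 from max_le zero_le_one (min_le_left _ _)])
  rw [G_add_one] at b
  exact abs_le.2 ⟨by linarith, by linarith⟩

lemma hh_lint (hk : 2 ≤ k) : ∫⁻ t, ‖deriv (hh x P i k) t‖ₑ ∂nu ≤ 2 * p := by
  have e : ∀ t, deriv (hh x P i k) t = ∑ j ∈ Finset.range p, (yy x (j + 1) - yy x j) *
      (deriv (G k) (t - max 0 (min 1 (P * cc x (j + 1) - i))) - deriv (G k) (t - 0)) := fun t =>
    ((HasDerivAt.fun_sum fun j _ => ((((G_diff hk _ t).sub (G_diff hk 0 t)).add_const 1).const_mul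
      _)).const_add (yy x 0)).deriv.symm ▸ by simp only [sub_zero]; rfl
  have m : ∀ c, Measurable fun t => ‖deriv (G k) (t - c)‖ₑ := fun c =>
    ((G_cont hk).comp (by fun_prop)).measurable.enorm
  simp only [e]
  refine (lintegral_mono (g := fun t => ∑ j ∈ Finset.range p,
    (‖deriv (G k) (t - max 0 (min 1 (P * cc x (j + 1) - i)))‖ₑ + ‖deriv (G k) (t - 0)‖ₑ))
    fun t => (enorm_sum_le _ _).trans (Finset.sum_le_sum fun j _ => ?_)).trans_eq ?_
  · rw [enorm_mul]
    refine (mul_le_of_le_one_left' ?_).trans enorm_sub_le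
    rw [← ofReal_norm, ENNReal.ofReal_le_one]
    exact yy_le x j
  · rw [lintegral_finsetSum _ fun j _ => (m _).fun_add (m _)]
    simp only [lintegral_add_left (m _), G_lint hk, one_add_one_eq_two]
    simp [mul_comm]

lemma ev_fract (c : ℝ) (h : Int.fract t ≠ 0) :
    ∀ᶠ k : ℕ in atTop, c < ((k : ℝ) + 2) * Int.fract t := by
  have := (Int.fract_nonneg t).lt_of_ne' h
  exact ((tendsto_atTop_add_const_right _ 2 tendsto_natCast_atTop_atTop).atTop_mul_const
    this).eventually_gt_atTop c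

lemma hh_lim (hP : 0 < P) (ht : t ∈ Ioo (0 : ℝ) 1) (hn : ∀ j, t ≠ P * cc x j - i) :
    ∀ᶠ k : ℕ in atTop, hh x P i (k + 2) t = val x ((i + t) / P) := by
  have hP' : (0 : ℝ) < P := by positivity
  have key : ∀ c ∈ Icc (0 : ℝ) 1, t ≠ c → ∀ᶠ k : ℕ in atTop,
      G (k + 2) (t - c) = if c ≤ t then 1 else 0 := fun c hc h => by
    have e : ⌊t - c⌋ = if c ≤ t then 0 else -1 := by
      split_ifs <;> rw [Int.floor_eq_iff] <;> push_cast <;> constructor <;>
        linarith [hc.1, hc.2, ht.1, ht.2]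
    have : Int.fract (t - c) ≠ 0 := by
      rw [Int.fract, e]
      split_ifs <;> push_cast
      · rw [sub_zero]; exact sub_ne_zero.2 h
      · exact ne_of_gt (by linarith [hc.2, ht.1])
    filter_upwards [ev_fract 1 this] with k hk
    rw [G_eq hk.le, e]
    split_ifs <;> simp
  have h1 := (Finset.eventually_all (Finset.range p)).2 fun j _ =>
    key (max 0 (min 1 (P * cc x (j + 1) - i))) ⟨le_max_left _ _,
      max_le zero_le_one (min_le_left _ _)⟩ (by
        have := hn (j + 1)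
        simp only [max_def, min_def]
        split_ifs
        exacts [ht.2.ne, ht.1.ne', this, ht.1.ne'])
  filter_upwards [h1, key 0 ⟨le_rfl, zero_le_one⟩ ht.1.ne'] with k a b
  rw [sub_zero, if_pos ht.1.le] at b
  refine congrArg _ (Finset.sum_congr rfl fun j hj => ?_)
  rw [a j hj, b, sub_add_cancel]
  refine congrArg _ (if_congr ?_ rfl rfl)
  rw [le_div_iff₀' hP', max_le_iff, min_le_iff]
  exact ⟨fun h => by linarith [h.2.resolve_left ht.2.not_ge],
    fun h => ⟨ht.1.le, Or.inr (by linarith)⟩⟩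

lemma ae_good (d : ℕ) (x : Fin (p + 1) → ℝ) : ∀ᵐ z ∂cube d, ∀ i, z i ∈ Ioo (0 : ℝ) 1 ∧
    (∀ m j l : ℕ, z i ≠ m * cc x j - l) ∧ ∀ m : ℕ, 0 < m → Int.fract ((m : ℝ) * z i) ≠ 0 := by
  refine ae_all_iff.2 fun i => (mp_eval i).quasiMeasurePreserving.ae
    (p := fun t => t ∈ Ioo (0 : ℝ) 1 ∧ (∀ m j l : ℕ, t ≠ m * cc x j - l) ∧
      ∀ m : ℕ, 0 < m → Int.fract ((m : ℝ) * t) ≠ 0) ?_
  rw [nu, ← restrict_Ioo_eq_restrict_Icc]
  filter_upwards [ae_restrict_mem measurableSet_Ioo, ae_restrict_of_ae ((countable_range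
      fun q : ℕ × ℕ × ℕ => q.1 * cc x q.2.1 - q.2.2).ae_notMem volume), ae_restrict_of_ae
      ((countable_range fun q : ℤ × ℕ => (q.1 : ℝ) / q.2).ae_notMem volume)] with t h1 h2 h3
  refine ⟨h1, fun m j l e => h2 ⟨(m, j, l), e.symm⟩, fun m hm e => h3 ⟨(⌊m * t⌋, m), ?_⟩⟩
  rw [Int.fract, sub_eq_zero] at e
  have : (m : ℝ) ≠ 0 := by positivity
  simp only
  rw [← e]
  field_simp

/-- the position in the unit interval read at a point of the torus -/
noncomputable def tau {n : ℕ} (P : ℕ) (z : Fin (n + 3) → ℝ) : ℝ :=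
  if Int.fract (z 1) < 1 / 2 then (⌊P * Int.fract (z 2)⌋₊ + Int.fract (z 0)) / P
  else Int.fract (z 2)

lemma tau_mem {n : ℕ} (hP : 0 < P) (z : Fin (n + 3) → ℝ) : 0 ≤ tau P z ∧ tau P z < 1 := by
  have hP' : (0 : ℝ) < P := by positivity
  unfold tau
  split_ifs
  · refine ⟨by positivity, (div_lt_one hP').2 ?_⟩
    have : ⌊P * Int.fract (z 2)⌋₊ < P := (Nat.floor_lt (by positivity)).2
      (mul_lt_of_lt_one_right hP' (Int.fract_lt_one _))
    have : (⌊P * Int.fract (z 2)⌋₊ : ℝ) + 1 ≤ P := by exact_mod_cast this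
    linarith [Int.fract_lt_one (z 0)]
  · exact ⟨Int.fract_nonneg _, Int.fract_lt_one _⟩

lemma tau_meas {n : ℕ} (P : ℕ) : Measurable (tau (n := n) P) := by
  refine Measurable.ite (measurableSet_lt (by fun_prop) measurable_const)
    (Measurable.div_const (Measurable.add ?_ (by fun_prop)) _) (by fun_prop)
  exact measurable_from_nat.comp (Measurable.nat_floor (by fun_prop))

/-- the family of sets -/
def HH {n : ℕ} (P : ℕ) (x : Fin (p + 1) → ℝ) : Set (Fin (n + 3) → ℝ) := {z | val x (tau P z) = 1}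

lemma HH_meas {n : ℕ} (P : ℕ) (x : Fin (p + 1) → ℝ) : MeasurableSet (HH (n := n) P x) :=
  ((val_meas x).comp (tau_meas P)) (measurableSet_singleton 1)

theorem HH_sweep (n p : ℕ) (hP : 0 < P) : ∃ (X : Type) (_ : TopologicalSpace X)
    (A : X → Set (Fin (n + 3) → ℝ)), Sweep p A ∧ ∀ y, ∃ x : Fin (p + 1) → ℝ, A y = HH P x := by
  have hP' : (0 : ℝ) < P := by positivity
  suffices hc : Cont fun x : Sph p => HH (n := n) P x.1 by
    obtain ⟨X, _, A, h1, h2⟩ := sweep_of_odd p (HH (n := n) P) (HH_meas P) hc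
      fun x => Set.ext fun z => val_neg x.2 (tau_mem hP z).1 (tau_mem hP z).2
    exact ⟨X, inferInstance, A, h1, fun y => (h2 y).elim fun x hx => ⟨x.1, hx⟩⟩
  refine cont_iff.1 fun x => ?_
  rw [← measure_empty (μ := cube (n + 3))]
  refine tendsto_measure_of_ae_tendsto_indicator_of_isFiniteMeasure (μ := cube (n + 3)) (𝓝 x)
    (A := ∅) (As := fun s : Sph p => HH P s.1 ∆ HH P x.1) MeasurableSet.empty
    (fun s => (HH_meas P _).symmDiff (HH_meas P _)) ?_
  filter_upwards [ae_good (n + 3) x.1] with z hz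
  have hf : ∀ i, Int.fract (z i) = z i := fun i =>
    Int.fract_eq_self.2 ⟨(hz i).1.1.le, (hz i).1.2⟩
  have := val_cont x.2 (tau_mem hP z).1 (tau_mem hP z).2 fun j e => by
    rw [tau, hf, hf, hf] at e
    split_ifs at e
    · refine (hz 0).2.1 P j ⌊P * z 2⌋₊ ?_
      rw [← e]
      field_simp
      ring
    · exact (hz 2).2.1 1 j 0 (by simpa using e)
  filter_upwards [continuous_subtype_val.continuousAt.eventually this] with s hs
  simp [HH, mem_symmDiff, hs]

end Pool.Agent.Lib.MP_c7858e_gt
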