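import Pool.Agent.Lib.MP_c7858e_gt.HR

/-! The area of the two horizontal interfaces. -/

namespace Pool.Agent.Lib.MP_c7858e_gt

open MeasureTheory Set Filter Topology
open scoped ENNReal

lemma ne02 (n : ℕ) : (2 : Fin (n + 3)) ≠ 0 := fun h => by
  simpa only [Fin.val_two, Fin.val_zero, OfNat.ofNat_ne_zero] using congrArg Fin.val h
lemma ne12 (n : ℕ) : (2 : Fin (n + 3)) ≠ 1 := fun h => by
  simpa only [Fin.val_two, Fin.val_one, OfNat.ofNat_ne_one] using congrArg Fin.val h
lemma ne01 (n : ℕ) : (1 : Fin (n + 3)) ≠ 0 := by simp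

lemma cube_two {d : ℕ} {i j : Fin d} (h : j ≠ i) {A B : Set ℝ} (hA : MeasurableSet A)
    (hB : MeasurableSet B) : cube d {z | z i ∈ A ∧ z j ∈ B} = nu A * nu B := by
  have := mul_indep i (measurable_one.indicator hA) (G := fun z => B.indicator 1 (z j))
    ((measurable_one.indicator hB).comp (measurable_pi_apply j))
    fun r τ => by rw [Function.update_of_ne h]
  rw [(mp_eval j).lintegral_comp (measurable_one.indicator hB), lintegral_indicator_one hA,
    lintegral_indicator_one hB] at this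
  rw [← this, ← lintegral_indicator_one (s := {z : Fin d → ℝ | z i ∈ A ∧ z j ∈ B})
    ((measurable_pi_apply i hA).inter (measurable_pi_apply j hB))]
  refine lintegral_congr fun z => ?_
  by_cases h1 : z i ∈ A <;> by_cases h2 : z j ∈ B <;> simp [indicator, h1, h2]

lemma window {n P i : ℕ} (hi : i < P) {E : Set ℝ} (hE : MeasurableSet E) :
    cube (n + 3) {z | z 2 ∈ Ico ((i : ℝ) / P) ((i + 1) / P) ∧ ¬(z 2 ∈ E ↔ (i + z 0) / P ∈ E)} ≤
      ENNReal.ofReal (1 / (2 * P)) := by
  have hP : (0 : ℝ) < P := by exact_mod_cast (by omega : 0 < P)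
  set W := Ico ((i : ℝ) / P) ((i + 1) / P) with hW
  set T : Set ℝ := {y | (i + y) / P ∈ E} with hT
  have hTm : MeasurableSet T := (by fun_prop : Measurable fun y : ℝ => (i + y) / P) hE
  have hW1 : W ⊆ Icc 0 1 := fun s hs => ⟨le_trans (by positivity) hs.1,
    hs.2.le.trans ((div_le_one hP).2 (by exact_mod_cast hi))⟩
  have e1 : nu.real W = 1 / P := by
    rw [nu, measureReal_restrict_apply measurableSet_Ico, inter_eq_left.2 hW1,
      Real.volume_real_Ico_of_le (by gcongr; linarith)]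
    ring
  have e2 : nu.real T = P * nu.real (W ∩ E) := by
    have : T ∩ Ico 0 1 = (fun y : ℝ => i + y) ⁻¹' ((fun y => y * (P : ℝ)⁻¹) ⁻¹' (W ∩ E)) := by
      ext y
      simp only [hT, hW, mem_inter_iff, mem_preimage, mem_Ico, ← div_eq_mul_inv, mem_ofPred_eq,
        div_le_div_iff_of_pos_right hP, div_lt_div_iff_of_pos_right hP, le_add_iff_nonneg_right,
        add_lt_add_iff_left]
      exact and_comm
    rw [nu, measureReal_restrict_apply (measurableSet_Ico.inter hE),
      inter_eq_left.2 (inter_subset_left.trans hW1), ← restrict_Ico_eq_restrict_Icc,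
      measureReal_restrict_apply hTm, this, Measure.real, measure_preimage_add,
      Real.volume_preimage_mul_right (inv_pos.2 hP).ne', inv_inv, abs_of_pos hP, ENNReal.toReal_mul,
      ENNReal.toReal_ofReal hP.le, Measure.real]
  have e3 := measureReal_inter_add_sdiff (μ := nu) (s := W) hE
  refine (measure_mono (t := {z | z 0 ∈ Tᶜ ∧ z 2 ∈ W ∩ E} ∪ {z | z 0 ∈ T ∧ z 2 ∈ W \ E})
    fun z hz => ?_).trans ((measure_union_le _ _).trans ?_)
  · have h1 := hz.1
    have h2 := hz.2
    simp only [hT, mem_union, mem_ofPred_eq, mem_compl_iff, mem_inter_iff, Set.mem_sdiff]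
    tauto
  · rw [cube_two (ne02 n) hTm.compl (measurableSet_Ico.inter hE),
      cube_two (ne02 n) hTm (measurableSet_Ico.diff hE), ← ofReal_measureReal (s := Tᶜ),
      ← ofReal_measureReal (s := T), ← ofReal_measureReal (s := W ∩ E),
      ← ofReal_measureReal (s := W \ E), ← ENNReal.ofReal_mul measureReal_nonneg,
      ← ENNReal.ofReal_mul measureReal_nonneg, ← ENNReal.ofReal_add (by positivity) (by positivity),
      probReal_compl_eq_one_sub hTm, show nu.real (W \ E) = 1 / P - nu.real (W ∩ E) by linarith,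
      show nu.real (W ∩ E) = nu.real T / P by rw [e2]; field_simp]
    refine ENNReal.ofReal_le_ofReal ?_
    rw [← sub_div, ← mul_div_assoc, ← mul_div_assoc, ← add_div, div_le_div_iff₀ hP (by positivity)]
    nlinarith [sq_nonneg (2 * nu.real T - 1)]

lemma top_sum {a : ℕ → ℝ} {P p : ℕ} (ha : ∀ i j, i ≤ j → j < P → a j ≤ a i)
    (h0 : ∀ i < P, 0 ≤ a i) (hp : p ≤ P) {S : Finset ℕ} (hS : ∀ i ∈ S, i < P) (hc : S.card ≤ p) :
    ∑ i ∈ S, a i ≤ ∑ i ∈ Finset.range p, a i := by
  rcases p with _ | p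
  · simp [Finset.card_eq_zero.1 (Nat.le_zero.1 hc)]
  rw [← Finset.sum_inter_add_sum_sdiff S (Finset.range (p + 1)),
    ← Finset.sum_inter_add_sum_sdiff (Finset.range (p + 1)) S, Finset.inter_comm]
  refine add_le_add le_rfl ((Finset.sum_le_card_nsmul _ _ (a p) fun i hi => ?_).trans
    (le_trans (nsmul_le_nsmul_left (h0 p hp) ?_) (Finset.card_nsmul_le_sum _ _ _ fun i hi => ?_)))
  · rw [Finset.mem_sdiff, Finset.mem_range] at hi
    exact ha _ _ (by omega) (hS i hi.1)
  · exact Finset.card_sdiff_le_card_sdiff_iff.2 (by simpa using hc)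
  · rw [Finset.mem_sdiff, Finset.mem_range] at hi
    exact ha _ _ (by omega) hp

theorem iface {n P p : ℕ} (hP : 0 < P) (hp : p ≤ P) (x : Fin (p + 1) → ℝ) {a : ℕ → ℝ}
    (ha : ∀ i j, i ≤ j → j < P → a j ≤ a i) (h0 : ∀ i < P, 0 ≤ a i) {η : ℝ} (hη : 0 ≤ η)
    {σ : ℝ → ℝ} (hσ : ∀ s ∈ Ioo (0 : ℝ) 1, σ s ≤ η + P * a ⌊P * s⌋₊) :
    2 * ∫⁻ z, ENNReal.ofReal (σ (z 2)) * ‖val x (z 2) - val x ((⌊P * z 2⌋₊ + z 0) / P)‖ₑ
      ∂cube (n + 3) ≤ ENNReal.ofReal (η + ∑ i ∈ Finset.range p, a i) := by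
  have hP' : (0 : ℝ) < P := by positivity
  let S := ((Finset.range p).image fun j => ⌊P * cc x (j + 1)⌋₊).filter (· < P)
  have hS : ∀ i ∈ S, i < P := fun i hi => (Finset.mem_filter.1 hi).2
  have hc : S.card ≤ p :=
    (Finset.card_filter_le _ _).trans (Finset.card_image_le.trans (by simp))
  have hE : MeasurableSet {t | val x t = 1} := val_meas x (measurableSet_singleton 1)
  let Dd : ℕ → Set (Fin (n + 3) → ℝ) := fun i => {z | z 2 ∈ Ico ((i : ℝ) / P) ((i + 1) / P) ∧
    ¬(z 2 ∈ {t | val x t = 1} ↔ (i + z 0) / P ∈ {t | val x t = 1})}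
  have hD : ∀ i, MeasurableSet (Dd i) := fun i =>
    (measurable_pi_apply 2 measurableSet_Ico).inter (MeasurableSet.iff (measurable_pi_apply 2 hE)
      ((by fun_prop : Measurable fun z : Fin (n + 3) → ℝ => (i + z 0) / P) hE)).compl
  refine (mul_le_mul_right (lintegral_mono_ae (g := fun z => ∑ i ∈ S,
    (Dd i).indicator (fun _ => ENNReal.ofReal (η + P * a i)) z) ?_) 2).trans ?_
  · filter_upwards [ae_good (n + 3) x] with z hz
    have z0 := (hz 0).1
    have z2 := (hz 2).1
    set i := ⌊P * z 2⌋₊ with hi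
    have w1 : (i : ℝ) ≤ P * z 2 := Nat.floor_le (mul_pos hP' z2.1).le
    have w2 : P * z 2 < i + 1 := Nat.lt_floor_add_one _
    have hiP : i < P := (Nat.floor_lt (mul_pos hP' z2.1).le).2 (mul_lt_of_lt_one_right hP' z2.2)
    by_cases hv : val x (z 2) = val x ((i + z 0) / P)
    · simp [hv]
    have hiS : i ∈ S := by
      by_contra hn
      refine hv (congrArg (yy x 0 + ·) (Finset.sum_congr rfl fun j hj => congrArg _ (if_congr ?_ rfl rfl)))
      have : ¬((i : ℝ) ≤ P * cc x (j + 1) ∧ P * cc x (j + 1) < i + 1) := fun h => hn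
        (Finset.mem_filter.2 ⟨Finset.mem_image.2 ⟨j, hj, (Nat.floor_eq_iff
          ((Nat.cast_nonneg i).trans h.1)).2 h⟩, hiP⟩)
      rw [le_div_iff₀' hP', ← mul_le_mul_iff_right₀ hP']
      rcases not_and_or.1 this with h | h
      · exact iff_of_true (by linarith) (by linarith [z0.1])
      · exact iff_of_false (by linarith) (by linarith [z0.2])
    refine le_trans ?_ (Finset.single_le_sum (f := fun i => (Dd i).indicator
      (fun _ => ENNReal.ofReal (η + P * a i)) z) (fun _ _ => zero_le) hiS)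
    have v1 := val01 x z2.1.le
    have v2 := val01 x (show 0 ≤ (i + z 0) / P by have := z0.1; positivity)
    have hm : z ∈ Dd i := ⟨⟨(div_le_iff₀' hP').2 w1, (lt_div_iff₀' hP').2 w2⟩, by
      rcases v1 with v1 | v1 <;> rcases v2 with v2 | v2 <;> simp_all⟩
    rw [indicator_of_mem hm]
    refine mul_le_of_le_one_right' ?_ |>.trans (ENNReal.ofReal_le_ofReal (hσ _ z2))
    rcases v1 with v1 | v1 <;> rcases v2 with v2 | v2 <;> simp [v1, v2]
  · rw [lintegral_finsetSum _ fun i _ => measurable_const.indicator (hD i), Finset.mul_sum]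
    refine (Finset.sum_le_sum (g := fun i => ENNReal.ofReal (η / P + a i)) fun i hi => ?_).trans ?_
    · have := h0 i (hS i hi)
      rw [lintegral_indicator_const (hD i)]
      refine (mul_le_mul_right (mul_le_mul_right (window (hS i hi) hE) _) 2).trans_eq ?_
      rw [← ENNReal.ofReal_ofNat 2, ← ENNReal.ofReal_mul (by positivity),
        ← ENNReal.ofReal_mul zero_le_two]
      congr 1
      field_simp
    · rw [← ENNReal.ofReal_sum_of_nonneg fun i hi => add_nonneg (by positivity) (h0 i (hS i hi)),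
        Finset.sum_add_distrib, Finset.sum_const, nsmul_eq_mul]
      refine ENNReal.ofReal_le_ofReal (add_le_add ?_ (top_sum ha h0 hp hS hc))
      rw [← mul_div_assoc, div_le_iff₀' hP']
      exact mul_le_mul_of_nonneg_right (by exact_mod_cast hc.trans hp) hη

end Pool.Agent.Lib.MP_c7858e_gt
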