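import Pool.Agent.Lib.MP_c7858e_gt.Defs
import Pool.Agent.Shared.Sing.Bridge

/-! Lifting of families of sets given up to complement. -/

namespace Pool.Agent.Lib.MP_c7858e_gt

open MeasureTheory Set Filter Topology Pool.Agent.Sing
open scoped ENNReal symmDiff

variable {d : ℕ}

instance cubeProb (d : ℕ) : IsProbabilityMeasure (cube d) :=
  ⟨by simp [cube, Real.volume_Icc_pi]⟩

/-- the distance of two sets -/
noncomputable def D (A B : Set (Fin d → ℝ)) : ℝ := (cube d).real (A ∆ B)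

lemma D_nonneg (A B : Set (Fin d → ℝ)) : 0 ≤ D A B := measureReal_nonneg
lemma D_comm (A B : Set (Fin d → ℝ)) : D A B = D B A := by rw [D, symmDiff_comm]; rfl
lemma D_tri (A B C : Set (Fin d → ℝ)) : D A C ≤ D A B + D B C := measureReal_symmDiff_le _
lemma D_cc (A B : Set (Fin d → ℝ)) : D Aᶜ Bᶜ = D A B := by rw [D, compl_symmDiff_compl]; rfl
lemma D_cl (A B : Set (Fin d → ℝ)) : D Aᶜ B = D A Bᶜ := by rw [← D_cc, compl_compl]
lemma D_self (A : Set (Fin d → ℝ)) : D A A = 0 := by simp [D]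
lemma D_one (A : Set (Fin d → ℝ)) : D Aᶜ A = 1 := by simp [D]

lemma D_compl {A B : Set (Fin d → ℝ)} (hA : MeasurableSet A) (hB : MeasurableSet B) :
    D Aᶜ B = 1 - D A B := by
  have : Aᶜ ∆ B = (A ∆ B)ᶜ := by
    ext x; simp only [mem_symmDiff, mem_compl_iff]; tauto
  rw [D, this, probReal_compl_eq_one_sub (hA.symmDiff hB)]; rfl

lemma compl_ne (A : Set (Fin d → ℝ)) : Aᶜ ≠ A := fun h => by
  have := D_one A
  rw [h, D_self] at this
  exact zero_ne_one this

lemma tz {ι : Type*} {l : Filter ι} {f : ι → ℝ≥0∞} (hf : ∀ i, f i ≠ ∞) :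
    Tendsto f l (𝓝 0) ↔ ∀ ε > 0, ∀ᶠ i in l, (f i).toReal < ε := by
  rw [← ENNReal.tendsto_toReal_zero_iff hf, Metric.tendsto_nhds]
  simp

variable {Y : Type*} [TopologicalSpace Y]

/-- continuity in measure -/
def Cont (B : Y → Set (Fin d → ℝ)) : Prop := ∀ t, ∀ ε > 0, ∀ᶠ s in 𝓝 t, D (B s) (B t) < ε

/-- continuity in measure up to complement -/
def ContZ (B : Y → Set (Fin d → ℝ)) : Prop :=
  ∀ t, ∀ ε > 0, ∀ᶠ s in 𝓝 t, D (B s) (B t) < ε ∨ D (B s) (B t)ᶜ < ε

lemma cont_iff {B : Y → Set (Fin d → ℝ)} :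
    (∀ t, Tendsto (fun s => cube d (B s ∆ B t)) (𝓝 t) (𝓝 0)) ↔ Cont B :=
  forall_congr' fun _ => tz fun _ => measure_ne_top _ _

lemma contZ_iff {B : Y → Set (Fin d → ℝ)} :
    (∀ x, Tendsto (fun y => min (cube d (B y ∆ B x)) (cube d (B y ∆ (B x)ᶜ))) (𝓝 x) (𝓝 0)) ↔
      ContZ B := by
  refine forall_congr' fun t => ?_
  rw [tz fun _ => ((min_le_left _ _).trans_lt (measure_lt_top _ _)).ne]
  refine forall₂_congr fun ε _ => eventually_congr (Eventually.of_forall fun s => ?_)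
  rw [ENNReal.toReal_min (measure_ne_top _ _) (measure_ne_top _ _), min_lt_iff]
  rfl

lemma Cont.comp {Y' : Type*} [TopologicalSpace Y'] {B : Y → Set (Fin d → ℝ)} (h : Cont B)
    {f : Y' → Y} (hf : Continuous f) : Cont fun y => B (f y) :=
  fun t ε hε => (hf.tendsto t).eventually (h (f t) ε hε)

lemma ContZ.comp {Y' : Type*} [TopologicalSpace Y'] {B : Y → Set (Fin d → ℝ)} (h : ContZ B)
    {f : Y' → Y} (hf : Continuous f) : ContZ fun y => B (f y) :=
  fun t ε hε => (hf.tendsto t).eventually (h (f t) ε hε)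

lemma Cont.compl {B : Y → Set (Fin d → ℝ)} (h : Cont B) : Cont fun y => (B y)ᶜ :=
  fun t ε hε => (h t ε hε).mono fun s hs => by rwa [D_cc]

open Classical in
lemma select {F : Y → Set (Fin d → ℝ)} (hF : ContZ F) (hm : ∀ y, MeasurableSet (F y))
    (ψ : Y → Set (Fin d → ℝ) → ℝ) (hodd : ∀ y, ψ y (F y)ᶜ = -ψ y (F y)) (y0 : Y)
    (hlip : ∀ ε > 0, ∀ᶠ y in 𝓝 y0, ∀ S T, MeasurableSet S → MeasurableSet T →
      ψ y0 T - D S T - ε ≤ ψ y S) (h0 : ψ y0 (F y0) ≠ 0) :
    ∀ ε > 0, ∀ᶠ y in 𝓝 y0, ψ y (F y) ≠ 0 ∧ D (if 0 < ψ y (F y) then F y else (F y)ᶜ)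
      (if 0 < ψ y0 (F y0) then F y0 else (F y0)ᶜ) < ε := by
  intro ε hε
  obtain ⟨T, hT, hTm, hc, hT'⟩ : ∃ T, (if 0 < ψ y0 (F y0) then F y0 else (F y0)ᶜ) = T ∧
      MeasurableSet T ∧ 0 < ψ y0 T ∧ (T = F y0 ∨ T = (F y0)ᶜ) := by
    split_ifs with h
    · exact ⟨_, rfl, hm _, h, Or.inl rfl⟩
    · refine ⟨_, rfl, (hm _).compl, ?_, Or.inr rfl⟩
      rw [hodd]
      exact neg_pos.2 (lt_of_le_of_ne (not_lt.1 h) h0)
  rw [hT]
  filter_upwards [hF y0 (min ε (ψ y0 T / 2)) (by positivity), hlip (ψ y0 T / 2) (by positivity)]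
    with y h1 h2
  have h3 : D (F y) T < min ε (ψ y0 T / 2) ∨ D (F y)ᶜ T < min ε (ψ y0 T / 2) := by
    rcases hT' with h | h
    · rw [D_cl]; rw [← h] at h1; exact h1
    · rw [D_cl]; rw [← h, ← compl_compl (F y0), ← h] at h1; exact h1.symm
  rcases h3 with h | h
  · have := h2 _ _ (hm y) hTm
    have h4 : 0 < ψ y (F y) := by linarith [(lt_min_iff.1 h).2]
    rw [if_pos h4]
    exact ⟨h4.ne', (lt_min_iff.1 h).1⟩
  · have := h2 _ _ (hm y).compl hTm
    rw [hodd] at this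
    have h4 : ψ y (F y) < 0 := by linarith [(lt_min_iff.1 h).2]
    rw [if_neg h4.le.not_gt]
    exact ⟨h4.ne, (lt_min_iff.1 h).1⟩

lemma lift_same [PreconnectedSpace Y] {B B' : Y → Set (Fin d → ℝ)} (h : Cont B) (h' : Cont B')
    (hp : ∀ y, B' y = B y ∨ B' y = (B y)ᶜ) {y0 : Y} (h0 : B' y0 = B y0) (y : Y) : B' y = B y := by
  have : IsLocallyConstant fun y => B' y = B y := by
    refine (IsLocallyConstant.iff_eventually_eq _).2 fun x => ?_
    filter_upwards [h x (1 / 2) (by norm_num), h' x (1 / 2) (by norm_num)] with y h1 h2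
    refine propext ⟨fun e => (hp x).resolve_right fun e' => ?_,
      fun e => (hp y).resolve_right fun e' => ?_⟩
    · have := D_tri (B x)ᶜ (B y) (B x)
      rw [e, e', D_comm] at h2
      linarith [D_one (B x)]
    · have := D_tri (B y)ᶜ (B x) (B y)
      rw [e, e'] at h2
      rw [D_comm] at h1
      linarith [D_one (B y)]
  exact (this.apply_eq_of_preconnectedSpace y0 y).mp h0

lemma lift_step {G G' B : Y → Set (Fin d → ℝ)} (hG' : ContZ G') (hm : ∀ y, MeasurableSet (G y))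
    (hm' : ∀ y, MeasurableSet (G' y)) (hB : Cont B) (hp : ∀ y, B y = G y ∨ B y = (G y)ᶜ)
    (hc : ∀ y, D (G' y) (G y) < 1 / 2 ∨ D (G' y) (G y)ᶜ < 1 / 2) :
    ∃ B' : Y → Set (Fin d → ℝ), Cont B' ∧ ∀ y, B' y = G' y ∨ B' y = (G' y)ᶜ := by
  classical
  have hb : ∀ y, MeasurableSet (B y) := fun y => by
    rcases hp y with h | h <;> rw [h]
    exacts [hm y, (hm y).compl]
  refine ⟨fun y => if 0 < 1 / 2 - D (G' y) (B y) then G' y else (G' y)ᶜ, fun y0 ε hε => ?_,
    fun y => ?_⟩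
  · refine (select hG' hm' (fun y S => 1 / 2 - D S (B y)) (fun y => ?_) y0 (fun ε hε => ?_) ?_
      ε hε).mono fun y hy => hy.2
    · rw [D_compl (hm' y) (hb y)]; ring
    · filter_upwards [hB y0 ε hε] with y hy S T _ _
      have h1 := D_tri S T (B y)
      have h2 := D_tri T (B y0) (B y)
      rw [D_comm] at hy
      linarith
    · have h1 := D_compl (hm' y0) (hm y0)
      rw [D_cl] at h1
      rcases hp y0 with h | h <;> rw [h] <;> rcases hc y0 with h2 | h2 <;> intro h3 <;> linarith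
  · dsimp only
    split_ifs
    exacts [Or.inl rfl, Or.inr rfl]

lemma exists_lift {n : ℕ} {F : Std n → Set (Fin d → ℝ)} (hF : ContZ F)
    (hm : ∀ y, MeasurableSet (F y)) :
    ∃ B : Std n → Set (Fin d → ℝ), Cont B ∧ ∀ y, B y = F y ∨ B y = (F y)ᶜ := by
  let K := stdSimplex ℝ (Fin (n + 1))
  obtain ⟨δ, hδ, hL⟩ := lebesgue_number_lemma_of_metric (α := K) isCompact_univ
    (c := fun z : K => interior {y : K | D (F y) (F z) < 1 / 4 ∨ D (F y) (F z)ᶜ < 1 / 4})
    (fun _ => isOpen_interior) fun z _ =>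
      mem_iUnion.2 ⟨z, mem_interior_iff_mem_nhds.2 (hF z (1 / 4) (by norm_num))⟩
  have hc : ∀ y y' : K, dist y' y < δ → D (F y') (F y) < 1 / 2 ∨ D (F y') (F y)ᶜ < 1 / 2 := by
    intro y y' h
    obtain ⟨z, hz⟩ := hL y trivial
    have h1 := interior_subset (hz (Metric.mem_ball_self hδ))
    have h2 := interior_subset (hz h)
    have e1 := D_tri (F y') (F z) (F y)
    have e2 := D_tri (F y') (F z)ᶜ (F y)
    have e3 := D_tri (F y') (F z) (F y)ᶜ
    have e4 := D_tri (F y') (F z)ᶜ (F y)ᶜ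
    rw [D_comm (F z)] at e1 e3
    rw [D_comm (F z)ᶜ] at e2
    rw [D_cl] at e3
    rw [D_cc, D_comm (F z)] at e4
    rcases h1 with h1 | h1 <;> rcases h2 with h2 | h2
    exacts [Or.inl (by linarith), Or.inr (by linarith), Or.inr (by linarith), Or.inl (by linarith)]
  obtain ⟨N, hN⟩ := exists_nat_one_div_lt hδ
  let c : K := stdSimplex.vertex 0
  let h : (r : ℝ) → r ∈ Icc (0 : ℝ) 1 → K → K := fun r hr y =>
    ⟨c.1 + r • (y.1 - c.1), (convex_stdSimplex ℝ _).add_smul_sub_mem c.2 y.2 hr⟩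
  have hh : ∀ r hr, Continuous (h r hr) := fun r hr => Continuous.subtype_mk (by fun_prop) _
  have hr : ∀ j : ℕ, j ≤ N + 1 → (j : ℝ) / (N + 1) ∈ Icc (0 : ℝ) 1 := fun j hj =>
    ⟨by positivity, (div_le_one (by positivity)).2 (by exact_mod_cast hj)⟩
  have key : ∀ j (hj : j ≤ N + 1), ∃ B : K → Set (Fin d → ℝ), Cont B ∧
      ∀ y, B y = F (h _ (hr j hj) y) ∨ B y = (F (h _ (hr j hj) y))ᶜ := by
    intro j
    induction j with
    | zero =>
      refine fun hj => ⟨fun _ => F c, fun _ ε hε => Eventually.of_forall fun _ => by rwa [D_self],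
        fun y => Or.inl (congrArg F (Subtype.ext ?_))⟩
      simp [h]
    | succ j ih =>
      intro hj
      obtain ⟨B, h1, h2⟩ := ih (by omega)
      refine lift_step (hF.comp (hh _ (hr _ hj))) (fun _ => hm _) (fun _ => hm _) h1 h2
        fun y => hc _ _ ?_
      have : ‖y.1 - c.1‖ ≤ 1 := by
        rw [← dist_eq_norm]
        exact (Metric.dist_le_diam_of_mem (bounded_stdSimplex _) y.2 c.2).trans diam_stdSimplex_le
      rw [Subtype.dist_eq, dist_eq_norm]
      simp only [h, add_sub_add_left_eq_sub, ← sub_smul, norm_smul]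
      rw [← sub_div, Nat.cast_succ, add_sub_cancel_left, Real.norm_of_nonneg (by positivity)]
      exact (mul_le_of_le_one_right (by positivity) this).trans_lt hN
  obtain ⟨B, h1, h2⟩ := key (N + 1) le_rfl
  refine ⟨B, h1, fun y => ?_⟩
  have : h _ (hr (N + 1) le_rfl) y = y := Subtype.ext (by
    have : ((N : ℝ) + 1) / (N + 1) = 1 := div_self (by positivity)
    simp [h, this])
  have h3 := h2 y
  rwa [this] at h3

end Pool.Agent.Lib.MP_c7858e_gt
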