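import Pool.Agent.Lib.MP_c7858e_gt.Upper
import Pool.Agent.Lib.MP_c7858e_gt.Bulb

/-! The lower bound for the widths and the comparison of two metrics. -/

namespace Pool.Agent.Lib.MP_c7858e_gt

open MeasureTheory Set Filter Topology Matrix
open scoped ENNReal

theorem le_width {d p : ℕ} {g : Met d} (z : Fin d) {a a' : Fin p → Fin d → ℝ} {l : Fin d → ℝ}
    (hl : ∀ j, 0 < l j) (ha : ∀ i, 0 ≤ a i) (h1 : ∀ i, a i + l ≤ 1) (ha' : ∀ i, 0 ≤ a' i)
    (h1' : ∀ i, a' i + l ≤ 1) (he : ∀ i j, j ≠ z → a' i j = a i j)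
    (hd : ∀ i, a i z + l z < a' i z) {c : Fin p → ℝ} (hc : ∀ i, 0 ≤ c i) {K ε : ℝ} (hK : 0 < K)
    (hε : ε ≤ 1) (k1 : ∀ i, ∀ x ∈ Icc (a i) (a i + l), ∀ ξ k, z < k → K * |ξ k| ≤ dens g x ξ)
    (k2 : ∀ i, ∀ x ∈ Icc (a' i) (a' i + l), ∀ ξ k, k < z → K * |ξ k| ≤ dens g x ξ)
    (k3 : ∀ x ξ, (∑ i, (Icc (Function.update (a i) z 0)
      (Function.update (a i) z 0 + Function.update l z 1)).indicator (fun _ => c i) x) * |ξ z| ≤
        dens g x ξ) {M : ℝ} (hM : M = ∑ i, c i * ((∏ j, Function.update l z 1 j) * (1 - ε)))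
    (hs : (4 + 2 * d) * ((∏ j, l j)⁻¹ * (K⁻¹ * M)) ≤ ε) : ENNReal.ofReal M ≤ width g p := by
  have hP : 0 < ∏ j, l j := Finset.prod_pos fun j _ => hl j
  have hP' : 0 < ∏ j, Function.update l z 1 j := Finset.prod_pos fun j _ => by
    by_cases hj : j = z <;> simp [hj, hl]
  rcases le_or_gt M 0 with hM0 | hM0
  · rw [ENNReal.ofReal_of_nonpos hM0]; exact zero_le
  refine le_iInf fun X => le_iInf fun _ => le_iInf fun A => le_iInf fun hA => ?_
  obtain ⟨x, hx⟩ := hA.1.bisect fun i => Icc (a i) (a i + l) ∪ Icc (a' i) (a' i + l)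
  have hm := hA.1.1 x
  have hv : ∀ b : Fin d → ℝ, 0 ≤ b → b + l ≤ 1 → (cube d).real (Icc b (b + l)) = ∏ j, l j :=
    fun b h h' => by
      rw [cube, measureReal_restrict_apply measurableSet_Icc, inter_eq_left.2 (Icc_subset_Icc h h'),
        Measure.real, Real.volume_Icc_pi_toReal (le_add_of_nonneg_right fun j => (hl j).le)]
      simp
  have hb : ∀ i, (cube d).real (A x ∩ Icc (a i) (a i + l)) +
      (cube d).real (A x ∩ Icc (a' i) (a' i + l)) = ∏ j, l j := fun i => by
    have hD : Disjoint (Icc (a i) (a i + l)) (Icc (a' i) (a' i + l)) :=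
      Set.disjoint_left.2 fun y h h' => (hd i).not_ge ((h'.1 z).trans (h.2 z))
    have := hx i
    rw [inter_union_distrib_left, measureReal_union (hD.mono inter_subset_right inter_subset_right)
      (hm.inter measurableSet_Icc), measureReal_union hD measurableSet_Icc, hv _ (ha i) (h1 i),
      hv _ (ha' i) (h1' i)] at this
    linarith
  refine le_iSup_of_le x (le_iInf fun u => le_iInf fun hu => le_iInf fun hL =>
    le_liminf_of_le (h := ?_))
  filter_upwards [ENNReal.tendsto_nhds_zero.1 hL (ENNReal.ofReal (K⁻¹ * M))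
    (ENNReal.ofReal_pos.2 (by positivity))] with k hk
  refine le_of_not_gt fun hlt => hlt.not_ge ?_
  rw [energy_eq, Measure.restrict_univ] at hlt ⊢
  have key : ∀ (B : Set (Fin d → ℝ)) j, MeasurableSet B →
      (∀ x ∈ B, ∀ ξ, K * |ξ j| ≤ dens g x ξ) →
      ∫⁻ x in B, ‖pd (u k) j x‖ₑ ∂cube d ≤ ENNReal.ofReal (K⁻¹ * M) := fun B j hB h => by
    rw [ENNReal.ofReal_mul (inv_pos.2 hK).le]
    refine le_trans ?_ (mul_le_mul_right ((setLIntegral_le_lintegral B _).trans hlt.le) _)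
    rw [← lintegral_const_mul' _ _ ENNReal.ofReal_ne_top]
    refine setLIntegral_mono' hB fun x hx => ?_
    rw [← ENNReal.ofReal_mul (inv_pos.2 hK).le, ← ofReal_norm]
    exact ENNReal.ofReal_le_ofReal ((le_inv_mul_iff₀ hK).2 (h x hx fun i => pd (u k) i x))
  have mp := (cont_pd (hu k).1 z).measurable.enorm
  refine le_trans ?_ (lintegral_mono (f := fun x => ∑ i, (Icc (Function.update (a i) z 0)
      (Function.update (a i) z 0 + Function.update l z 1)).indicator
      (fun x => ENNReal.ofReal (c i) * ‖pd (u k) z x‖ₑ) x) fun x => ?_)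
  · rw [lintegral_finsetSum _ fun i _ => (mp.const_mul _).indicator measurableSet_Icc, hM,
      ENNReal.ofReal_sum_of_nonneg fun i _ => mul_nonneg (hc i) (mul_nonneg hP'.le (by linarith))]
    refine Finset.sum_le_sum fun i _ => ?_
    rw [lintegral_indicator measurableSet_Icc, lintegral_const_mul _ mp, ENNReal.ofReal_mul (hc i),
      ENNReal.ofReal_mul hP'.le]
    refine mul_le_mul_right ?_ _
    have := bulb z (hu k).1 (fun x => (hu k).2 x z) hl (ha i) (h1 i) (ha' i) (h1' i) (he i) hm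
      (hb i) hk (fun j hj => key _ j measurableSet_Icc fun x hx ξ => k1 i x hx ξ j hj)
      fun j hj => key _ j measurableSet_Icc fun x hx ξ => k2 i x hx ξ j hj
    have e : (4 + 2 * d : ℝ≥0∞) * ((ENNReal.ofReal (∏ j, l j))⁻¹ * ENNReal.ofReal (K⁻¹ * M)) ≤
        ENNReal.ofReal ε := by
      refine le_trans (le_of_eq ?_) (ENNReal.ofReal_le_ofReal hs)
      rw [ENNReal.ofReal_mul (p := 4 + 2 * d) (by positivity), ENNReal.ofReal_mul (inv_pos.2 hP).le,
        ENNReal.ofReal_inv_of_pos hP, ENNReal.ofReal_add (by positivity) (by positivity),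
        ENNReal.ofReal_mul zero_le_two]
      simp
    rw [ENNReal.mul_le_iff_le_inv (ENNReal.ofReal_pos.2 hP').ne' ENNReal.ofReal_ne_top,
      ENNReal.ofReal_sub _ (le_trans (by positivity) hs), ENNReal.ofReal_one, tsub_le_iff_left]
    exact this.trans (add_le_add e le_rfl)
  · refine le_trans (le_of_eq ?_) (ENNReal.ofReal_le_ofReal (k3 x fun i => pd (u k) i x))
    rw [Finset.sum_mul, ENNReal.ofReal_sum_of_nonneg fun i _ =>
      mul_nonneg (indicator_nonneg (fun _ _ => hc i) _) (abs_nonneg _)]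
    refine Finset.sum_congr rfl fun i _ => ?_
    simp only [indicator]
    split_ifs
    · rw [ENNReal.ofReal_mul (hc i), ← ofReal_norm]; rfl
    · simp

lemma mass_cmp {d : ℕ} {g g' : Met d} {c : ℝ} (hc : 0 < c)
    (h : ∀ x ξ, dens g x ξ ≤ c * dens g' x ξ) (A U : Set (Fin d → ℝ)) :
    mass g A U ≤ ENNReal.ofReal c * mass g' A U := by
  have h0 := (ENNReal.ofReal_pos.2 hc).ne'
  simp only [mass, ENNReal.mul_iInf_of_ne h0 ENNReal.ofReal_ne_top]
  refine iInf_mono fun u => iInf_mono fun _ => iInf_mono fun _ => ?_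
  rw [← ENNReal.liminf_const_mul_of_ne_top ENNReal.ofReal_ne_top]
  refine liminf_le_liminf (Eventually.of_forall fun k => ?_)
  rw [energy_eq, energy_eq, ← lintegral_const_mul' _ _ ENNReal.ofReal_ne_top]
  refine lintegral_mono fun x => ?_
  rw [← ENNReal.ofReal_mul hc.le]
  exact ENNReal.ofReal_le_ofReal (h _ _)

lemma width_cmp {d : ℕ} {g g' : Met d} {c : ℝ} (hc : 0 < c)
    (h : ∀ x ξ, dens g x ξ ≤ c * dens g' x ξ) (p : ℕ) :
    width g p ≤ ENNReal.ofReal c * width g' p := by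
  have h0 := (ENNReal.ofReal_pos.2 hc).ne'
  simp only [width, ENNReal.mul_iInf_of_ne h0 ENNReal.ofReal_ne_top, ENNReal.mul_iSup]
  refine iInf_mono fun X => iInf_mono fun _ => iInf_mono fun A => le_iInf fun hA =>
    iInf_le_of_le ⟨hA.1, ?_⟩ (iSup_mono fun x => mass_cmp hc h _ _)
  have := ENNReal.Tendsto.const_mul (a := ENNReal.ofReal c) hA.2 (Or.inr ENNReal.ofReal_ne_top)
  rw [mul_zero] at this
  refine tendsto_of_tendsto_of_tendsto_of_le_of_le tendsto_const_nhds this (fun _ => zero_le)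
    fun r => iSup_le fun x => iSup_le fun q => (mass_cmp hc h _ _).trans (mul_le_mul_right ?_ _)
  exact le_iSup_of_le x (le_iSup_of_le q le_rfl)

end Pool.Agent.Lib.MP_c7858e_gt
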