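import Pool.Agent.Lib.MP_c7858e_gt.Fam
import Pool.Agent.Shared.Kuhn.Sperner

/-! Prescribing the volume and finitely many widths. -/

namespace Pool.Agent.Lib.MP_c7858e_gt

open MeasureTheory Set Filter Topology Matrix
open scoped ENNReal

/-- deviations of the sums -/
def dv {P : ℕ} (t : Fin P → ℝ) : ℕ → ℝ
  | 0 => 0
  | j + 1 => if h : j < P then t ⟨j, h⟩ else 0

lemma dv_sub {P : ℕ} (t t' : Fin P → ℝ) : ∀ j, |dv t j - dv t' j| ≤ dist t t'
  | 0 => by simp [dv]
  | j + 1 => by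
    simp only [dv]
    split_ifs with h
    · exact dist_le_pi_dist t t' _
    · simp

lemma dv_le {P : ℕ} {δ : ℝ} (hδ : 0 ≤ δ) {t : Fin P → ℝ}
    (ht : t ∈ Icc (fun _ => -δ) fun _ => δ) : ∀ j, |dv t j| ≤ δ
  | 0 => by simpa [dv]
  | j + 1 => by
    simp only [dv]
    split_ifs with h
    · exact abs_le.2 ⟨ht.1 _, ht.2 _⟩
    · simpa

theorem prescribe (n P : ℕ) (b : ℕ → ℝ) (hb : StrictAnti b) (h0 : ∀ i, 0 < b i) {V : ℝ}
    (hV : 0 < V) : ∃ g : Met (n + 3), vol g = ENNReal.ofReal V ∧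
      ∀ p ≤ P, width g (p + 1) = ENNReal.ofReal (∑ i ∈ Finset.range (p + 1), b i) := by
  obtain ⟨i0, -, hi⟩ := (Finset.range (P + 1)).exists_min_image (fun i => b i - b (i + 1)) (by simp)
  obtain ⟨δ, hδ, hi⟩ : ∃ δ > 0, ∀ i < P + 1, b (i + 1) + 4 * δ ≤ b i :=
    ⟨(b i0 - b (i0 + 1)) / 4, by linarith [hb i0.lt_succ_self], fun i h => by
      linarith [hi i (Finset.mem_range.2 h)]⟩
  obtain ⟨g, h1, h2, h3⟩ := family (A := b 0 + 2 * δ) n P.succ_pos (by linarith [h0 0]) hδ hV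
  let a : (Fin (P + 1) → ℝ) → ℕ → ℝ := fun t i => b i + (dv t (i + 1) - dv t i)
  have aS : ∀ t p, ∑ i ∈ Finset.range p, a t i = ∑ i ∈ Finset.range p, b i + dv t p :=
    fun t p => by rw [Finset.sum_add_distrib, Finset.sum_range_sub]; simp [dv]
  have aB : ∀ t ∈ Icc (fun _ => -δ) fun _ => δ, ∀ i, b i - 2 * δ ≤ a t i ∧ a t i ≤ b i + 2 * δ :=
    fun t ht i => by
      have u := abs_le.1 (dv_le hδ.le ht i)
      have w := abs_le.1 (dv_le hδ.le ht (i + 1))
      constructor <;> simp only [a] <;> linarith [u.1, u.2, w.1, w.2]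
  have aL : ∀ t ∈ Icc (fun _ => -δ) fun _ => δ, ∀ i < P + 1, 2 * δ ≤ a t i := fun t ht i h => by
    linarith [(aB t ht i).1, hi i h, h0 (i + 1)]
  have h4 := fun t (ht : t ∈ Icc (fun _ => -δ) fun _ => δ) (p : Fin (P + 1)) => h3 (a t)
    (fun i h => ⟨by linarith [aL t ht i h], by linarith [(aB t ht i).2, hb.antitone i.zero_le]⟩)
    (fun i j hij hj => hij.eq_or_lt.elim (fun e => by rw [e]) fun e => by
      linarith [(aB t ht i).1, (aB t ht j).2, hi i (e.trans hj), hb.antitone (show i + 1 ≤ j from e)])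
    (p + 1) p.2
  have b0 : ∀ p, 0 ≤ ∑ i ∈ Finset.range p, b i := fun p => Finset.sum_nonneg fun i _ => (h0 i).le
  have fin : ∀ t ∈ Icc (fun _ => -δ) fun _ => δ, ∀ p : Fin (P + 1), width (g (a t)) (p + 1) ≠ ∞ :=
    fun t ht p => ne_top_of_le_ne_top ENNReal.ofReal_ne_top (h4 t ht p).2
  have h5 : ∀ t ∈ Icc (fun _ => -δ) fun _ => δ, ∀ p : Fin (P + 1),
      ∑ i ∈ Finset.range (p + 1), b i + t p - δ ≤ (width (g (a t)) (p + 1)).toReal ∧
      (width (g (a t)) (p + 1)).toReal ≤ ∑ i ∈ Finset.range (p + 1), b i + t p + δ :=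
    fun t ht p => by
      have := h4 t ht p
      rw [aS, dv, dif_pos p.2] at this
      exact ⟨(ENNReal.ofReal_le_iff_le_toReal (fin t ht p)).1 this.1,
        ENNReal.toReal_le_of_le_ofReal (by linarith [b0 (p + 1), ht.1 p]) this.2⟩
  have hc : ∀ p : Fin (P + 1), ∀ t ∈ Icc (fun _ => -δ) fun _ => δ,
      ∀ t' ∈ Icc (fun _ => -δ) fun _ => δ,
      (width (g (a t)) (p + 1)).toReal ≤ (width (g (a t')) (p + 1)).toReal +
        (∑ i ∈ Finset.range (p + 1), b i + 2 * δ) / δ * dist t t' := by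
    intro p t ht t' ht'
    have d0 : 0 ≤ dist t t' / δ := by positivity
    have key : ∀ u ∈ Icc (fun _ => -δ) fun _ => δ, ∀ w ∈ Icc (fun _ => -δ) fun _ => δ,
        dist u w = dist t t' → ∀ i < P + 1, |a u i| ≤ (1 + dist t t' / δ) * |a w i| :=
      fun u hu w hw e i h => by
        have c1 := abs_le.1 (dv_sub u w i)
        have c2 := abs_le.1 (dv_sub u w (i + 1))
        have c3 := mul_le_mul_of_nonneg_left (aL w hw i h) d0
        rw [mul_left_comm, div_mul_cancel₀ _ hδ.ne'] at c3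
        rw [abs_of_nonneg (by linarith [aL u hu i h]), abs_of_nonneg (by linarith [aL w hw i h]),
          add_mul, one_mul]
        have : a u i ≤ a w i + 2 * dist t t' := by
          simp only [a]
          linarith [c1.1, c2.2]
        linarith
    have := ENNReal.toReal_mono (ENNReal.mul_ne_top ENNReal.ofReal_ne_top (fin t' ht' p))
      (h2 (a t) (a t') _ (le_add_of_nonneg_right d0)
        (fun i h => ⟨key t ht t' ht' rfl i h, key t' ht' t ht (dist_comm _ _) i h⟩) (p + 1))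
    rw [ENNReal.toReal_mul, ENNReal.toReal_ofReal (by positivity), add_mul, one_mul] at this
    refine this.trans (add_le_add le_rfl ?_)
    rw [div_mul_comm (∑ i ∈ Finset.range (p + 1), b i + 2 * δ)]
    exact mul_le_mul_of_nonneg_left (by linarith [(h5 t' ht' p).2, ht'.2 p]) d0
  obtain ⟨t, ht, e⟩ := Pool.Agent.Shared.Kuhn.poincare_miranda
    (a := fun _ => -δ) (b := fun _ => δ) (fun _ => by linarith)
    (fun t (p : Fin (P + 1)) => (width (g (a t)) (p + 1)).toReal - ∑ i ∈ Finset.range (p + 1), b i)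
    (continuousOn_pi.2 fun p =>
      (LipschitzOnWith.of_le_add_mul' (f := fun t => (width (g (a t)) (p + 1)).toReal) _
        (hc p)).continuousOn.sub continuousOn_const)
    (fun t ht p e => by linarith [(h5 t ht p).2]) fun t ht p e => by linarith [(h5 t ht p).1]
  refine ⟨g (a t), h1 _, fun p hp => ?_⟩
  rw [← ENNReal.ofReal_toReal (fin t ht ⟨p, Nat.lt_succ_of_le hp⟩),
    sub_eq_zero.1 (congrFun e ⟨p, Nat.lt_succ_of_le hp⟩)]

end Pool.Agent.Lib.MP_c7858e_gt
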