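import Pool.Agent.Lib.MP_c7858e_gt.Cube

/-! Smooth staircases, windows and bumps. -/

namespace Pool.Agent.Lib.MP_c7858e_gt

open MeasureTheory Set Filter Topology
open scoped ENNReal ContDiff

/-- a smooth staircase -/
noncomputable def G (k t : ℝ) : ℝ := ⌊t⌋ + Real.smoothTransition (k * Int.fract t)

variable {k t : ℝ}

lemma G_int (k t : ℝ) (n : ℤ) : G k (t + n) = G k t + n := by
  simp [G]; ring

lemma G_add_one (k t : ℝ) : G k (t + 1) = G k t + 1 := by simpa using G_int k t 1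

lemma G_eq (h : 1 ≤ k * Int.fract t) : G k t = ⌊t⌋ + 1 := by
  rw [G, Real.smoothTransition.one_of_one_le h]

lemma G_smooth (hk : 2 ≤ k) : ContDiff ℝ ∞ (G k) := by
  refine contDiff_iff_contDiffAt.2 fun t0 => ?_
  have h : ContDiff ℝ ∞ fun t : ℝ => (⌊t0⌋ : ℝ) + Real.smoothTransition (k * (t - ⌊t0⌋)) :=
    contDiff_const.add (Real.smoothTransition.contDiff.comp (by fun_prop))
  refine h.contDiffAt.congr_of_eventuallyEq ?_
  filter_upwards [Ioo_mem_nhds (show (⌊t0⌋ : ℝ) - 1 / 2 < t0 by linarith [Int.floor_le t0])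
    (Int.lt_floor_add_one t0)] with t ht
  rcases le_or_gt (⌊t0⌋ : ℝ) t with h1 | h1
  · rw [G, Int.fract, Int.floor_eq_iff.2 ⟨h1, ht.2⟩]
  · have e : ⌊t⌋ = ⌊t0⌋ - 1 := Int.floor_eq_iff.2 (by push_cast; constructor <;> linarith [ht.1])
    rw [G_eq, e, Real.smoothTransition.zero_of_nonpos (by nlinarith)]
    · push_cast; ring
    · rw [Int.fract, e]
      push_cast
      nlinarith [ht.1]

lemma G_mono (hk : 0 ≤ k) : Monotone (G k) := fun s t h => by
  rcases (Int.floor_mono h).eq_or_lt with e | e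
  · rw [G, G, Int.fract, Int.fract, e]
    exact add_le_add le_rfl (Real.smoothTransition.monotone (by nlinarith))
  · have : (⌊s⌋ : ℝ) + 1 ≤ ⌊t⌋ := by exact_mod_cast e
    rw [G, G]
    linarith [Real.smoothTransition.le_one (k * Int.fract s),
      Real.smoothTransition.nonneg (k * Int.fract t)]

lemma G_diff (hk : 2 ≤ k) (c t : ℝ) : HasDerivAt (fun s => G k (s - c)) (deriv (G k) (t - c)) t :=
  ((G_smooth hk).differentiable (by simp) _).hasDerivAt.comp_sub_const t c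

lemma G_cont (hk : 2 ≤ k) : Continuous (deriv (G k)) := (G_smooth hk).continuous_deriv (by simp)

lemma G_deriv_zero (h : 1 < k * Int.fract t) : deriv (G k) t = 0 := by
  have : G k =ᶠ[𝓝 t] fun _ => (⌊t⌋ : ℝ) + 1 := by
    have h1 : ∀ᶠ s in 𝓝 t, 1 < k * (s - ⌊t⌋) :=
      (by fun_prop : Continuous fun s : ℝ => k * (s - ⌊t⌋)).continuousAt.eventually
        (lt_mem_nhds h)
    have h0 : (⌊t⌋ : ℝ) < t := (Int.floor_le t).lt_of_ne fun e => by
      rw [Int.fract, e, sub_self, mul_zero] at h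
      linarith
    filter_upwards [h1, Ioo_mem_nhds h0 (Int.lt_floor_add_one t)] with s h2 h3
    have e : ⌊s⌋ = ⌊t⌋ := Int.floor_eq_iff.2 ⟨h3.1.le, h3.2⟩
    rw [G_eq (by rw [Int.fract, e]; exact h2.le), e]
  rw [this.deriv_eq, deriv_const]

lemma G_lint (hk : 2 ≤ k) (c : ℝ) : ∫⁻ t, ‖deriv (G k) (t - c)‖ₑ ∂nu = 1 := by
  have hc : Continuous fun t => deriv (G k) (t - c) := (G_cont hk).comp (by fun_prop)
  have h0 : ∀ t, 0 ≤ deriv (G k) (t - c) := fun _ => (G_mono (by linarith)).deriv_nonneg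
  have h := intervalIntegral.integral_eq_sub_of_hasDerivAt (a := 0) (b := 1)
    (fun t _ => G_diff hk c t) (hc.intervalIntegrable _ _)
  rw [intervalIntegral.integral_of_le zero_le_one, show 1 - c = 0 - c + 1 by ring, G_add_one,
    add_sub_cancel_left] at h
  simp only [Real.enorm_eq_ofReal (h0 _)]
  rw [nu, ← restrict_Ioc_eq_restrict_Icc, ← ofReal_integral_eq_lintegral_ofReal
    (hc.integrableOn_Icc.mono_set Ioc_subset_Icc_self) (Eventually.of_forall h0), h,
    ENNReal.ofReal_one]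

/-- a smooth window -/
noncomputable def th (P : ℕ) (k : ℝ) (i : ℕ) (s : ℝ) : ℝ :=
  G k (s - i / P) - G k (s - (i + 1 : ℕ) / P)

variable {P i : ℕ} {s : ℝ}

lemma th_smooth (hk : 2 ≤ k) (P i : ℕ) : ContDiff ℝ ∞ (th P k i) :=
  ((G_smooth hk).comp (by fun_prop)).sub ((G_smooth hk).comp (by fun_prop))

lemma th_per (P : ℕ) (k : ℝ) (i : ℕ) (s : ℝ) : th P k i (s + 1) = th P k i s := by
  rw [th, th, add_sub_right_comm, add_sub_right_comm, G_add_one, G_add_one]; ring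

lemma th_nonneg (hk : 0 ≤ k) : 0 ≤ th P k i s :=
  sub_nonneg.2 (G_mono hk (sub_le_sub_left (by gcongr; omega) _))

lemma th_le_one (hk : 0 ≤ k) (hP : 0 < P) : th P k i s ≤ 1 := by
  have h : (1 : ℝ) / P ≤ 1 := (div_le_one (by positivity)).2 (by exact_mod_cast hP)
  have := G_mono hk (show s - i / P ≤ s - (i + 1 : ℕ) / P + 1 by push_cast; rw [add_div]; linarith)
  rw [G_add_one] at this
  rw [th]
  linarith

lemma fract_le (hP : 0 < P) (j : ℕ) (s : ℝ) : Int.fract (P * s) ≤ P * Int.fract (s - j / P) := by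
  have h0 : (0 : ℝ) < P := by positivity
  have : P * s = P * Int.fract (s - j / P) + ((P * ⌊s - j / P⌋ + j : ℤ) : ℝ) := by
    rw [Int.fract]; push_cast; field_simp; ring
  rw [this, Int.fract_add_intCast, Int.fract]
  have : 0 ≤ ⌊P * Int.fract (s - j / P)⌋ := Int.floor_nonneg.2 (by positivity)
  exact sub_le_self _ (by exact_mod_cast this)

lemma lt_fract (hP : 0 < P) (hk : 0 ≤ k) (h : P < k * Int.fract (P * s)) (j : ℕ) :
    1 < k * Int.fract (s - j / P) := by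
  have h0 : (0 : ℝ) < P := by positivity
  have := mul_le_mul_of_nonneg_left (fract_le hP j s) hk
  nlinarith

lemma th_eq (hk : 0 ≤ k) (hi : i < P) (h0 : 0 ≤ s) (h1 : s < 1)
    (h : P < k * Int.fract (P * s)) : th P k i s = if ⌊P * s⌋₊ = i then 1 else 0 := by
  have hP : 0 < P := by omega
  have hP' : (0 : ℝ) < P := by positivity
  have e : ∀ j : ℕ, j ≤ P → ⌊s - j / P⌋ = if j ≤ ⌊P * s⌋₊ then 0 else -1 := fun j hj => by
    have h2 : (j : ℝ) / P ≤ 1 := (div_le_one hP').2 (by exact_mod_cast hj)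
    have h3 : (0 : ℝ) ≤ j / P := by positivity
    have h4 : j ≤ ⌊P * s⌋₊ ↔ (j : ℝ) / P ≤ s := by
      rw [Nat.le_floor_iff (by positivity), div_le_iff₀' hP']
    split_ifs with h5 <;> rw [h4] at h5 <;> rw [Int.floor_eq_iff] <;> push_cast <;>
      constructor <;> linarith
  rw [th, G_eq (lt_fract hP hk h _).le, G_eq (lt_fract hP hk h _).le, e i hi.le, e _ hi]
  split_ifs <;> first | omega | simp

lemma th_diff (hk : 2 ≤ k) (P i : ℕ) (s : ℝ) : deriv (th P k i) s =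
    deriv (G k) (s - i / P) - deriv (G k) (s - (i + 1 : ℕ) / P) :=
  ((G_diff hk _ s).sub (G_diff hk _ s)).deriv

lemma th_deriv_zero (hk : 2 ≤ k) (hP : 0 < P) (h : P < k * Int.fract (P * s)) :
    deriv (th P k i) s = 0 := by
  rw [th_diff hk, G_deriv_zero (lt_fract hP (by linarith) h _),
    G_deriv_zero (lt_fract hP (by linarith) h _), sub_zero]

lemma th_lint (hk : 2 ≤ k) (P i : ℕ) : ∫⁻ s, ‖deriv (th P k i) s‖ₑ ∂nu ≤ 2 := by
  simp only [th_diff hk]
  refine (lintegral_mono fun s => enorm_sub_le).trans_eq ?_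
  rw [lintegral_add_left (f := fun s => ‖deriv (G k) (s - i / P)‖ₑ)
    ((G_cont hk).comp (by fun_prop)).measurable.enorm, G_lint hk, G_lint hk, one_add_one_eq_two]

/-- a periodic bump -/
noncomputable def ph (θ w : ℝ) : ℝ := G θ⁻¹ (w - θ) - G θ⁻¹ (w + 2 * θ) + 1

variable {θ w : ℝ}

lemma ph_smooth (h0 : 0 < θ) (h1 : θ ≤ 1 / 8) : ContDiff ℝ ∞ (ph θ) := by
  have hk : 2 ≤ θ⁻¹ := (le_inv_comm₀ two_pos h0).2 (by linarith)
  exact (((G_smooth hk).comp (by fun_prop)).sub ((G_smooth hk).comp (by fun_prop))).add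
    contDiff_const

lemma ph_int (θ w : ℝ) (n : ℤ) : ph θ (w + n) = ph θ w := by
  rw [ph, ph, add_sub_right_comm, add_right_comm w, G_int, G_int]; ring

lemma ph_mem (h0 : 0 < θ) (h1 : θ ≤ 1 / 8) : 0 ≤ ph θ w ∧ ph θ w ≤ 1 := by
  have a := G_mono (inv_pos.2 h0).le (show w - θ ≤ w + 2 * θ by linarith)
  have b := G_mono (inv_pos.2 h0).le (show w + 2 * θ ≤ w - θ + 1 by linarith)
  rw [G_add_one] at b
  rw [ph]
  constructor <;> linarith

lemma G_val (h0 : 0 < θ) (n : ℤ) (h1 : n + θ ≤ t) (h2 : t < n + 1) : G θ⁻¹ t = n + 1 := by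
  have e : ⌊t⌋ = n := Int.floor_eq_iff.2 ⟨by linarith, h2⟩
  rw [G_eq, e]
  rw [Int.fract, e, ← div_eq_inv_mul, one_le_div h0]
  linarith

lemma ph_zero (h0 : 0 < θ) (h1 : θ ≤ 1 / 8) (h : Int.fract w < θ) : ph θ w = 0 := by
  have := Int.fract_nonneg w
  rw [← Int.fract_add_floor w, ph_int, ph, G_val h0 (-1), G_val h0 0] <;> push_cast <;> linarith

lemma ph_one (h0 : 0 < θ) (h : 2 * θ ≤ Int.fract w) (h' : Int.fract w < 1 - 2 * θ) :
    ph θ w = 1 := by
  rw [← Int.fract_add_floor w, ph_int, ph, G_val h0 0, G_val h0 0] <;> push_cast <;> linarith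

end Pool.Agent.Lib.MP_c7858e_gt
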