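import Pool.Agent.Lib.MP_c7858e_gt.Lift

/-! The monodromy cochain is a cocycle; a `p`-sweepout bisects any `p` sets. -/

namespace Pool.Agent.Lib.MP_c7858e_gt

open MeasureTheory Set Filter Topology Pool.Agent.Sing
open scoped ENNReal symmDiff

variable {d : ℕ} {X : Type} [TopologicalSpace X]

instance stdPre (n : ℕ) : PreconnectedSpace (Std n) :=
  Subtype.preconnectedSpace (convex_stdSimplex ℝ (Fin (n + 1))).isPreconnected

open Classical in
/-- `0` for equal sets, `1` otherwise -/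
noncomputable def sg (S T : Set (Fin d → ℝ)) : ZMod 2 := if S = T then 0 else 1

lemma lam_eq (A : X → Set (Fin d → ℝ)) (σ : C(Std 1, X)) {B : Std 1 → Set (Fin d → ℝ)}
    (hB : Cont B) (hp : ∀ t, B t = A (σ t) ∨ B t = (A (σ t))ᶜ) :
    lam A σ = sg (B (stdSimplex.vertex 0)) (A (σ (stdSimplex.vertex 0))) +
      sg (B (stdSimplex.vertex 1)) (A (σ (stdSimplex.vertex 1))) := by
  unfold lam
  split_ifs with h
  · obtain ⟨B', h1, h2, h3, h4⟩ := h
    rw [cont_iff] at h1
    have hq : ∀ t, B t = B' t ∨ B t = (B' t)ᶜ := fun t => by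
      rcases hp t with a | a <;> rcases h2 t with b | b <;> simp [a, b]
    rcases hq (stdSimplex.vertex 0) with a | a
    · have := lift_same h1 hB hq a (stdSimplex.vertex 1)
      rw [a, this, h3, h4, sg, sg, if_pos rfl, if_neg (compl_ne _), zero_add]
    · have := lift_same h1.compl hB (fun t => by simpa using (hq t).symm) a (stdSimplex.vertex 1)
      rw [a, this, h3, h4, compl_compl, sg, sg, if_pos rfl, if_neg (compl_ne _), add_zero]
  · rcases hp (stdSimplex.vertex 0) with a | a <;> rcases hp (stdSimplex.vertex 1) with b | b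
    · rw [a, b, sg, sg, if_pos rfl, if_pos rfl, add_zero]
    · exact absurd ⟨B, cont_iff.2 hB, hp, a, b⟩ h
    · refine absurd ⟨fun t => (B t)ᶜ, cont_iff.2 hB.compl, fun t => ?_, ?_, ?_⟩ h
      · rcases hp t with c | c <;> simp [c]
      · simp [a]
      · simp [b]
    · rw [a, b, sg, sg, if_neg (compl_ne _), if_neg (compl_ne _)]
      rfl

/-- the monodromy cochain -/
noncomputable def a1 (A : X → Set (Fin d → ℝ)) : Co (ZMod 2) X 1 :=
  Finsupp.linearCombination (ZMod 2) (lam A)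

lemma a1_cocyc {A : X → Set (Fin d → ℝ)} (hm : ∀ x, MeasurableSet (A x)) (hZ : ContZ A) :
    a1 A ∈ cocyc (ZMod 2) X 1 := by
  rw [mem_cocyc]
  have : (a1 A) ∘ₗ bd (ZMod 2) X 1 = 0 := ch_ext fun τ => by
    obtain ⟨B, h1, h2⟩ := exists_lift (hZ.comp τ.continuous) fun _ => hm _
    have e : ∀ f : Fin 2 → Fin 3, lam A (τ.comp (vmap f)) =
        sg (B (stdSimplex.vertex (f 0))) (A (τ (stdSimplex.vertex (f 0)))) +
        sg (B (stdSimplex.vertex (f 1))) (A (τ (stdSimplex.vertex (f 1)))) := fun f => by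
      rw [lam_eq A _ (h1.comp (vmap f).continuous) fun t => h2 _]
      simp only [ContinuousMap.comp_apply, vmap_vertex]
    have n1 : (-1 : ZMod 2) = 1 := rfl
    simp only [LinearMap.comp_apply, bd_single, map_sum, a1,
      Finsupp.linearCombination_single, one_smul, e, n1, one_pow, LinearMap.zero_apply]
    have s0 : (0 : Fin 3).succAbove 0 = 1 ∧ (0 : Fin 3).succAbove 1 = 2 ∧
        (1 : Fin 3).succAbove 0 = 0 ∧ (1 : Fin 3).succAbove 1 = 2 ∧
        (2 : Fin 3).succAbove 0 = 0 ∧ (2 : Fin 3).succAbove 1 = 1 := by decide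
    obtain ⟨s1, s2, s3, s4, s5, s6⟩ := s0
    refine (Fin.sum_univ_three _).trans ?_
    rw [s1, s2, s3, s4, s5, s6]
    have : ∀ x y z : ZMod 2, y + z + (x + z) + (x + y) = 0 := by decide
    exact this _ _ _
  exact fun c => LinearMap.congr_fun this c

lemma lamPow_succ (A : X → Set (Fin d → ℝ)) (p : ℕ) :
    lamPow A (p + 1) = cup (Nat.add_comm 1 p) (a1 A) (lamPow A p) := ch_ext fun σ => by
  simp only [lamPow, cup, a1, Finsupp.linearCombination_single, one_smul, Fin.prod_univ_succ,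
    front, back, ContinuousMap.comp_assoc, vmap_comp]
  congr 1
  · congr 3
    funext i
    fin_cases i <;> rfl
  · refine Finset.prod_congr rfl fun i _ => ?_
    congr 3
    funext j
    fin_cases j <;> exact Fin.ext (by simp [Nat.add_comm])

section
open Pool.Agent.Shared.Sing
variable [Nonempty X]

/-- iterated cup product in the ungraded model -/
noncomputable def pw (φ : C (ZMod 2) X →ₗ[ZMod 2] ZMod 2) : ℕ → C (ZMod 2) X →ₗ[ZMod 2] ZMod 2
  | 0 => Pool.Agent.Shared.Sing.eps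
  | p + 1 => Pool.Agent.Shared.Sing.cup 1 φ (pw φ p)

lemma pw_coc {φ : C (ZMod 2) X →ₗ[ZMod 2] ZMod 2} (h : Coc univ 1 φ) :
    ∀ p, Coc univ p (pw φ p)
  | 0 => coc_eps
  | p + 1 => by
    have := h.cup (pw_coc h p)
    rwa [Nat.add_comm 1 p] at this

lemma lamPow_eq (A : X → Set (Fin d → ℝ)) :
    ∀ p, lamPow A p = pw (a1 A ∘ₗ rb (ZMod 2) 1) p ∘ₗ br (ZMod 2) p
  | 0 => ch_ext fun σ => by simp [lamPow, pw]
  | p + 1 => by
    rw [lamPow_succ, pw, ← cup_comp_br (Nat.add_comm 1 p), comp_rb_comp_br, ← lamPow_eq A p]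

lemma pw_ls {φ : C (ZMod 2) X →ₗ[ZMod 2] ZMod 2} (h : Coc univ 1 φ) : ∀ (p : ℕ) (U : Fin p → Set X),
    (∀ i, IsOpen (U i) ∧ Dies (U i) 1 φ) → ∀ c ∈ Z (ZMod 2) (⋃ i, U i) ∅ p, pw φ p c = 0
  | 0, U, _, c, hc => by
    rw [iUnion_of_empty] at hc
    rw [In_empty hc.1, map_zero]
  | p + 1, U, hU, c, hc => by
    have e : ⋃ i, U i = U 0 ∪ ⋃ i : Fin p, U i.succ := by
      ext x; simp [Fin.exists_fin_succ]
    rw [e] at hc
    obtain ⟨c', h1, h2⟩ := cap_shrink (p := 0) (k := p) (hU 0).1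
      (isOpen_iUnion fun i : Fin p => (hU i.succ).1) (h.mono (subset_univ _)) (hU 0).2
      (by simpa only [Nat.zero_add, Nat.add_comm 1 p] using hc)
    have h3 := ((pw_coc h p).mono (subset_univ _)).apply_B h2
    rw [map_sub, pw_ls h p (fun i => U i.succ) (fun i => hU i.succ) c' h1, sub_zero] at h3
    exact h3

end

theorem Sweep.bisect {p : ℕ} {A : X → Set (Fin d → ℝ)} (h : Sweep p A)
    (T : Fin p → Set (Fin d → ℝ)) :
    ∃ x, ∀ i, 2 * (cube d).real (A x ∩ T i) = (cube d).real (T i) := by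
  classical
  obtain ⟨hm, hZ, hc⟩ := h
  rw [contZ_iff] at hZ
  by_contra hn
  push Not at hn
  rcases isEmpty_or_nonempty X with hX | hX
  · refine hc ?_
    rw [show lamPow A p = 0 from ch_ext fun σ => hX.elim (σ (stdSimplex.vertex 0))]
    exact zero_mem _
  let ψ : Fin p → Set (Fin d → ℝ) → ℝ := fun i S => (cube d).real (S ∩ T i) - (cube d).real (T i) / 2
  have hodd : ∀ i x, ψ i (A x)ᶜ = -ψ i (A x) := fun i x => by
    have := measureReal_inter_add_sdiff (μ := cube d) (s := T i) (hm x)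
    simp only [ψ]
    rw [inter_comm (A x)ᶜ, ← sdiff_eq, inter_comm (A x)]
    linarith
  have hlip : ∀ i S S', ψ i S' - D S S' ≤ ψ i S := fun i S S' => by
    have h1 : S' ∩ T i ⊆ S ∩ T i ∪ S ∆ S' := fun x hx => by
      by_cases hS : x ∈ S
      · exact Or.inl ⟨hS, hx.2⟩
      · exact Or.inr (Or.inr ⟨hx.1, hS⟩)
    have h2 := (measureReal_mono (μ := cube d) h1).trans (measureReal_union_le _ _)
    simp only [ψ, D]
    linarith
  have hs := fun i (x0 : X) (h0 : ψ i (A x0) ≠ 0) => select hZ hm (fun _ => ψ i) (hodd i) x0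
    (fun ε hε => Eventually.of_forall fun y S S' _ _ => by linarith [hlip i S S']) h0
  refine hc (mem_cobdry_iff.2 fun z hz => ?_)
  rw [lamPow_eq]
  refine pw_ls (Shared.Sing.coc_comp_rb.2 (a1_cocyc hm hZ)) p (fun i => {x | ψ i (A x) ≠ 0})
    (fun i => ⟨isOpen_iff_mem_nhds.2 fun x hx => (hs i x hx 1 one_pos).mono fun y hy => hy.1, ?_⟩)
    _ ?_
  · let B : X → Set (Fin d → ℝ) := fun y => if 0 < ψ i (A y) then A y else (A y)ᶜ
    let b : Co (ZMod 2) X 0 := Finsupp.linearCombination (ZMod 2) fun σ : C(Std 0, X) =>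
      sg (B (σ (stdSimplex.vertex 0))) (A (σ (stdSimplex.vertex 0)))
    refine ⟨b ∘ₗ Shared.Sing.rb (ZMod 2) 0, fun c hc => ?_⟩
    rw [LinearMap.comp_apply, LinearMap.comp_apply, Shared.Sing.rb_D hc]
    refine eq_of_chIn (a1 A) (b ∘ₗ bd (ZMod 2) X 0) (fun σ hσ => ?_) (Shared.Sing.rb_mem_chIn hc)
    have h1 : Cont fun t => B (σ t) := fun t ε hε =>
      (σ.continuous.tendsto t).eventually ((hs i _ (hσ ⟨t, rfl⟩) ε hε).mono fun y hy => hy.2)
    have h2 : ∀ t, B (σ t) = A (σ t) ∨ B (σ t) = (A (σ t))ᶜ := fun t => by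
      simp only [B]
      split_ifs
      exacts [Or.inl rfl, Or.inr rfl]
    have n1 : (-1 : ZMod 2) = 1 := rfl
    simp only [LinearMap.comp_apply, bd_single, map_sum, a1, b,
      Finsupp.linearCombination_single, one_smul, n1, one_pow,
      lam_eq A σ h1 h2, ContinuousMap.comp_apply, vmap_vertex]
    exact (add_comm _ _).trans (Fin.sum_univ_two fun x : Fin 2 =>
      sg (B (σ (stdSimplex.vertex (x.succAbove 0)))) (A (σ (stdSimplex.vertex (x.succAbove 0))))).symm
  · have e : ⋃ i, {x | ψ i (A x) ≠ 0} = univ := eq_univ_of_forall fun x => by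
      obtain ⟨i, hi⟩ := hn x
      exact mem_iUnion.2 ⟨i, fun h0 => hi (by simp only [ψ] at h0; linarith)⟩
    rw [e]
    exact Shared.Sing.br_mem_Z.2 hz

end Pool.Agent.Lib.MP_c7858e_gt
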