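import Pool.Agent.Lib.MP_c7858e_gt.Iface

/-! The upper bound for the widths. -/

namespace Pool.Agent.Lib.MP_c7858e_gt

open MeasureTheory Set Filter Topology Matrix
open scoped ENNReal ContDiff

/-- the area density -/
noncomputable def dens {d : ℕ} (g : Met d) (x ξ : Fin d → ℝ) : ℝ :=
  √((g.g x).det * (ξ ⬝ᵥ (g.g x)⁻¹ *ᵥ ξ))

lemma energy_eq {d : ℕ} (g : Met d) (u : (Fin d → ℝ) → ℝ) (U : Set (Fin d → ℝ)) :
    energy g u U = ∫⁻ x in U, ENNReal.ofReal (dens g x fun i => pd u i x) ∂cube d := rfl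

lemma pd_eq {d : ℕ} {u : (Fin d → ℝ) → ℝ} (hu : ContDiff ℝ 1 u) (i : Fin d) (z : Fin d → ℝ)
    {c : ℝ} (h : HasDerivAt (fun τ => u (Function.update z i τ)) c (z i)) : pd u i z = c := by
  have h1 := (hu.differentiable one_ne_zero (Function.update z i (z i))).hasFDerivAt.comp_hasDerivAt
    (z i) (hasDerivAt_update z i (z i))
  rw [Function.update_eq_self] at h1
  exact h1.unique h

variable {n p P : ℕ} {x : Fin (p + 1) → ℝ} {k : ℝ}

/-- the lower pattern -/
noncomputable def VV (x : Fin (p + 1) → ℝ) (P : ℕ) (k s y : ℝ) : ℝ :=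
  ∑ i ∈ Finset.range P, hh x P i k y * th P k i s

/-- the smooth approximation of the indicator -/
noncomputable def uu (x : Fin (p + 1) → ℝ) (P : ℕ) (k : ℝ) (z : Fin (n + 3) → ℝ) : ℝ :=
  VV x P k (z 2) (z 0) + th 2 k 1 (z 1) * (hh x 1 0 k (z 2) - VV x P k (z 2) (z 0))

lemma VV_smooth (hk : 2 ≤ k) : ContDiff ℝ 1 fun z : Fin (n + 3) → ℝ => VV x P k (z 2) (z 0) :=
  ContDiff.sum fun i _ => (((hh_smooth hk).of_le (by simp)).comp (contDiff_apply ℝ ℝ 0)).mul
    (((th_smooth hk P i).of_le (by simp)).comp (contDiff_apply ℝ ℝ 2))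

lemma uu_smooth (hk : 2 ≤ k) : ContDiff ℝ 1 (uu (n := n) x P k) :=
  (VV_smooth hk).add ((((th_smooth hk 2 1).of_le (by simp)).comp (contDiff_apply ℝ ℝ 1)).mul
    ((((hh_smooth hk).of_le (by simp)).comp (contDiff_apply ℝ ℝ 2)).sub (VV_smooth hk)))

lemma per_coord {d : ℕ} {f : ℝ → ℝ} (hf : ∀ t, f (t + 1) = f t) (z : Fin d → ℝ) (i j : Fin d) :
    f ((z + Pi.single i 1 : Fin d → ℝ) j) = f (z j) := by
  by_cases h : j = i <;> simp [h, hf]

lemma uu_per (z : Fin (n + 3) → ℝ) (i : Fin (n + 3)) :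
    uu x P k (z + Pi.single i 1) = uu x P k z := by
  simp only [uu, VV, per_coord hh_per, per_coord (th_per _ _ _)]

lemma VV_le (hk : 0 ≤ k) (hP : 0 < P) (s y : ℝ) : |VV x P k s y| ≤ P * (p + 1) := by
  refine (Finset.abs_sum_le_sum_abs _ _).trans
    ((Finset.sum_le_card_nsmul _ _ (p + 1 : ℝ) fun i _ => ?_).trans (by simp [mul_add]))
  rw [abs_mul, abs_of_nonneg (th_nonneg hk)]
  exact (mul_le_of_le_one_right (abs_nonneg _) (th_le_one hk hP)).trans (hh_le hk)

lemma UV_le (hk : 0 ≤ k) (hP : 0 < P) (s y : ℝ) :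
    |hh x 1 0 k s - VV x P k s y| ≤ (P + 1) * (p + 1) := by
  linarith [abs_sub (hh x 1 0 k s) (VV x P k s y), VV_le (x := x) hk hP s y,
    hh_le (x := x) (P := 1) (i := 0) (t := s) hk]

lemma UV_lim (hP : 0 < P) : ∀ᵐ z ∂cube (n + 3), ∀ᶠ k : ℕ in atTop,
    hh x 1 0 (k + 2) (z 2) = val x (z 2) ∧
    VV x P (k + 2) (z 2) (z 0) = val x ((⌊(P : ℝ) * z 2⌋₊ + z 0) / P) ∧
    uu x P (k + 2) z = (HH P x).indicator 1 z := by
  have hP' : (0 : ℝ) < P := by positivity
  filter_upwards [ae_good (n + 3) x] with z hz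
  have z2 := (hz 2).1
  have z1 := (hz 1).1
  have hiP : ⌊P * z 2⌋₊ < P :=
    (Nat.floor_lt (mul_pos hP' z2.1).le).2 (mul_lt_of_lt_one_right hP' z2.2)
  filter_upwards [hh_lim (i := 0) one_pos z2 fun j => (hz 2).2.1 1 j 0,
    hh_lim (i := ⌊P * z 2⌋₊) hP (hz 0).1 fun j => (hz 0).2.1 P j _,
    ev_fract P ((hz 2).2.2 P hP), ev_fract (2 : ℕ) ((hz 1).2.2 2 two_pos)] with k a b c e
  have hk : (0 : ℝ) ≤ k + 2 := by positivity
  have a' : hh x 1 0 (k + 2) (z 2) = val x (z 2) := by simpa using a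
  have b' : VV x P (k + 2) (z 2) (z 0) = val x ((⌊P * z 2⌋₊ + z 0) / P) := by
    rw [VV, Finset.sum_congr rfl fun i hi => by
      rw [th_eq hk (Finset.mem_range.1 hi) z2.1.le z2.2 c]]
    simp [hiP, b]
  refine ⟨a', b', ?_⟩
  have hf : ∀ i, Int.fract (z i) = z i := fun i =>
    Int.fract_eq_self.2 ⟨(hz i).1.1.le, (hz i).1.2⟩
  have h1 : uu x P (k + 2) z = val x (tau P z) := by
    rw [uu, a', b', th_eq hk one_lt_two z1.1.le z1.2 e, tau, hf, hf, hf]
    have : ⌊((2 : ℕ) : ℝ) * z 1⌋₊ = 1 ↔ ¬z 1 < 1 / 2 := by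
      rw [Nat.floor_eq_iff (by have := z1.1; positivity)]
      push_cast
      exact ⟨fun h => by linarith [h.1], fun h => ⟨by linarith, by linarith [z1.2]⟩⟩
    by_cases h : z 1 < 1 / 2
    · rw [if_neg (this.not.2 (not_not.2 h)), if_pos h]; ring
    · rw [if_pos (this.2 h), if_neg h]; ring
  rw [h1]
  rcases val01 x (tau_mem hP z).1 with h | h <;> simp [indicator, HH, h]

lemma uu_L1 (hP : 0 < P) : Tendsto (fun k : ℕ => ∫⁻ z, ‖uu x P (k + 2) z -
    (HH P x).indicator 1 z‖ₑ ∂cube (n + 3)) atTop (𝓝 0) := by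
  have hk : ∀ k : ℕ, (2 : ℝ) ≤ k + 2 := fun k => le_add_of_nonneg_left k.cast_nonneg
  have := tendsto_lintegral_of_dominated_convergence (μ := cube (n + 3)) (f := fun _ => 0)
    (F := fun (k : ℕ) z => ‖uu x P (k + 2) z - (HH P x).indicator 1 z‖ₑ)
    (fun _ => ENNReal.ofReal (P * (p + 1) + (P + 1) * (p + 1) + 1))
    (fun k => ((uu_smooth (hk k)).continuous.measurable.sub
      (measurable_one.indicator (HH_meas P x))).enorm)
    (fun k => Eventually.of_forall fun z => ?_) (by simp) ?_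
  · simpa using this
  · have h0 : (0 : ℝ) ≤ k + 2 := by positivity
    dsimp only
    rw [← ofReal_norm]
    refine ENNReal.ofReal_le_ofReal ((norm_sub_le _ _).trans (add_le_add ((norm_add_le _ _).trans
      (add_le_add (VV_le h0 hP _ _) ?_)) ((norm_indicator_le_norm_self _ _).trans (by simp))))
    rw [norm_mul, Real.norm_of_nonneg (th_nonneg h0)]
    exact (mul_le_of_le_one_left (norm_nonneg _) (th_le_one h0 two_pos)).trans (UV_le h0 hP _ _)
  · filter_upwards [UV_lim (x := x) hP] with z hz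
    exact tendsto_const_nhds.congr' (hz.mono fun k h => by simp [h.2.2])

/-- the shape of the area density used for the upper bound -/
def UP (g : Met (n + 3)) (P : ℕ) (θ η : ℝ) (σ : ℝ → ℝ) : Prop :=
  ∀ z ξ : Fin (n + 3) → ℝ, (∀ i, i ≠ 0 → i ≠ 1 → i ≠ 2 → ξ i = 0) →
    (θ ≤ Int.fract ((2 : ℕ) * z 1) → ⌊((2 : ℕ) : ℝ) * z 1⌋₊ = 1 → ξ 0 = 0) →
    (θ ≤ Int.fract ((2 : ℕ) * z 1) → ⌊((2 : ℕ) : ℝ) * z 1⌋₊ ≠ 1 → θ ≤ Int.fract (P * z 2) →
      ξ 2 = 0) → z 1 ∈ Ioo (0 : ℝ) 1 →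
    dens g z ξ ≤ η * |ξ 0| + |ξ 1| * σ (z 2) + η * |ξ 2|

lemma dens_le {g : Met (n + 3)} {θ η : ℝ} {σ : ℝ → ℝ} (h : UP g P θ η σ) (hη : 0 ≤ η)
    (hσ : ∀ s, 0 ≤ σ s) (hP : 0 < P)
    (hk : 2 ≤ k) (h2 : (2 : ℕ) < k * θ) (h3 : P < k * θ) {z : Fin (n + 3) → ℝ}
    (hz : z 1 ∈ Ioo (0 : ℝ) 1) : ENNReal.ofReal (dens g z fun i => pd (uu x P k) i z) ≤
      (∑ i ∈ Finset.range P, ‖deriv (hh x P i k) (z 0)‖ₑ) * ENNReal.ofReal η +
      ‖deriv (th 2 k 1) (z 1)‖ₑ *
        (ENNReal.ofReal (σ (z 2)) * ‖hh x 1 0 k (z 2) - VV x P k (z 2) (z 0)‖ₑ) +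
      (‖deriv (hh x 1 0 k) (z 2)‖ₑ + (p + 1) * ∑ i ∈ Finset.range P, ‖deriv (th P k i) (z 2)‖ₑ) *
        ENNReal.ofReal η := by
  have h0 : 0 ≤ k := by linarith
  have dh : ∀ P i t, HasDerivAt (hh x P i k) (deriv (hh x P i k) t) t := fun P i t =>
    ((hh_smooth hk).differentiable (by simp) t).hasDerivAt
  have dt : ∀ P i t, HasDerivAt (th P k i) (deriv (th P k i) t) t := fun P i t =>
    ((th_smooth hk P i).differentiable (by simp) t).hasDerivAt
  have e0 : pd (uu x P k) 0 z = (1 - th 2 k 1 (z 1)) *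
      ∑ i ∈ Finset.range P, deriv (hh x P i k) (z 0) * th P k i (z 2) := by
    refine pd_eq (uu_smooth hk) 0 z ?_
    simp only [uu, VV, Function.update_self, Function.update_of_ne (ne01 n),
      Function.update_of_ne (ne02 n)]
    have := HasDerivAt.fun_sum (u := Finset.range P) fun i _ =>
      (dh P i (z 0)).mul_const (th P k i (z 2))
    exact (this.fun_add ((this.const_sub _).const_mul _)).congr_deriv (by ring)
  have e1 : pd (uu x P k) 1 z =
      deriv (th 2 k 1) (z 1) * (hh x 1 0 k (z 2) - VV x P k (z 2) (z 0)) := by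
    refine pd_eq (uu_smooth hk) 1 z ?_
    simp only [uu, Function.update_self, Function.update_of_ne (ne01 n).symm,
      Function.update_of_ne (ne12 n)]
    exact ((dt 2 1 (z 1)).mul_const _).const_add _
  have e2 : pd (uu x P k) 2 z = th 2 k 1 (z 1) * deriv (hh x 1 0 k) (z 2) + (1 - th 2 k 1 (z 1)) *
      ∑ i ∈ Finset.range P, hh x P i k (z 0) * deriv (th P k i) (z 2) := by
    refine pd_eq (uu_smooth hk) 2 z ?_
    simp only [uu, VV, Function.update_self, Function.update_of_ne (ne02 n).symm,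
      Function.update_of_ne (ne12 n).symm]
    have := HasDerivAt.fun_sum (u := Finset.range P) fun i _ =>
      (dt P i (z 2)).const_mul (hh x P i k (z 0))
    exact (this.fun_add (((dh 1 0 (z 2)).fun_sub this).const_mul _)).congr_deriv (by ring)
  have t0 : 0 ≤ th 2 k 1 (z 1) := th_nonneg h0
  have t1 : th 2 k 1 (z 1) ≤ 1 := th_le_one h0 two_pos
  have b0 : |pd (uu x P k) 0 z| ≤ ∑ i ∈ Finset.range P, ‖deriv (hh x P i k) (z 0)‖ := by
    rw [e0, abs_mul, abs_of_nonneg (sub_nonneg.2 t1)]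
    refine (mul_le_of_le_one_left (abs_nonneg _) (by linarith)).trans
      ((Finset.abs_sum_le_sum_abs _ _).trans (Finset.sum_le_sum fun i _ => ?_))
    rw [abs_mul, abs_of_nonneg (th_nonneg h0)]
    exact mul_le_of_le_one_right (abs_nonneg _) (th_le_one h0 hP)
  have b2 : |pd (uu x P k) 2 z| ≤ ‖deriv (hh x 1 0 k) (z 2)‖ +
      (p + 1) * ∑ i ∈ Finset.range P, ‖deriv (th P k i) (z 2)‖ := by
    rw [e2, Finset.mul_sum _ _ (p + 1 : ℝ)]
    refine (abs_add_le _ _).trans (add_le_add ?_ ?_)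
    · rw [abs_mul, abs_of_nonneg t0]
      exact mul_le_of_le_one_left (abs_nonneg _) t1
    · rw [abs_mul, abs_of_nonneg (sub_nonneg.2 t1)]
      refine (mul_le_of_le_one_left (abs_nonneg _) (by linarith)).trans
        ((Finset.abs_sum_le_sum_abs _ _).trans (Finset.sum_le_sum fun i _ => ?_))
      rw [abs_mul]
      exact mul_le_mul_of_nonneg_right (hh_le h0) (abs_nonneg _)
  have := h z (fun i => pd (uu x P k) i z) (fun i i0 i1 i2 => pd_eq (uu_smooth hk) i z (by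
      simp only [uu, Function.update_of_ne i0.symm, Function.update_of_ne i1.symm,
        Function.update_of_ne i2.symm]
      exact hasDerivAt_const _ _))
    (fun a b => by
      rw [e0, th_eq h0 one_lt_two hz.1.le hz.2 (h2.trans_le (by gcongr)), if_pos b, sub_self,
        zero_mul])
    (fun a b c => by
      rw [e2, th_eq h0 one_lt_two hz.1.le hz.2 (h2.trans_le (by gcongr)), if_neg b]
      simp [th_deriv_zero hk hP (h3.trans_le (by gcongr))]) hz
  refine (ENNReal.ofReal_le_ofReal (this.trans (add_le_add (add_le_add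
    (mul_le_mul_of_nonneg_left b0 hη) le_rfl) (mul_le_mul_of_nonneg_left b2 hη)))).trans ?_
  have := hσ (z 2)
  rw [ENNReal.ofReal_add (by positivity) (by positivity),
    ENNReal.ofReal_add (by positivity) (by positivity), ENNReal.ofReal_mul hη,
    ENNReal.ofReal_mul hη, ENNReal.ofReal_add (by positivity) (by positivity), e1, abs_mul,
    ENNReal.ofReal_mul (by positivity), ENNReal.ofReal_mul (by positivity),
    ENNReal.ofReal_mul (by positivity), ENNReal.ofReal_sum_of_nonneg fun _ _ => norm_nonneg _,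
    ENNReal.ofReal_sum_of_nonneg fun _ _ => norm_nonneg _, ENNReal.ofReal_add (by positivity)
      zero_le_one, ENNReal.ofReal_natCast, ENNReal.ofReal_one]
  simp only [← Real.norm_eq_abs, ofReal_norm]
  exact le_of_eq (by ring)

lemma energy_le {g : Met (n + 3)} {θ η : ℝ} {σ : ℝ → ℝ} (h : UP g P θ η σ) (hη : 0 ≤ η)
    (hσ : ∀ s, 0 ≤ σ s) (hm : Measurable σ) (hP : 0 < P)
    (hk : 2 ≤ k) (h2 : (2 : ℕ) < k * θ) (h3 : P < k * θ) {B0 B1 : Set ℝ} (m0 : MeasurableSet B0)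
    (m1 : MeasurableSet B1) {U : Set (Fin (n + 3) → ℝ)} (hU : U ⊆ {z | z 0 ∈ B0 ∧ z 1 ∈ B1}) :
    energy g (uu x P k) U ≤ P * (2 * p) * (ENNReal.ofReal η * nu B1) +
      2 * (∫⁻ z, B0.indicator 1 (z 0) * (ENNReal.ofReal (σ (z 2)) *
        ‖hh x 1 0 k (z 2) - VV x P k (z 2) (z 0)‖ₑ) ∂cube (n + 3)) +
      (2 * p + (p + 1) * (P * 2)) * (ENNReal.ofReal η * nu B0) := by
  have mh : ∀ P i, Measurable fun t => ‖deriv (hh x P i k) t‖ₑ := fun _ _ =>
    (measurable_deriv _).enorm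
  have mt : ∀ P i, Measurable fun t => ‖deriv (th P k i) t‖ₑ := fun _ _ =>
    (measurable_deriv _).enorm
  have f0 : Measurable fun t => ∑ i ∈ Finset.range P, ‖deriv (hh x P i k) t‖ₑ :=
    Finset.measurable_sum _ fun i _ => mh P i
  have f2' : Measurable fun t => ∑ i ∈ Finset.range P, ‖deriv (th P k i) t‖ₑ :=
    Finset.measurable_sum _ fun i _ => mt P i
  have f2 : Measurable fun t => ‖deriv (hh x 1 0 k) t‖ₑ +
      (p + 1) * ∑ i ∈ Finset.range P, ‖deriv (th P k i) t‖ₑ := (mh 1 0).add (f2'.const_mul _)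
  have g0 : ∀ (B : Set ℝ) (j : Fin (n + 3)), MeasurableSet B → Measurable
      fun z : Fin (n + 3) → ℝ => B.indicator (fun _ => ENNReal.ofReal η) (z j) := fun B j hB =>
    (measurable_const.indicator hB).comp (measurable_pi_apply j)
  have g1 : ∀ (B : Set ℝ) (j : Fin (n + 3)), MeasurableSet B → ∫⁻ z,
      B.indicator (fun _ => ENNReal.ofReal η) (z j) ∂cube (n + 3) = ENNReal.ofReal η * nu B :=
    fun B j hB => by
      rw [(mp_eval j).lintegral_comp (measurable_const.indicator hB), lintegral_indicator_const hB]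
  have g2 : Measurable fun z : Fin (n + 3) → ℝ => B0.indicator 1 (z 0) * (ENNReal.ofReal (σ (z 2)) *
      ‖hh x 1 0 k (z 2) - VV x P k (z 2) (z 0)‖ₑ) :=
    ((measurable_one.indicator m0).comp (measurable_pi_apply 0)).mul
      ((hm.comp (measurable_pi_apply 2)).ennreal_ofReal.mul
        (((hh_smooth hk).continuous.measurable.comp (measurable_pi_apply 2)).sub
          (VV_smooth hk).continuous.measurable).enorm)
  rw [energy_eq]
  refine (lintegral_mono_set hU).trans ?_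
  rw [← lintegral_indicator (s := {z : Fin (n + 3) → ℝ | z 0 ∈ B0 ∧ z 1 ∈ B1})
    ((measurable_pi_apply 0 m0).inter (measurable_pi_apply 1 m1))]
  refine (lintegral_mono_ae (g := fun z => (∑ i ∈ Finset.range P, ‖deriv (hh x P i k) (z 0)‖ₑ) *
      B1.indicator (fun _ => ENNReal.ofReal η) (z 1) + ‖deriv (th 2 k 1) (z 1)‖ₑ *
      (B0.indicator 1 (z 0) * (ENNReal.ofReal (σ (z 2)) *
        ‖hh x 1 0 k (z 2) - VV x P k (z 2) (z 0)‖ₑ)) + (‖deriv (hh x 1 0 k) (z 2)‖ₑ +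
      (p + 1) * ∑ i ∈ Finset.range P, ‖deriv (th P k i) (z 2)‖ₑ) *
      B0.indicator (fun _ => ENNReal.ofReal η) (z 0)) ?_).trans ?_
  · filter_upwards [ae_good (n + 3) x] with z hz
    by_cases hB : z 0 ∈ B0 ∧ z 1 ∈ B1
    · rw [indicator_of_mem (s := {z : Fin (n + 3) → ℝ | z 0 ∈ B0 ∧ z 1 ∈ B1}) hB,
        indicator_of_mem hB.1, indicator_of_mem hB.1, indicator_of_mem hB.2, Pi.one_apply, one_mul]
      exact dens_le h hη hσ hP hk h2 h3 (hz 1).1
    · rw [indicator_of_notMem (s := {z : Fin (n + 3) → ℝ | z 0 ∈ B0 ∧ z 1 ∈ B1}) hB]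
      exact zero_le
  · rw [lintegral_add_right _ ((f2.fun_comp (measurable_pi_apply 2)).fun_mul (g0 _ _ m0)),
      lintegral_add_left ((f0.fun_comp (measurable_pi_apply 0)).fun_mul (g0 _ _ m1)),
      mul_indep 0 f0 (g0 _ _ m1) fun r τ => by rw [Function.update_of_ne (ne01 n)],
      mul_indep 2 f2 (g0 _ _ m0) fun r τ => by rw [Function.update_of_ne (ne02 n).symm],
      mul_indep 1 (mt 2 1) g2 fun r τ => by
        rw [Function.update_of_ne (ne01 n).symm, Function.update_of_ne (ne12 n)],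
      g1 _ _ m0, g1 _ _ m1, lintegral_add_left (mh 1 0), lintegral_const_mul _ f2',
      lintegral_finsetSum _ fun i _ => mh P i, lintegral_finsetSum _ fun i _ => mt P i]
    gcongr
    · exact (Finset.sum_le_card_nsmul _ _ _ fun i _ => hh_lint hk).trans (by simp)
    · exact th_lint hk 2 1
    · exact hh_lint hk
    · exact (Finset.sum_le_card_nsmul _ _ _ fun i _ => th_lint hk P i).trans (by simp)

lemma mass_le {g : Met (n + 3)} (hP : 0 < P) (U : Set (Fin (n + 3) → ℝ)) {f : ℕ → ℝ≥0∞} {c : ℝ≥0∞}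
    (h : ∀ᶠ k : ℕ in atTop, energy g (uu x P (k + 2)) U ≤ f k) (hf : Tendsto f atTop (𝓝 c)) :
    mass g (HH P x) U ≤ c :=
  iInf_le_of_le (fun k => uu x P (k + 2)) (iInf_le_of_le
    (fun k => ⟨uu_smooth (le_add_of_nonneg_left k.cast_nonneg), uu_per⟩)
    (iInf_le_of_le (uu_L1 hP) ((liminf_le_liminf h).trans_eq hf.liminf_eq)))

lemma nu_ball (c : ℝ) {r : ℝ} (hr : r ≤ 1) :
    nu {t | ∃ m : ℤ, dist (t + m) c < r} ≤ 3 * ENNReal.ofReal (2 * r) := by
  have : {t : ℝ | ∃ m : ℤ, dist (t + m) c < r} ∩ Icc 0 1 ⊆ Metric.ball (Int.fract c - 1) r ∪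
      Metric.ball (Int.fract c) r ∪ Metric.ball (Int.fract c + 1) r := by
    rintro t ⟨⟨m, hm⟩, h0, h1⟩
    have a := Int.fract_nonneg c
    have b := Int.fract_lt_one c
    have e := Int.fract_add_floor c
    rw [Real.dist_eq, abs_lt] at hm
    have l1 : ((-2 : ℤ) : ℝ) < (m - ⌊c⌋ : ℤ) := by push_cast; linarith [hm.1]
    have l2 : ((m - ⌊c⌋ : ℤ) : ℝ) < (2 : ℤ) := by push_cast; linarith [hm.2]
    rw [Int.cast_lt] at l1 l2
    simp only [mem_union, Metric.mem_ball, Real.dist_eq, abs_lt]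
    rcases (by omega : m = ⌊c⌋ + 1 ∨ m = ⌊c⌋ ∨ m = ⌊c⌋ - 1) with h | h | h <;> rw [h] at hm <;>
      push_cast at hm
    · exact Or.inl (Or.inl ⟨by linarith [hm.1], by linarith [hm.2]⟩)
    · exact Or.inl (Or.inr ⟨by linarith [hm.1], by linarith [hm.2]⟩)
    · exact Or.inr ⟨by linarith [hm.1], by linarith [hm.2]⟩
  rw [nu, Measure.restrict_apply' measurableSet_Icc]
  refine (measure_mono this).trans ((measure_union_le _ _).trans
    ((add_le_add (measure_union_le _ _) le_rfl).trans_eq ?_))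
  simp only [Real.volume_ball]
  ring

theorem width_le {g : Met (n + 3)} {θ η M : ℝ} {σ : ℝ → ℝ} (h : UP g P θ η σ) (hθ : 0 < θ)
    (hη : 0 ≤ η) (hσ : ∀ s, 0 ≤ σ s) (hM : ∀ s, σ s ≤ M) (hm : Measurable σ) (hP : 0 < P)
    (hp : p ≤ P) {a : ℕ → ℝ} (ha : ∀ i j, i ≤ j → j < P → a j ≤ a i) (h0 : ∀ i < P, 0 ≤ a i)
    (hs : ∀ s ∈ Ioo (0 : ℝ) 1, σ s ≤ η + P * a ⌊P * s⌋₊) :
    width g p ≤ ENNReal.ofReal (∑ i ∈ Finset.range p, a i + η * (1 + 4 * P * (P + 1))) := by
  obtain ⟨X, _, A, h1, h2⟩ := HH_sweep n p hP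
  have hk : ∀ k : ℕ, (2 : ℝ) ≤ k + 2 := fun k => le_add_of_nonneg_left k.cast_nonneg
  have ev : ∀ c : ℝ, ∀ᶠ k : ℕ in atTop, c < ((k : ℝ) + 2) * θ := fun c =>
    ((tendsto_atTop_add_const_right _ 2 tendsto_natCast_atTop_atTop).atTop_mul_const
      hθ).eventually_gt_atTop c
  have hQ : ∀ (x : Fin (p + 1) → ℝ) (k : ℕ) (z : Fin (n + 3) → ℝ), ENNReal.ofReal (σ (z 2)) *
      ‖hh x 1 0 (k + 2) (z 2) - VV x P (k + 2) (z 2) (z 0)‖ₑ ≤
      ENNReal.ofReal M * ENNReal.ofReal ((P + 1) * (p + 1)) := fun x k z => by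
    rw [← ofReal_norm]
    exact mul_le_mul' (ENNReal.ofReal_le_ofReal (hM _))
      (ENNReal.ofReal_le_ofReal (UV_le (by positivity) hP _ _))
  refine iInf_le_of_le X (iInf_le_of_le ‹_› (iInf_le_of_le A (iInf_le_of_le ⟨h1, ?_⟩
    (iSup_le fun y => ?_))))
  · let C : ℝ≥0∞ := P * (2 * p) * ENNReal.ofReal η + 2 * (ENNReal.ofReal M *
      ENNReal.ofReal ((P + 1) * (p + 1))) + (2 * p + (p + 1) * (P * 2)) * ENNReal.ofReal η
    have t0 : Tendsto (fun r : ℝ => C * 3 * ENNReal.ofReal (2 * r)) (𝓝[>] 0) (𝓝 0) := by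
      have : Tendsto (fun r : ℝ => ENNReal.ofReal (2 * r)) (𝓝[>] 0) (𝓝 0) := by
        simpa using (ENNReal.tendsto_ofReal (((continuous_const_mul (2 : ℝ)).tendsto 0))).mono_left
          nhdsWithin_le_nhds
      simpa using ENNReal.Tendsto.const_mul (a := C * 3) this (Or.inr (by finiteness))
    refine tendsto_of_tendsto_of_tendsto_of_le_of_le' tendsto_const_nhds t0
      (Eventually.of_forall fun _ => zero_le) ?_
    filter_upwards [Ioc_mem_nhdsGT zero_lt_one] with r hr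
    refine iSup_le fun y => iSup_le fun q => ?_
    obtain ⟨x, e⟩ := h2 y
    have mB : ∀ c : ℝ, MeasurableSet {t : ℝ | ∃ m : ℤ, dist (t + m) c < r} := fun c => by
      rw [ofPred_exists]
      exact MeasurableSet.iUnion fun m => measurableSet_lt (by fun_prop) measurable_const
    rw [e]
    refine mass_le hP _ ?_ tendsto_const_nhds
    filter_upwards [ev (2 : ℕ), ev P] with k a b
    refine (energy_le h hη hσ hm hP (hk k) a b (mB (q 0)) (mB (q 1)) fun w hw => hw.elim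
      fun m hw => ⟨⟨m 0, (dist_le_pi_dist _ _ 0).trans_lt hw⟩,
        ⟨m 1, (dist_le_pi_dist _ _ 1).trans_lt hw⟩⟩).trans ?_
    have := (lintegral_mono fun z : Fin (n + 3) → ℝ => mul_le_mul_right (hQ x k z)
      ({t : ℝ | ∃ m : ℤ, dist (t + m) (q 0) < r}.indicator 1 (z 0))).trans_eq
      (lintegral_mul_const' _ _ (by finiteness) (μ := cube (n + 3)))
    rw [(mp_eval 0).lintegral_comp (measurable_one.indicator (mB _)),
      lintegral_indicator_one (mB _)] at this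
    refine (add_le_add (add_le_add (mul_le_mul_right (mul_le_mul_right (nu_ball _ hr.2) _) _)
      (mul_le_mul_right (this.trans (mul_le_mul_left (nu_ball _ hr.2) _)) _))
      (mul_le_mul_right (mul_le_mul_right (nu_ball _ hr.2) _) _)).trans_eq ?_
    simp only [C]
    ring
  · obtain ⟨x, e⟩ := h2 y
    have t := tendsto_lintegral_of_dominated_convergence (μ := cube (n + 3))
      (F := fun (k : ℕ) z => ENNReal.ofReal (σ (z 2)) *
        ‖hh x 1 0 (k + 2) (z 2) - VV x P (k + 2) (z 2) (z 0)‖ₑ)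
      (f := fun z => ENNReal.ofReal (σ (z 2)) *
        ‖val x (z 2) - val x ((⌊(P : ℝ) * z 2⌋₊ + z 0) / P)‖ₑ) _
      (fun k => (hm.comp (measurable_pi_apply 2)).ennreal_ofReal.mul
        (((hh_smooth (hk k)).continuous.measurable.comp (measurable_pi_apply 2)).sub
          (VV_smooth (hk k)).continuous.measurable).enorm)
      (fun k => Eventually.of_forall (hQ x k)) (by simp; finiteness) (by
        filter_upwards [UV_lim (x := x) hP] with z hz
        exact tendsto_const_nhds.congr' (hz.mono fun k h => by simp only [h.1, h.2.1]))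
    rw [e]
    refine (mass_le hP _ ?_ (((ENNReal.Tendsto.const_mul (a := 2) t (Or.inr (by simp))).const_add
      (P * (2 * p) * ENNReal.ofReal η)).add_const
        ((2 * p + (p + 1) * (P * 2)) * ENNReal.ofReal η))).trans ?_
    · filter_upwards [ev (2 : ℕ), ev P] with k a b
      simpa using energy_le (x := x) h hη hσ hm hP (hk k) a b MeasurableSet.univ MeasurableSet.univ
        (U := univ) fun _ _ => ⟨trivial, trivial⟩
    · have s0 : 0 ≤ ∑ i ∈ Finset.range p, a i :=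
        Finset.sum_nonneg fun i hi => h0 i ((Finset.mem_range.1 hi).trans_le hp)
      refine (add_le_add (add_le_add le_rfl (iface hP hp x ha h0 hη hs)) le_rfl).trans ?_
      have c : ∀ m : ℕ, (m : ℝ≥0∞) * ENNReal.ofReal η = ENNReal.ofReal (m * η) := fun m => by
        rw [ENNReal.ofReal_mul m.cast_nonneg, ENNReal.ofReal_natCast]
      have c1 := c (P * (2 * p))
      have c2 := c (2 * p + (p + 1) * (P * 2))
      push_cast at c1 c2
      rw [c1, c2, ← ENNReal.ofReal_add (by positivity) (by positivity),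
        ← ENNReal.ofReal_add (by positivity) (by positivity)]
      refine ENNReal.ofReal_le_ofReal ?_
      have : (p : ℝ) ≤ P := by exact_mod_cast hp
      have : (4 * P + 2) * p * η ≤ (4 * P + 2) * P * η := by gcongr
      nlinarith

end Pool.Agent.Lib.MP_c7858e_gt
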